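import Pool.Agent.RefG.Defs

/-!
RG5. All coefficients are algebraic.
`lin_alg`, `rowM_alg`: the polynomials with algebraic coefficients form a subring, the range of
`MvPolynomial.map` of the inclusion of the field of algebraic elements. `inv_alg`: `T⁻¹` is a multiple
of the adjugate. `matT_alg`: entries of `matT τ` are `0`, `1` or binomial coefficients times powers of
algebraic numbers.
-/

open MvPolynomial NumberField
open scoped Classical

namespace Pool.Agent.RefG

/-- the polynomials with algebraic coefficients -/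
private noncomputable def Alg_ring (A : Type) [Field A] [CharZero A] (n : ℕ) :
    Subring (MvPolynomial (Fin (n + 1)) A) :=
  (MvPolynomial.map (algebraMap (algebraicClosure ℚ A) A)).range

private theorem Alg_mem {A : Type} [Field A] [CharZero A] {n : ℕ}
    (P : MvPolynomial (Fin (n + 1)) A) :
    P ∈ Alg_ring A n ↔ ∀ ν, IsAlgebraic ℚ (P.coeff ν) := by
  constructor
  · rintro ⟨p, rfl⟩ ν
    rw [coeff_map]
    exact mem_algebraicClosure_iff.mp (p.coeff ν).2
  · intro h
    rw [P.as_sum]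
    refine Subring.sum_mem _ fun ν _ => ?_
    exact ⟨monomial ν ⟨P.coeff ν, mem_algebraicClosure_iff.mpr (h ν)⟩, by rw [map_monomial]; rfl⟩

private theorem Alg_C {A : Type} [Field A] [CharZero A] {n : ℕ} {c : A} (hc : IsAlgebraic ℚ c) :
    (C c : MvPolynomial (Fin (n + 1)) A) ∈ Alg_ring A n :=
  ⟨C ⟨c, mem_algebraicClosure_iff.mpr hc⟩, by rw [map_C]; rfl⟩

private theorem Alg_X {A : Type} [Field A] [CharZero A] {n : ℕ} (j : Fin (n + 1)) :
    (X j : MvPolynomial (Fin (n + 1)) A) ∈ Alg_ring A n :=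
  ⟨X j, map_X _ _⟩

theorem lin_alg {A : Type} [Field A] [CharZero A] {n : ℕ}
    (S : Matrix (Fin (n + 1)) (Fin (n + 1)) A) (hS : ∀ i j, IsAlgebraic ℚ (S i j))
    (P : MvPolynomial (Fin (n + 1)) A) (hP : ∀ ν, IsAlgebraic ℚ (P.coeff ν)) (ν) :
    IsAlgebraic ℚ ((lin S P).coeff ν) := by
  revert ν
  rw [← Alg_mem, P.as_sum, map_sum]
  refine Subring.sum_mem _ fun ν _ => ?_
  rw [lin, bind₁_monomial]
  refine Subring.mul_mem _ (Alg_C (hP ν)) (Subring.prod_mem _ fun j _ => Subring.pow_mem _ ?_ _)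
  exact Subring.sum_mem _ fun l _ => Subring.mul_mem _ (Alg_C (hS j l)) (Alg_X l)

theorem rowM_alg {A : Type} [Field A] [CharZero A] {n : ℕ}
    (T : Matrix (Fin (n + 1)) (Fin (n + 1)) A) (hT : ∀ i j, IsAlgebraic ℚ (T i j))
    (Φ : MvPolynomial (Fin (n + 1)) A) (hΦ : ∀ ν, IsAlgebraic ℚ (Φ.coeff ν))
    (μ : Fin (n + 1) →₀ ℕ) (N : ℕ) (i i' : Idx n N) : IsAlgebraic ℚ (rowM Φ μ T N i i') := by
  have h : rowP Φ μ i ∈ Alg_ring A n := by
    refine Subring.mul_mem _ (Subring.pow_mem _ ((Alg_mem Φ).mpr hΦ) _) ?_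
    exact ⟨monomial _ 1, by rw [map_monomial, map_one]⟩
  exact lin_alg T hT _ ((Alg_mem _).mp h) _

theorem inv_alg {A : Type} [Field A] [CharZero A] {n : ℕ}
    (T : Matrix (Fin (n + 1)) (Fin (n + 1)) A) (hT : ∀ i j, IsAlgebraic ℚ (T i j)) (i j) :
    IsAlgebraic ℚ (T⁻¹ i j) := by
  set T' : Matrix (Fin (n + 1)) (Fin (n + 1)) (algebraicClosure ℚ A) :=
    Matrix.of fun i j => ⟨T i j, mem_algebraicClosure_iff.mpr (hT i j)⟩ with hT'
  have h1 : T = (algebraMap (algebraicClosure ℚ A) A).mapMatrix T' := by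
    ext i j
    rfl
  have h2 : T.adjugate = (algebraMap (algebraicClosure ℚ A) A).mapMatrix T'.adjugate := by
    rw [h1, RingHom.map_adjugate]
  have h3 : T.det = algebraMap (algebraicClosure ℚ A) A T'.det := by
    rw [h1, RingHom.map_det]
  rw [Matrix.inv_def, Matrix.smul_apply, smul_eq_mul, Ring.inverse_eq_inv', h3, h2]
  refine IsAlgebraic.mul (IsAlgebraic.inv (mem_algebraicClosure_iff.mp (T'.det).2)) ?_
  exact mem_algebraicClosure_iff.mp (T'.adjugate i j).2

private theorem Alg_rowT {A : Type} [Field A] [CharZero A] {n : ℕ} (θ : OnePoint A)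
    (hθ : RefW.AlgP θ) (j : ℕ) (i : Fin (n + 1)) : IsAlgebraic ℚ (rowT θ j i) := by
  induction θ using OnePoint.rec with
  | infty =>
    change IsAlgebraic ℚ (if (i : ℕ) + j = n then (1 : A) else 0)
    split_ifs
    · exact isAlgebraic_one
    · exact isAlgebraic_zero
  | coe z =>
    change IsAlgebraic ℚ (((i : ℕ).choose j : A) * z ^ ((i : ℕ) - j))
    exact IsAlgebraic.mul (isAlgebraic_natCast _) (IsAlgebraic.pow (hθ z rfl) _)

theorem matT_alg {A : Type} [Field A] [CharZero A] {n : ℕ} (τ : Fin n → OnePoint A)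
    (hτ : ∀ l, RefW.AlgP (τ l)) (i j) : IsAlgebraic ℚ (matT τ i j) := by
  have hinf : RefW.AlgP (OnePoint.infty : OnePoint A) := fun z hz =>
    absurd hz.symm (OnePoint.coe_ne_infty z)
  induction i using Fin.lastCases with
  | last =>
    rw [matT, Matrix.of_apply, Fin.snoc_last]
    exact Alg_rowT _ hinf _ _
  | cast m =>
    rw [matT, Matrix.of_apply, Fin.snoc_castSucc]
    exact Alg_rowT _ (hτ m) _ _

end Pool.Agent.RefG
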