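import Pool.Agent.RefG.Defs
import Pool.Agent.RefW.DiscRoots

/-!
RG6. The discriminant as a form in the coefficients, up to sign.
Let `R = MvPolynomial (Fin (n + 1)) ℤ`, `f = ∑ C (X i) * X ^ i ∈ R[X]` (degree `n`), `d = f.discr ∈ R`.
For a field `L`, `Fac F a x`, `a ≠ 0`: `a = F n ≠ 0`, `f` maps under `aeval F` to a polynomial of the
same degree, so `aeval F d` is its discriminant (see `discLogK_map` in RefW/DiscLogK.lean; the Sylvester
matrix of `f` is mapped entrywise), and its square is given by `RefW.discr_roots`.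
Let `Φ = homogeneousComponent (2 n - 2) d`. For `c ≠ 0` in `L` we have `Fac (c F) (c a) x`, so with
`q(c) = ∑_m c ^ m * aeval F (d_m)` (`d_m` the homogeneous components): `q(c) ^ 2 = c ^ (2 (2n-2)) *
q(1) ^ 2` for all `c ≠ 0`. `L` is infinite, so this is an identity of polynomials in `c`; so
`q = ± q(1) * X ^ (2n-2)` (both `q` and `q(1) X ^ (2n-2)` have the same square in the domain `L[X]`), and
the coefficient of `X ^ (2n-2)` is `aeval F Φ = ± q(1)`.
-/

open MvPolynomial NumberField
open scoped Classical

namespace Pool.Agent.RefG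

private theorem disc_map {R A : Type} [CommRing R] [Field A] (φ : R →+* A)
    (f : Polynomial R) (hf : 0 < f.natDegree) (hl : φ f.leadingCoeff ≠ 0) :
    (f.map φ).discr = φ f.discr := by
  have hdeg : (f.map φ).natDegree = f.natDegree :=
    Polynomial.natDegree_map_of_leadingCoeff_ne_zero φ hl
  have hlc : (f.map φ).leadingCoeff = φ f.leadingCoeff := by
    rw [Polynomial.leadingCoeff, hdeg, Polynomial.coeff_map, Polynomial.leadingCoeff]
  have h1 := Polynomial.resultant_deriv (Polynomial.natDegree_pos_iff_degree_pos.mp hf)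
  have h2 := Polynomial.resultant_deriv (f := f.map φ)
    (Polynomial.natDegree_pos_iff_degree_pos.mp (by rw [hdeg]; exact hf))
  rw [Polynomial.derivative_map, Polynomial.resultant_map_map, hdeg, hlc, h1] at h2
  rw [map_mul, map_mul, map_pow, map_neg, map_one] at h2
  have hne : (-1 : A) ^ (f.natDegree * (f.natDegree - 1) / 2) * φ f.leadingCoeff ≠ 0 :=
    mul_ne_zero (pow_ne_zero _ (neg_ne_zero.mpr one_ne_zero)) hl
  exact (mul_left_cancel₀ hne h2).symm

/-- the generic polynomial -/
private noncomputable def gen (n : ℕ) : Polynomial (MvPolynomial (Fin (n + 1)) ℤ) :=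
  ∑ i : Fin (n + 1), Polynomial.C (X i) * Polynomial.X ^ (i : ℕ)

private theorem gen_coeff {R : Type} [CommRing R] (n : ℕ) (F : Fin (n + 1) → R) (m : ℕ) :
    (∑ i : Fin (n + 1), Polynomial.C (F i) * Polynomial.X ^ (i : ℕ)).coeff m =
      if h : m < n + 1 then F ⟨m, h⟩ else 0 := by
  rw [Polynomial.finsetSum_coeff]
  simp only [Polynomial.coeff_C_mul, Polynomial.coeff_X_pow, mul_ite, mul_one, mul_zero]
  split_ifs with h
  · rw [Finset.sum_eq_single (⟨m, h⟩ : Fin (n + 1))]
    · simp
    · intro b _ hb
      rw [if_neg]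
      rintro rfl
      exact hb (Fin.ext rfl)
    · intro h'
      exact absurd (Finset.mem_univ _) h'
  · refine Finset.sum_eq_zero fun i _ => ?_
    rw [if_neg]
    rintro rfl
    exact h i.2

private theorem gen_natDegree {R : Type} [CommRing R] (n : ℕ) (F : Fin (n + 1) → R)
    (h : F (Fin.last n) ≠ 0) :
    (∑ i : Fin (n + 1), Polynomial.C (F i) * Polynomial.X ^ (i : ℕ)).natDegree = n := by
  apply Polynomial.natDegree_eq_of_le_of_coeff_ne_zero
  · rw [Polynomial.natDegree_le_iff_coeff_eq_zero]
    intro m hm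
    rw [gen_coeff, dif_neg (by omega)]
  · rw [gen_coeff, dif_pos (by omega)]
    exact h

private theorem aeval_discr {n : ℕ} (hn : 0 < n) {L : Type} [Field L] [CharZero L]
    (F : Fin (n + 1) → L) (a : L) (x : Fin n → L) (ha : a ≠ 0) (hF : Fac F a x) :
    (aeval F (gen n).discr) ^ 2 =
      (a ^ (2 * n - 2) * ∏ l, ∏ l' ∈ Finset.univ.erase l, (x l - x l')) ^ 2 := by
  have hdeg : (gen n).natDegree = n := gen_natDegree n _ (X_ne_zero _)
  have hlead : (gen n).leadingCoeff = X (Fin.last n) := by
    rw [Polynomial.leadingCoeff, hdeg, gen, gen_coeff, dif_pos (by omega)]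
    rfl
  have hFn : F (Fin.last n) = a := by
    have h1 := congrArg (fun p : Polynomial L => p.coeff n) hF
    rw [gen_coeff, dif_pos (by omega)] at h1
    have h2 : (Polynomial.C a * ∏ l, (Polynomial.X - Polynomial.C (x l))).natDegree = n := by
      rw [Polynomial.natDegree_C_mul ha,
        Polynomial.natDegree_prod_of_monic _ _ (fun i _ => Polynomial.monic_X_sub_C (x i))]
      simp
    have h3 : (Polynomial.C a * ∏ l, (Polynomial.X - Polynomial.C (x l))).leadingCoeff = a := by
      rw [Polynomial.leadingCoeff_mul, Polynomial.leadingCoeff_C,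
        (Polynomial.monic_prod_X_sub_C x Finset.univ).leadingCoeff, mul_one]
    rw [Polynomial.leadingCoeff, h2] at h3
    rw [← h3, ← h1]
    rfl
  set φ : MvPolynomial (Fin (n + 1)) ℤ →+* L := (aeval F).toRingHom with hφ
  have hφX : ∀ i, φ (X i) = F i := fun i => aeval_X F i
  have hmap : (gen n).map φ = Polynomial.C a * ∏ l, (Polynomial.X - Polynomial.C (x l)) := by
    rw [← hF, gen, Polynomial.map_sum]
    refine Finset.sum_congr rfl fun i _ => ?_
    rw [Polynomial.map_mul, Polynomial.map_C, Polynomial.map_pow, Polynomial.map_X, hφX]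
  have h1 := disc_map φ (gen n) (by omega) (by rw [hlead, hφX, hFn]; exact ha)
  have h2 : aeval F (gen n).discr = φ (gen n).discr := rfl
  rw [h2, ← h1, hmap]
  exact RefW.discr_roots a x hn ha

private theorem hom_aeval {n : ℕ} {L : Type} [Field L] (F : Fin (n + 1) → L) {m : ℕ}
    (p : MvPolynomial (Fin (n + 1)) ℤ) (hp : p.IsHomogeneous m) :
    aeval (fun i => Polynomial.C (F i) * Polynomial.X) p =
      Polynomial.C (aeval F p) * Polynomial.X ^ m := by
  rw [aeval_def, aeval_def, eval₂_eq', eval₂_eq', map_sum, Finset.sum_mul]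
  refine Finset.sum_congr rfl fun s hs => ?_
  have h1 : ∑ i, s i = m := by
    have := hp (mem_support_iff.1 hs)
    rw [Finsupp.weight_apply] at this
    simpa [Finsupp.sum_fintype] using this
  simp only [mul_pow, Finset.prod_mul_distrib, Finset.prod_pow_eq_pow_sum, h1, map_mul, map_prod,
    map_pow]
  rw [mul_assoc]
  congr 1

private theorem aeval_smul_poly {n : ℕ} {L : Type} [Field L] (F : Fin (n + 1) → L) (c : L)
    (p : MvPolynomial (Fin (n + 1)) ℤ) :
    (aeval (fun i => Polynomial.C (F i) * Polynomial.X) p).eval c = aeval (fun i => F i * c) p := by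
  have h : ((Polynomial.evalRingHom c).comp
      (aeval (R := ℤ) fun i => Polynomial.C (F i) * Polynomial.X).toRingHom) =
      (aeval (R := ℤ) (fun i => F i * c)).toRingHom := by
    apply MvPolynomial.ringHom_ext
    · intro r
      simp
    · intro i
      simp
  exact DFunLike.congr_fun h p

theorem exists_disc (n : ℕ) (hn : 0 < n) : ∃ Φ : MvPolynomial (Fin (n + 1)) ℤ, IsDisc n Φ := by
  refine ⟨homogeneousComponent (2 * n - 2) (gen n).discr,
    homogeneousComponent_isHomogeneous _ _, ?_⟩
  intro L _ _ F a x ha hF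
  set d := (gen n).discr with hd
  set q : Polynomial L := aeval (fun i => Polynomial.C (F i) * Polynomial.X) d with hq
  -- the coefficients of `q`
  have hcoeff : q.coeff (2 * n - 2) = aeval F (homogeneousComponent (2 * n - 2) d) := by
    have h1 : q = ∑ i ∈ Finset.range (d.totalDegree + 1),
        Polynomial.C (aeval F (homogeneousComponent i d)) * Polynomial.X ^ i := by
      rw [hq]
      conv_lhs => rw [← sum_homogeneousComponent d]
      rw [map_sum]
      exact Finset.sum_congr rfl fun i _ =>
        hom_aeval F _ (homogeneousComponent_isHomogeneous _ _)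
    rw [h1, Polynomial.finsetSum_coeff]
    simp only [Polynomial.coeff_C_mul, Polynomial.coeff_X_pow, mul_ite, mul_one, mul_zero]
    rw [Finset.sum_ite_eq]
    split_ifs with h
    · rfl
    · rw [Finset.mem_range, not_lt] at h
      rw [homogeneousComponent_eq_zero _ _ (by omega), map_zero]
  have hmain : ∀ c : L, c ≠ 0 → (q.eval c) ^ 2 = (c ^ (2 * n - 2)) ^ 2 * (q.eval 1) ^ 2 := by
    have hc : ∀ c : L, c ≠ 0 → (q.eval c) ^ 2 = (c ^ (2 * n - 2)) ^ 2 *
        (a ^ (2 * n - 2) * ∏ l, ∏ l' ∈ Finset.univ.erase l, (x l - x l')) ^ 2 := by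
      intro c hc
      rw [hq, aeval_smul_poly]
      have hF' : Fac (fun i => F i * c) (a * c) x := by
        rw [Fac] at hF ⊢
        have h1 : ∑ i, Polynomial.C (F i * c) * Polynomial.X ^ (i : ℕ) =
            (∑ i, Polynomial.C (F i) * Polynomial.X ^ (i : ℕ)) * Polynomial.C c := by
          rw [Finset.sum_mul]
          refine Finset.sum_congr rfl fun i _ => ?_
          rw [Polynomial.C_mul]
          ring
        rw [h1, hF, Polynomial.C_mul]
        ring
      rw [hd, aeval_discr hn _ _ x (mul_ne_zero ha hc) hF', mul_pow a c]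
      ring
    intro c hc0
    rw [hc c hc0, hc 1 one_ne_zero]
    ring
  have hsq : q ^ 2 = (Polynomial.C (q.eval 1) * Polynomial.X ^ (2 * n - 2)) ^ 2 := by
    apply Polynomial.eq_of_infinite_eval_eq
    refine Set.Infinite.mono (s := {c : L | c ≠ 0}) ?_ ?_
    · intro c hc
      have h1 := hmain c hc
      simp only [Set.mem_ofPred_eq, Polynomial.eval_pow, Polynomial.eval_mul, Polynomial.eval_C,
        Polynomial.eval_X]
      rw [h1]
      ring
    · have h2 : {c : L | c ≠ 0} = ({0} : Set L)ᶜ := by
        ext c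
        simp
      rw [h2]
      have : Infinite L := inferInstance
      exact (Set.finite_singleton (0 : L)).infinite_compl
  have hval : (aeval F (homogeneousComponent (2 * n - 2) d)) ^ 2 = (q.eval 1) ^ 2 := by
    rw [← hcoeff]
    rcases sq_eq_sq_iff_eq_or_eq_neg.1 hsq with h | h
    · rw [h]
      simp
    · have h3 : q.coeff (2 * n - 2) = -(q.eval 1) := by
        have h4 := congrArg (fun p : Polynomial L => p.coeff (2 * n - 2)) h
        simpa using h4
      rw [h3, neg_sq]
  have h1 : (q.eval 1) ^ 2 = (aeval F d) ^ 2 := by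
    rw [hq, aeval_smul_poly]
    simp
  rw [hval, h1, hd, aeval_discr hn F a x ha hF]

end Pool.Agent.RefG
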