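import Pool.Agent.RefG.Defs
import Pool.Agent.RefW.Fibre

/-!
RG15. The sums over all embeddings of `K` as sums over the embeddings of `k`.
Split the sums over `σ` (and `τ`) according to the restriction `ρ` to `k`
(`Finset.sum_fiberwise` / `Fintype.sum_sigma`; compare `pairSum_eq` in RefW/Roots.lean and
`discLogK_conjSum` in RefW/DiscLogK.lean) and use the bijections `e ρ`.
-/

open MvPolynomial NumberField
open scoped Classical

namespace Pool.Agent.RefG

private theorem sums_fibre {k : Type} [Field k] [NumberField k] {n : ℕ} {K : Type} [Field K]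
    [NumberField K] [Algebra k K] {A : Type} [NormedField A] [IsAlgClosed A] [CharZero A]
    (e : ∀ ρ : k →+* A, Fin n ≃ {σ : K →+* A // σ.comp (algebraMap k K) = ρ})
    (f : (K →+* A) → ℝ) : ∑ σ, f σ = ∑ ρ, ∑ l, f (e ρ l).1 := by
  rw [← Fintype.sum_fiberwise (fun σ : K →+* A => σ.comp (algebraMap k K)) f]
  refine Finset.sum_congr rfl fun ρ _ => ?_
  rw [← (e ρ).sum_comp]

private theorem sums_pairs {k : Type} [Field k] [NumberField k] {n : ℕ} {K : Type} [Field K]
    [NumberField K] [Algebra k K] {A : Type} [NormedField A] [IsAlgClosed A] [CharZero A]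
    (e : ∀ ρ : k →+* A, Fin n ≃ {σ : K →+* A // σ.comp (algebraMap k K) = ρ})
    (g : (K →+* A) → (K →+* A) → ℝ) :
    (∑ σ, ∑ τ, if σ.comp (algebraMap k K) = τ.comp (algebraMap k K) ∧ σ ≠ τ then g σ τ else 0) =
      ∑ ρ, ∑ l, ∑ l' ∈ Finset.univ.erase l, g (e ρ l).1 (e ρ l').1 := by
  rw [sums_fibre e]
  refine Finset.sum_congr rfl fun ρ _ => Finset.sum_congr rfl fun l _ => ?_
  rw [sums_fibre e, Finset.sum_eq_single ρ]
  · rw [← Finset.add_sum_erase _ _ (Finset.mem_univ l)]
    rw [if_neg (fun h => h.2 rfl), zero_add]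
    refine Finset.sum_congr rfl fun l' hl' => ?_
    rw [if_pos]
    refine ⟨(e ρ l).2.trans (e ρ l').2.symm, fun h => ?_⟩
    exact Finset.ne_of_mem_erase hl' ((e ρ).injective (Subtype.ext h.symm))
  · intro ρ' _ hρ'
    refine Finset.sum_eq_zero fun l' _ => if_neg fun h => hρ' ?_
    rw [← (e ρ' l').2, ← h.1, (e ρ l).2]
  · intro h
    exact absurd (Finset.mem_univ ρ) h

theorem diagSum_eq {k : Type} [Field k] [NumberField k] {n : ℕ} {K : Type} [Field K]
    [NumberField K] [Algebra k K] (x : K) {A : Type} [NormedField A] [IsAlgClosed A] [CharZero A]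
    (δ : A → OnePoint A → ℝ) (D : (k →+* A) → Finset (OnePoint A))
    (e : ∀ ρ : k →+* A, Fin n ≃ {σ : K →+* A // σ.comp (algebraMap k K) = ρ}) :
    RefW.diagSum δ D K x = ∑ ρ, diagLoc δ (D ρ) (fun l => (e ρ l).1 x) := by
  unfold RefW.diagSum diagLoc
  rw [sums_fibre e]
  refine Finset.sum_congr rfl fun ρ _ => Finset.sum_congr rfl fun l _ => ?_
  rw [(e ρ l).2]

theorem offSum_eq {k : Type} [Field k] [NumberField k] {n : ℕ} {K : Type} [Field K]
    [NumberField K] [Algebra k K] (x : K) {A : Type} [NormedField A] [IsAlgClosed A] [CharZero A]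
    (δ : A → OnePoint A → ℝ) (D : (k →+* A) → Finset (OnePoint A))
    (e : ∀ ρ : k →+* A, Fin n ≃ {σ : K →+* A // σ.comp (algebraMap k K) = ρ}) :
    RefW.offSum δ D K x = ∑ ρ, offLoc δ (D ρ) (fun l => (e ρ l).1 x) := by
  unfold RefW.offSum offLoc
  rw [sums_pairs e (fun σ τ => ∑ θ ∈ D (σ.comp (algebraMap k K)),
    min (-Real.log (δ (σ x) θ)) (-Real.log (δ (τ x) θ)))]
  refine Finset.sum_congr rfl fun ρ _ => Finset.sum_congr rfl fun l _ =>
    Finset.sum_congr rfl fun l' _ => ?_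
  rw [(e ρ l).2]

theorem conjSum_eq {k : Type} [Field k] [NumberField k] {n : ℕ} {K : Type} [Field K]
    [NumberField K] [Algebra k K] (x : K) {A : Type} [NormedField A] [IsAlgClosed A] [CharZero A]
    (δ : A → OnePoint A → ℝ)
    (e : ∀ ρ : k →+* A, Fin n ≃ {σ : K →+* A // σ.comp (algebraMap k K) = ρ}) :
    RefW.conjSum k δ K x = ∑ ρ, conjLoc δ (fun l => (e ρ l).1 x) := by
  unfold RefW.conjSum conjLoc
  exact sums_pairs e (fun σ τ => -Real.log (δ (σ x) ((τ x : A) : OnePoint A)))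

end Pool.Agent.RefG
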