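import Pool.Agent.RefG.Defs
import Pool.Agent.RefG.Disc
import Pool.Agent.RefG.Sums
import Pool.Agent.RefW.Fibre
import Pool.Agent.RefW.NormProd
import Pool.Agent.RefW.Mahler
import Pool.Agent.RefW.Dist
import Pool.Agent.RefW.Coord

/-!
RG16. Upper bound for the closeness of the conjugates, and a comparison of distances.
`chord_ge`: `sqrt (1 + t ^ 2) ≤ sqrt 2 * max 1 t`. `conj_le`: let `Φ` be as in `exists_disc` and
`R = aeval F Φ ∈ 𝓞 k`. By `exists_fibre_equiv` and `IsDisc.eval` (over `A = ℂ` or `ℂ_[p t]`),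
`‖ρ R‖ ^ 2 = (‖ρ (F n)‖ ^ (2n-2) ∏∏ ‖x l - x l'‖) ^ 2`, nonzero as the conjugates are different
(`discLogK_ext` in RefW/DiscLogK.lean), so `‖ρ R‖ ≤ 2 ^ (n (n-1)) M ^ (2n-2) exp (- conjLoc)` with
`M = ‖ρ (F n)‖ ∏ max 1 ‖x l‖ ≤ (n + 1) hs F` (`mahler_le`, `coord_le_hs`) resp. `≤ 1` (`gauss_eq`,
`norm_le_one_of_ringOfIntegers`). Take logarithms in `one_le_prod_embeddings` for `R`; the number of
complex embeddings is `[k : ℚ]` (`Embeddings.card`), `conjSum_eq`; `hs F ≥ 1` (`one_le_hs`).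
-/

open MvPolynomial NumberField
open scoped Classical

namespace Pool.Agent.RefG

private theorem ConjLe_sqrt (t : ℝ) (ht : 0 ≤ t) :
    Real.sqrt (1 + t ^ 2) ≤ Real.sqrt 2 * max 1 t := by
  have h1 : (1 : ℝ) ≤ max 1 t := le_max_left _ _
  have h2 : t ≤ max 1 t := le_max_right _ _
  rw [Real.sqrt_le_left (by positivity), mul_pow, Real.sq_sqrt (by norm_num)]
  nlinarith [mul_self_nonneg (max 1 t), mul_le_mul h1 h1 (by norm_num) (by linarith),
    mul_le_mul h2 h2 ht (by linarith)]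

theorem chord_ge (x y : ℂ) :
    ‖x - y‖ ≤ 2 * max 1 ‖x‖ * max 1 ‖y‖ * SST.chord x (y : OnePoint ℂ) := by
  change ‖x - y‖ ≤ 2 * max 1 ‖x‖ * max 1 ‖y‖ *
    (‖x - y‖ / (Real.sqrt (1 + ‖x‖ ^ 2) * Real.sqrt (1 + ‖y‖ ^ 2)))
  have hx : 0 < Real.sqrt (1 + ‖x‖ ^ 2) := Real.sqrt_pos.mpr (by positivity)
  have hy : 0 < Real.sqrt (1 + ‖y‖ ^ 2) := Real.sqrt_pos.mpr (by positivity)
  have h1 := ConjLe_sqrt ‖x‖ (norm_nonneg x)
  have h2 := ConjLe_sqrt ‖y‖ (norm_nonneg y)
  have h3 : Real.sqrt (1 + ‖x‖ ^ 2) * Real.sqrt (1 + ‖y‖ ^ 2) ≤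
      2 * max 1 ‖x‖ * max 1 ‖y‖ := by
    refine (mul_le_mul h1 h2 hy.le (by positivity)).trans (le_of_eq ?_)
    have h4 : Real.sqrt 2 * Real.sqrt 2 = 2 := Real.mul_self_sqrt (by norm_num)
    linear_combination (max 1 ‖x‖ * max 1 ‖y‖) * h4
  rw [mul_div_assoc', le_div_iff₀ (by positivity), mul_comm ‖x - y‖]
  exact mul_le_mul_of_nonneg_right h3 (norm_nonneg _)

theorem chordM_ge {A : Type} [NormedField A] (x y : A) :
    ‖x - y‖ ≤ 2 * max 1 ‖x‖ * max 1 ‖y‖ * SST.chordM x (y : OnePoint A) := by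
  change ‖x - y‖ ≤ 2 * max 1 ‖x‖ * max 1 ‖y‖ * (‖x - y‖ / (max 1 ‖x‖ * max 1 ‖y‖))
  have hx : 0 < max 1 ‖x‖ := lt_of_lt_of_le one_pos (le_max_left _ _)
  have hy : 0 < max 1 ‖y‖ := lt_of_lt_of_le one_pos (le_max_left _ _)
  rw [mul_div_assoc', le_div_iff₀ (by positivity), mul_comm ‖x - y‖]
  refine mul_le_mul_of_nonneg_right ?_ (norm_nonneg _)
  nlinarith [mul_pos hx hy]

private theorem ConjLe_prod {n : ℕ} (S : Fin n → ℝ) :
    ∏ i, ∏ j ∈ Finset.univ.erase i, (S i * S j) = (∏ i, S i) ^ (2 * n - 2) := by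
  have h1 : ∏ i, ∏ j ∈ Finset.univ.erase i, S i = (∏ i, S i) ^ (n - 1) := by
    rw [← Finset.prod_pow]
    refine Finset.prod_congr rfl fun i _ => ?_
    rw [Finset.prod_const, Finset.card_erase_of_mem (Finset.mem_univ i), Finset.card_univ,
      Fintype.card_fin]
  have h5 : ∀ (g : Fin n → Fin n → ℝ) (i : Fin n),
      ∏ j ∈ Finset.univ.erase i, g i j = ∏ j, if i ≠ j then g i j else 1 := by
    intro g i
    rw [← Finset.prod_filter]
    refine Finset.prod_congr ?_ fun _ _ => rfl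
    ext j
    simp [eq_comm]
  have h2 : ∏ i, ∏ j ∈ Finset.univ.erase i, S j = (∏ i, S i) ^ (n - 1) := by
    rw [← h1]
    rw [Finset.prod_congr rfl fun i _ => h5 (fun _ j => S j) i,
      Finset.prod_congr rfl fun i _ => h5 (fun i _ => S i) i, Finset.prod_comm]
    refine Finset.prod_congr rfl fun i _ => Finset.prod_congr rfl fun j _ => ?_
    simp only [ne_eq, eq_comm]
  simp_rw [Finset.prod_mul_distrib]
  rw [h1, h2, ← pow_add]
  congr 1
  omega

private theorem ConjLe_ext {k : Type} [Field k] {A : Type} [Field A] {K : Type} [Field K]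
    [Algebra k K] {x : K} (hx : IntermediateField.adjoin k {x} = ⊤) {σ τ : K →+* A}
    (hc : σ.comp (algebraMap k K) = τ.comp (algebraMap k K)) (h : σ x = τ x) : σ = τ := by
  have h1 : ∀ y ∈ IntermediateField.adjoin k {x}, σ y = τ y := by
    intro y hy
    induction hy using IntermediateField.adjoin_induction with
    | mem z hz =>
      rw [Set.mem_singleton_iff] at hz
      rw [hz, h]
    | algebraMap q => exact RingHom.congr_fun hc q
    | add a b _ _ ha hb => rw [map_add, map_add, ha, hb]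
    | inv a _ ha => rw [map_inv₀, map_inv₀, ha]
    | mul a b _ _ ha hb => rw [map_mul, map_mul, ha, hb]
  ext y
  exact h1 y (by rw [hx]; trivial)

private theorem ConjLe_last {k : Type} [Field k] [NumberField k] {n : ℕ}
    {F : Fin (n + 1) → 𝓞 k} (hF : F ≠ 0) {A : Type} [Field A] (ρ : k →+* A) (y : Fin n → A)
    (he : Fac (fun i => ρ (F i : k)) (ρ (F (Fin.last n) : k)) y) :
    ρ (F (Fin.last n) : k) ≠ 0 := by
  intro h00
  unfold Fac at he
  rw [h00, Polynomial.C_0, zero_mul] at he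
  apply hF
  funext i
  have h1 : (∑ j : Fin (n + 1), Polynomial.C (ρ (F j : k)) *
      Polynomial.X ^ (j : ℕ)).coeff (i : ℕ) = ρ (F i : k) := by
    rw [Polynomial.finsetSum_coeff, Finset.sum_eq_single i]
    · rw [Polynomial.coeff_C_mul_X_pow, if_pos rfl]
    · intro j _ hj
      rw [Polynomial.coeff_C_mul_X_pow, if_neg]
      intro h2
      exact hj (Fin.ext h2.symm)
    · intro h2
      exact absurd (Finset.mem_univ i) h2
  rw [he, Polynomial.coeff_zero] at h1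
  have h2 : (F i : k) = 0 := (map_eq_zero ρ).mp h1.symm
  have h3 : F i = 0 := by
    apply RingOfIntegers.coe_injective
    simpa using h2
  simpa using h3

private theorem ConjLe_loc {A : Type} [NormedField A] [CharZero A] {n : ℕ} (hn : 0 < n)
    {Φ : MvPolynomial (Fin (n + 1)) ℤ} (hΦ : IsDisc n Φ) (δ : A → OnePoint A → ℝ)
    (hδ : ∀ x y : A, ‖x - y‖ ≤ 2 * max 1 ‖x‖ * max 1 ‖y‖ * δ x (y : OnePoint A))
    (F : Fin (n + 1) → A) (a : A) (x : Fin n → A) (ha : a ≠ 0) (hF : Fac F a x)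
    (hx : Function.Injective x) (B : ℝ) (hB : ‖a‖ * ∏ l, max 1 ‖x l‖ ≤ B) :
    aeval F Φ ≠ 0 ∧
      conjLoc δ x ≤ (2 * n - 2) * Real.log B + n * (n - 1) * Real.log 2 -
        Real.log ‖aeval F Φ‖ := by
  have hpos : ∀ i, ∀ j ∈ Finset.univ.erase i, 0 < ‖x i - x j‖ := by
    intro i j hj
    rw [norm_pos_iff, sub_ne_zero]
    exact fun h => (Finset.ne_of_mem_erase hj) (hx h).symm
  have hD : ‖aeval F Φ‖ =
      ‖a‖ ^ (2 * n - 2) * ∏ i, ∏ j ∈ Finset.univ.erase i, ‖x i - x j‖ := by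
    have h1 := congrArg norm (hΦ.eval A F a x ha hF)
    rw [norm_pow, norm_pow] at h1
    have h2 := (pow_left_inj₀ (norm_nonneg _) (norm_nonneg _) two_ne_zero).mp h1
    rw [h2, norm_mul, norm_pow, norm_prod]
    congr 1
    exact Finset.prod_congr rfl fun i _ => norm_prod _ _
  have hDpos : 0 < ‖aeval F Φ‖ := by
    rw [hD]
    refine mul_pos (pow_pos (norm_pos_iff.mpr ha) _) ?_
    exact Finset.prod_pos fun i _ => Finset.prod_pos fun j hj => hpos i j hj
  refine ⟨norm_pos_iff.mp hDpos, ?_⟩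
  have hS : ∀ z : A, 0 < max 1 ‖z‖ := fun z => lt_of_lt_of_le one_pos (le_max_left _ _)
  have hdpos : ∀ i, ∀ j ∈ Finset.univ.erase i, 0 < δ (x i) ((x j : A) : OnePoint A) := by
    intro i j hj
    have h1 := lt_of_lt_of_le (hpos i j hj) (hδ (x i) (x j))
    have h2 : 0 < 2 * max 1 ‖x i‖ * max 1 ‖x j‖ := by
      have := hS (x i)
      have := hS (x j)
      positivity
    exact (pos_iff_pos_of_mul_pos h1).mp h2
  have hM : 0 < ‖a‖ * ∏ l, max 1 ‖x l‖ :=
    mul_pos (norm_pos_iff.mpr ha) (Finset.prod_pos fun l _ => hS _)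
  have hcast : ((2 * n - 2 : ℕ) : ℝ) = 2 * n - 2 := by
    rw [Nat.cast_sub (by omega)]
    push_cast
    ring
  have hn1 : (0 : ℝ) ≤ 2 * n - 2 := by
    have : (1 : ℝ) ≤ n := by exact_mod_cast hn
    linarith
  -- logarithms
  have hlogD : Real.log ‖aeval F Φ‖ = (2 * n - 2) * Real.log ‖a‖ +
      ∑ i, ∑ j ∈ Finset.univ.erase i, Real.log ‖x i - x j‖ := by
    rw [hD, Real.log_mul (pow_pos (norm_pos_iff.mpr ha) _).ne'
      (Finset.prod_pos fun i _ => Finset.prod_pos fun j hj => hpos i j hj).ne', Real.log_pow,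
      hcast, Real.log_prod fun i _ => (Finset.prod_pos fun j hj => hpos i j hj).ne']
    congr 1
    exact Finset.sum_congr rfl fun i _ => Real.log_prod fun j hj => (hpos i j hj).ne'
  have hSS : ∑ i, ∑ j ∈ Finset.univ.erase i, (Real.log (max 1 ‖x i‖) + Real.log (max 1 ‖x j‖)) =
      (2 * n - 2) * ∑ i, Real.log (max 1 ‖x i‖) := by
    have h1 := congrArg Real.log (ConjLe_prod fun i => max 1 ‖x i‖)
    rw [Real.log_pow, hcast, Real.log_prod fun i _ => (hS _).ne',
      Real.log_prod fun i _ => (Finset.prod_pos fun j _ => mul_pos (hS _) (hS _)).ne'] at h1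
    rw [← h1]
    refine Finset.sum_congr rfl fun i _ => ?_
    rw [Real.log_prod fun j _ => (mul_pos (hS _) (hS _)).ne']
    exact Finset.sum_congr rfl fun j _ => (Real.log_mul (hS _).ne' (hS _).ne').symm
  have h22 : ∑ i : Fin n, ∑ j ∈ Finset.univ.erase i, Real.log 2 =
      n * (n - 1) * Real.log 2 := by
    simp_rw [Finset.sum_const, Finset.card_erase_of_mem (Finset.mem_univ _), Finset.card_univ,
      Fintype.card_fin, nsmul_eq_mul]
    rw [Finset.sum_const, Finset.card_univ, Fintype.card_fin, nsmul_eq_mul, Nat.cast_sub hn]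
    push_cast
    ring
  have hle : ∑ i, ∑ j ∈ Finset.univ.erase i, Real.log ‖x i - x j‖ ≤
      ∑ i, ∑ j ∈ Finset.univ.erase i, (Real.log 2 +
        (Real.log (max 1 ‖x i‖) + Real.log (max 1 ‖x j‖)) +
        Real.log (δ (x i) ((x j : A) : OnePoint A))) := by
    refine Finset.sum_le_sum fun i _ => Finset.sum_le_sum fun j hj => ?_
    refine (Real.log_le_log (hpos i j hj) (hδ (x i) (x j))).trans (le_of_eq ?_)
    have h1 := hS (x i)
    have h2 := hS (x j)
    rw [Real.log_mul (by positivity) (hdpos i j hj).ne', Real.log_mul (by positivity) h2.ne',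
      Real.log_mul two_ne_zero h1.ne']
    ring
  simp_rw [Finset.sum_add_distrib (f := fun _ => _ + _)] at hle
  simp_rw [Finset.sum_add_distrib (f := fun _ => Real.log 2)] at hle
  rw [Finset.sum_add_distrib, Finset.sum_add_distrib, hSS, h22] at hle
  have hlogM : Real.log (‖a‖ * ∏ l, max 1 ‖x l‖) = Real.log ‖a‖ +
      ∑ i, Real.log (max 1 ‖x i‖) := by
    rw [Real.log_mul (norm_pos_iff.mpr ha).ne' (Finset.prod_pos fun l _ => hS _).ne',
      Real.log_prod fun i _ => (hS _).ne']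
  have hMB := mul_le_mul_of_nonneg_left (Real.log_le_log hM hB) hn1
  rw [hlogM] at hMB
  have hconj : conjLoc δ x = -∑ i, ∑ j ∈ Finset.univ.erase i,
      Real.log (δ (x i) ((x j : A) : OnePoint A)) := by
    unfold conjLoc
    rw [← Finset.sum_neg_distrib]
    refine Finset.sum_congr rfl fun i _ => ?_
    rw [Finset.sum_neg_distrib]
  rw [hconj, hlogD]
  linarith

private theorem ConjLe_map {k : Type} [Field k] [NumberField k] {A : Type} [Field A] {n : ℕ}
    (Φ : MvPolynomial (Fin (n + 1)) ℤ) (F : Fin (n + 1) → 𝓞 k) (ρ : k →+* A) :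
    ρ ((aeval F Φ : 𝓞 k) : k) = aeval (fun i => ρ (F i : k)) Φ := by
  have h1 : (ρ.comp (algebraMap (𝓞 k) k)) (aeval F Φ) =
      aeval (fun i => (ρ.comp (algebraMap (𝓞 k) k)) (F i)) Φ := by
    rw [MvPolynomial.map_aeval]
    rw [RingHom.ext_int ((ρ.comp (algebraMap (𝓞 k) k)).comp (algebraMap ℤ (𝓞 k)))
      (algebraMap ℤ A)]
    rfl
  exact h1

theorem conj_le (k : Type) [Field k] [NumberField k] {T : Type} [Fintype T] (p : T → ℕ)
    [∀ t, Fact (p t).Prime] (hp : Function.Injective p) (n : ℕ) (hn : 0 < n) :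
    ∃ C : ℝ, ∀ (K : Type) [Field K] [NumberField K] [Algebra k K] (x : K)
      (F : Fin (n + 1) → 𝓞 k), F ≠ 0 → RefW.RootOf F K x →
      RefW.conjSum k SST.chord K x + ∑ t, RefW.conjSum k (SST.chordM (A := ℂ_[p t])) K x ≤
        (2 * n - 2) * Module.finrank ℚ k * Real.log (RefW.hs F) + C := by
  obtain ⟨Φ, hΦ⟩ := exists_disc n hn
  refine ⟨Fintype.card (k →+* ℂ) * ((2 * n - 2) * Real.log (n + 1) + n * (n - 1) * Real.log 2) +
    ∑ t, Fintype.card (k →+* ℂ_[p t]) * (n * (n - 1) * Real.log 2), ?_⟩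
  intro K _ _ _ x F hF hx
  have hh := RefW.one_le_hs F hF
  have hC : ∀ ρ : k →+* ℂ, ∃ e : Fin n ≃ {σ : K →+* ℂ // σ.comp (algebraMap k K) = ρ},
      ρ ((aeval F Φ : 𝓞 k) : k) ≠ 0 ∧
      conjLoc SST.chord (fun l => (e l).1 x) ≤ (2 * n - 2) * Real.log ((n + 1) * RefW.hs F) +
        n * (n - 1) * Real.log 2 - Real.log ‖ρ ((aeval F Φ : 𝓞 k) : k)‖ := by
    intro ρ
    obtain ⟨e, he⟩ := RefW.exists_fibre_equiv hF hx ρ
    have hinj : Function.Injective fun l => (e l).1 x := by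
      intro i j hij
      apply e.injective
      apply Subtype.ext
      exact ConjLe_ext hx.gen ((e i).2.trans (e j).2.symm) hij
    rw [ConjLe_map]
    refine ⟨e, ConjLe_loc hn hΦ SST.chord chord_ge (fun i => ρ (F i : k)) _ _
      (ConjLe_last hF ρ _ he) he hinj _ ?_⟩
    refine (RefW.mahler_le (fun i : Fin (n + 1) => ρ (F i : k)) _ _ he).1.trans ?_
    refine mul_le_mul_of_nonneg_left ?_ (by positivity)
    rw [pi_norm_le_iff_of_nonneg (by linarith)]
    exact fun i => RefW.coord_le_hs F ρ i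
  have hP : ∀ (t : T) (ρ : k →+* ℂ_[p t]),
      ∃ e : Fin n ≃ {σ : K →+* ℂ_[p t] // σ.comp (algebraMap k K) = ρ},
      ρ ((aeval F Φ : 𝓞 k) : k) ≠ 0 ∧
      conjLoc SST.chordM (fun l => (e l).1 x) ≤ (2 * n - 2) * Real.log 1 +
        n * (n - 1) * Real.log 2 - Real.log ‖ρ ((aeval F Φ : 𝓞 k) : k)‖ := by
    intro t ρ
    obtain ⟨e, he⟩ := RefW.exists_fibre_equiv hF hx ρ
    have hinj : Function.Injective fun l => (e l).1 x := by
      intro i j hij
      apply e.injective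
      apply Subtype.ext
      exact ConjLe_ext hx.gen ((e i).2.trans (e j).2.symm) hij
    rw [ConjLe_map]
    refine ⟨e, ConjLe_loc hn hΦ SST.chordM chordM_ge (fun i => ρ (F i : k)) _ _
      (ConjLe_last hF ρ _ he) he hinj _ ?_⟩
    rw [RefW.gauss_eq (fun i : Fin (n + 1) => ρ (F i : k)) _ _ he,
      pi_norm_le_iff_of_nonneg zero_le_one]
    exact fun i => RefW.norm_le_one_of_ringOfIntegers (p t) ρ (F i)
  choose e he0 he using hC
  choose e' he0' he' using hP
  have hR : (aeval F Φ : 𝓞 k) ≠ 0 := by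
    obtain ⟨ρ⟩ : Nonempty (k →+* ℂ) := inferInstance
    intro h0
    apply he0 ρ
    rw [h0]
    simp
  have hprod := RefW.one_le_prod_embeddings k p hp (aeval F Φ) hR
  have hposC : ∀ ρ : k →+* ℂ, 0 < ‖ρ ((aeval F Φ : 𝓞 k) : k)‖ := fun ρ =>
    norm_pos_iff.mpr (he0 ρ)
  have hposP : ∀ (t : T) (ρ : k →+* ℂ_[p t]), 0 < ‖ρ ((aeval F Φ : 𝓞 k) : k)‖ :=
    fun t ρ => norm_pos_iff.mpr (he0' t ρ)
  have hlog := Real.log_nonneg hprod
  rw [Real.log_mul (Finset.prod_pos fun ρ _ => hposC ρ).ne'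
    (Finset.prod_pos fun t _ => Finset.prod_pos fun ρ _ => hposP t ρ).ne',
    Real.log_prod fun ρ _ => (hposC ρ).ne',
    Real.log_prod fun t _ => (Finset.prod_pos fun ρ _ => hposP t ρ).ne',
    Finset.sum_congr rfl fun t _ => Real.log_prod fun ρ _ => (hposP t ρ).ne'] at hlog
  rw [conjSum_eq x SST.chord e]
  simp_rw [fun t => conjSum_eq x (SST.chordM (A := ℂ_[p t])) (e' t)]
  have h1 := Finset.sum_le_sum fun ρ (_ : ρ ∈ (Finset.univ : Finset (k →+* ℂ))) => he ρ
  have h2 := Finset.sum_le_sum fun t (_ : t ∈ (Finset.univ : Finset T)) =>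
    Finset.sum_le_sum fun ρ (_ : ρ ∈ (Finset.univ : Finset (k →+* ℂ_[p t]))) => he' t ρ
  rw [Finset.sum_sub_distrib, Finset.sum_const, Finset.card_univ, nsmul_eq_mul] at h1
  simp_rw [Finset.sum_sub_distrib, Finset.sum_const, Finset.card_univ, nsmul_eq_mul] at h2
  rw [Real.log_one, mul_zero] at h2
  simp_rw [zero_add] at h2
  have h3 : Real.log ((n + 1) * RefW.hs F) = Real.log (n + 1) + Real.log (RefW.hs F) :=
    Real.log_mul (by positivity) (by positivity)
  rw [h3] at h1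
  have h4 : (Fintype.card (k →+* ℂ) : ℝ) = Module.finrank ℚ k := by
    rw [NumberField.Embeddings.card]
  rw [h4] at h1 ⊢
  linarith

end Pool.Agent.RefG
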