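import Pool.Agent.RefG.Defs

/-!
RG7. Taylor coefficients of a product of linear forms.
`θ = z`: substitute `X + z` for `X` (`Polynomial.comp`, `taylor`): the coefficient of `X ^ j` on the left
is `∑ F i (i choose j) z ^ (i - j)`, on the right the product is `∏ (C (α l) X + C (α l z + β l))`; use
`Finset.prod_add` and compare coefficients (`|J| = j`). `θ = ∞`: coefficient of `X ^ (n - j)` (for
`j ≤ n`) of the product, `J` = complement of the set of the factors where `α l X` is chosen. For `j > n`
both sides are `0`.
-/

open MvPolynomial NumberField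
open scoped Classical

namespace Pool.Agent.RefG

private theorem Expand_coeff {A : Type} [Field A] {n : ℕ} (a b : Fin n → A) (j : ℕ) :
    (∏ l, (Polynomial.C (a l) * Polynomial.X + Polynomial.C (b l))).coeff j =
      ∑ J ∈ (Finset.univ : Finset (Fin n)).powersetCard j, (∏ l ∈ J, a l) * ∏ l ∈ Jᶜ, b l := by
  rw [Finset.prod_add, Polynomial.finsetSum_coeff, Finset.powersetCard_eq_filter,
    Finset.sum_filter]
  refine Finset.sum_congr rfl fun J _ => ?_
  rw [Finset.prod_mul_distrib, Finset.prod_const, ← Finset.compl_eq_univ_sdiff,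
    ← map_prod, ← map_prod, mul_right_comm, ← Polynomial.C_mul, Polynomial.coeff_C_mul,
    Polynomial.coeff_X_pow]
  by_cases hJ : J.card = j
  · rw [if_pos hJ, if_pos hJ.symm, mul_one]
  · rw [if_neg hJ, if_neg (fun h => hJ h.symm), mul_zero]

private theorem Expand_coeff_sum {A : Type} [Field A] {n : ℕ} (F : Fin (n + 1) → A) (m : Fin (n + 1)) :
    (∑ i, Polynomial.C (F i) * Polynomial.X ^ (i : ℕ)).coeff (m : ℕ) = F m := by
  rw [Polynomial.finsetSum_coeff, Finset.sum_eq_single m]
  · rw [Polynomial.coeff_C_mul, Polynomial.coeff_X_pow, if_pos rfl, mul_one]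
  · intro i _ hi
    rw [Polynomial.coeff_C_mul, Polynomial.coeff_X_pow,
      if_neg (fun h => hi (Fin.ext h.symm)), mul_zero]
  · intro h
    exact absurd (Finset.mem_univ _) h

theorem rowT_prod {A : Type} [Field A] {n : ℕ} (F : Fin (n + 1) → A) (α β : Fin n → A)
    (h : ∑ i, Polynomial.C (F i) * Polynomial.X ^ (i : ℕ) =
      ∏ l, (Polynomial.C (α l) * Polynomial.X + Polynomial.C (β l)))
    (θ : OnePoint A) (j : ℕ) :
    ∑ i, rowT θ j i * F i = ∑ J ∈ Finset.univ.powersetCard j,
      (∏ l ∈ J, dv θ (α l) (β l)) * ∏ l ∈ Jᶜ, vl θ (α l) (β l) := by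
  cases θ with
  | infty =>
    have e1 : ∀ i : Fin (n + 1), rowT (OnePoint.infty : OnePoint A) j i
        = if (i : ℕ) + j = n then 1 else 0 := fun i => rfl
    have e2 : ∀ a b : A, dv (OnePoint.infty : OnePoint A) a b = b := fun _ _ => rfl
    have e3 : ∀ a b : A, vl (OnePoint.infty : OnePoint A) a b = a := fun _ _ => rfl
    simp only [e1, e2, e3]
    by_cases hj : j ≤ n
    · have hm : n - j < n + 1 := by omega
      have h1 := congrArg (fun p => Polynomial.coeff p (n - j)) h
      have h2 := Expand_coeff_sum F ⟨n - j, hm⟩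
      simp only at h2
      rw [h2, Expand_coeff] at h1
      rw [Finset.sum_eq_single (⟨n - j, hm⟩ : Fin (n + 1))]
      · rw [if_pos (by simp only; omega), one_mul, h1]
        refine Finset.sum_nbij' (fun J => Jᶜ) (fun J => Jᶜ) ?_ ?_ ?_ ?_ ?_
        · intro J hJ
          rw [Finset.mem_powersetCard] at hJ ⊢
          refine ⟨Finset.subset_univ _, ?_⟩
          rw [Finset.card_compl, Fintype.card_fin, hJ.2]
          omega
        · intro J hJ
          rw [Finset.mem_powersetCard] at hJ ⊢
          refine ⟨Finset.subset_univ _, ?_⟩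
          rw [Finset.card_compl, Fintype.card_fin, hJ.2]
        · intro J _
          exact compl_compl J
        · intro J _
          exact compl_compl J
        · intro J _
          rw [compl_compl, mul_comm]
      · intro i _ hi
        rw [if_neg, zero_mul]
        intro h3
        apply hi
        ext
        simp only
        omega
      · intro h3
        exact absurd (Finset.mem_univ _) h3
    · rw [Finset.powersetCard_eq_empty.mpr (by rw [Finset.card_univ, Fintype.card_fin]; omega),
        Finset.sum_empty]
      refine Finset.sum_eq_zero fun i _ => ?_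
      rw [if_neg (by omega), zero_mul]
  | coe z =>
    have e1 : ∀ i : Fin (n + 1), rowT ((z : A) : OnePoint A) j i
        = ((i : ℕ).choose j : A) * z ^ ((i : ℕ) - j) := fun i => rfl
    have e2 : ∀ a b : A, dv ((z : A) : OnePoint A) a b = a := fun _ _ => rfl
    have e3 : ∀ a b : A, vl ((z : A) : OnePoint A) a b = a * z + b := fun _ _ => rfl
    simp only [e1, e2, e3]
    have h1 := congrArg (fun p => Polynomial.coeff (p.comp (Polynomial.X + Polynomial.C z)) j) h
    simp only [Polynomial.prod_comp, Polynomial.add_comp, Polynomial.mul_comp, Polynomial.C_comp,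
      Polynomial.X_comp] at h1
    have h2 : ∀ l : Fin n, Polynomial.C (α l) * (Polynomial.X + Polynomial.C z) +
        Polynomial.C (β l) = Polynomial.C (α l) * Polynomial.X + Polynomial.C (α l * z + β l) := by
      intro l
      rw [Polynomial.C_add, Polynomial.C_mul]
      ring
    simp only [h2] at h1
    rw [Expand_coeff] at h1
    rw [← h1, Polynomial.sum_comp, Polynomial.finsetSum_coeff]
    refine Finset.sum_congr rfl fun i _ => ?_
    rw [Polynomial.mul_comp, Polynomial.C_comp, Polynomial.X_pow_comp, Polynomial.coeff_C_mul,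
      Polynomial.coeff_X_add_C_pow]
    ring

end Pool.Agent.RefG
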