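import Pool.Agent.RefG.Defs

/-!
RG8. Elementary inequalities for antitone sequences.
-/

open MvPolynomial NumberField
open scoped Classical

namespace Pool.Agent.RefG

theorem sum_sdiff_ge {n : ℕ} (lam : Fin n → ℝ) (h0 : ∀ l, 0 ≤ lam l) (hanti : Antitone lam)
    (S J : Finset (Fin n)) (m : Fin n) (hJ : J.card ≤ (S.filter fun l => l < m).card) :
    ∑ l ∈ S.filter (fun l => m ≤ l), lam l ≤ ∑ l ∈ S \ J, lam l := by
  -- U = elements of S with index ≥ m, V = those with index < m
  set U := S.filter (fun l => m ≤ l) with hU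
  set V := S.filter (fun l => l < m) with hV
  have hsplit : S \ J = (U \ J) ∪ (V \ J) := by
    ext l
    simp only [hU, hV, Finset.mem_sdiff, Finset.mem_union, Finset.mem_filter]
    rcases lt_or_ge l m with h | h
    · simp [h, not_le.mpr h]
    · simp [h, not_lt.mpr h]
  have hdisj : Disjoint (U \ J) (V \ J) := by
    rw [Finset.disjoint_left]
    intro l hl hl'
    simp only [hU, hV, Finset.mem_sdiff, Finset.mem_filter] at hl hl'
    exact absurd hl'.1.2 (not_lt.mpr hl.1.2)
  rw [hsplit, Finset.sum_union hdisj]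
  have hUs : ∑ l ∈ U, lam l = ∑ l ∈ U \ J, lam l + ∑ l ∈ U ∩ J, lam l := by
    rw [add_comm]
    exact (Finset.sum_inter_add_sum_sdiff U J lam).symm
  rw [hUs]
  have hcard : (U ∩ J).card ≤ (V \ J).card := by
    have h1 : (V ∩ J).card + (V \ J).card = V.card := Finset.card_inter_add_card_sdiff V J
    have h2 : (U ∩ J).card + (V ∩ J).card ≤ J.card := by
      rw [← Finset.card_union_of_disjoint]
      · apply Finset.card_le_card
        intro l hl
        simp only [Finset.mem_union, Finset.mem_inter] at hl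
        tauto
      · rw [Finset.disjoint_left]
        intro l hl hl'
        simp only [hU, hV, Finset.mem_inter, Finset.mem_filter] at hl hl'
        exact absurd hl'.1.2 (not_lt.mpr hl.1.2)
    omega
  have h3 : ∑ l ∈ U ∩ J, lam l ≤ (U ∩ J).card • lam m := by
    apply Finset.sum_le_card_nsmul
    intro l hl
    simp only [hU, Finset.mem_inter, Finset.mem_filter] at hl
    exact hanti hl.1.2
  have h4 : (V \ J).card • lam m ≤ ∑ l ∈ V \ J, lam l := by
    apply Finset.card_nsmul_le_sum
    intro l hl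
    simp only [hV, Finset.mem_sdiff, Finset.mem_filter] at hl
    exact hanti hl.1.2.le
  have h5 : (U ∩ J).card • lam m ≤ (V \ J).card • lam m :=
    nsmul_le_nsmul_left (h0 m) hcard
  linarith

theorem sum_wS {A : Type} {n : ℕ} (τ : Fin n → OnePoint A) (lam : Fin n → ℝ)
    (hanti : Antitone lam) : ∑ m, wS τ lam m = ∑ l, lam l + offT τ lam / 2 := by
  have h1 : ∑ m, wS τ lam m = ∑ m : Fin n, ∑ l : Fin n, if m ≤ l ∧ τ l = τ m then lam l else 0 := by
    rw [Fin.sum_univ_castSucc]
    simp only [wS, Fin.snoc_castSucc, Fin.snoc_last, add_zero]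
    apply Finset.sum_congr rfl
    intro m _
    rw [Finset.sum_filter]
  have h2 : offT τ lam = ∑ l : Fin n, ∑ l' : Fin n,
      if l ≠ l' ∧ τ l = τ l' then min (lam l) (lam l') else 0 := by
    unfold offT
    apply Finset.sum_congr rfl
    intro l _
    rw [← Finset.sum_erase (a := l) (s := Finset.univ) (f := fun l' =>
      if l ≠ l' ∧ τ l = τ l' then min (lam l) (lam l') else 0)]
    · apply Finset.sum_congr rfl
      intro l' hl'
      have hne : l ≠ l' := (Finset.ne_of_mem_erase hl').symm
      simp [hne]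
    · simp
  have h3 : offT τ lam = 2 * ∑ m : Fin n, ∑ l : Fin n,
      if m < l ∧ τ l = τ m then lam l else 0 := by
    rw [h2, two_mul]
    nth_rewrite 3 [Finset.sum_comm]
    rw [← Finset.sum_add_distrib]
    apply Finset.sum_congr rfl
    intro a _
    rw [← Finset.sum_add_distrib]
    apply Finset.sum_congr rfl
    intro b _
    rcases lt_trichotomy a b with h | h | h
    · by_cases ht : τ a = τ b
      · simp [h.ne, h, h.not_gt, ht, min_eq_right (hanti h.le)]
      · have ht' : ¬ τ b = τ a := fun h => ht h.symm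
        simp [ht, ht']
    · subst h
      simp
    · by_cases ht : τ a = τ b
      · simp [h.ne', h, h.not_gt, ht, min_eq_left (hanti h.le)]
      · have ht' : ¬ τ b = τ a := fun h => ht h.symm
        simp [ht, ht']
  rw [h1, h3]
  have h4 : (2 * ∑ m : Fin n, ∑ l : Fin n, if m < l ∧ τ l = τ m then lam l else 0) / 2 =
      ∑ m : Fin n, ∑ l : Fin n, if m < l ∧ τ l = τ m then lam l else 0 := by ring
  rw [h4, ← Finset.sum_add_distrib]
  apply Finset.sum_congr rfl
  intro m _
  rw [← Finset.sum_erase_add Finset.univ _ (Finset.mem_univ m),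
    ← Finset.sum_erase_add (f := fun l => if m < l ∧ τ l = τ m then lam l else 0) Finset.univ
      (Finset.mem_univ m)]
  have h5 : ∀ l ∈ Finset.univ.erase m, (if m ≤ l ∧ τ l = τ m then lam l else 0) =
      if m < l ∧ τ l = τ m then lam l else 0 := by
    intro l hl
    have hne : m ≠ l := (Finset.ne_of_mem_erase hl).symm
    have : m ≤ l ↔ m < l := ⟨fun h => lt_of_le_of_ne h hne, le_of_lt⟩
    simp [this]
  rw [Finset.sum_congr rfl h5]
  simp
  ring

theorem wS_nonneg {A : Type} {n : ℕ} (τ : Fin n → OnePoint A) (lam : Fin n → ℝ)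
    (h0 : ∀ l, 0 ≤ lam l) (m : Fin (n + 1)) : 0 ≤ wS τ lam m := by
  refine Fin.lastCases ?_ (fun m => ?_) m
  · simp [wS]
  · simp only [wS, Fin.snoc_castSucc]
    exact Finset.sum_nonneg fun l _ => h0 l

theorem offT_nonneg {A : Type} {n : ℕ} (τ : Fin n → OnePoint A) (lam : Fin n → ℝ)
    (h0 : ∀ l, 0 ≤ lam l) : 0 ≤ offT τ lam := by
  unfold offT
  refine Finset.sum_nonneg fun l _ => Finset.sum_nonneg fun l' _ => ?_
  split_ifs
  · exact le_min (h0 l) (h0 l')
  · exact le_rfl

theorem wt_add {n : ℕ} (w : Fin (n + 1) → ℝ) (ν ν' : Fin (n + 1) →₀ ℕ) :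
    wt w (ν + ν') = wt w ν + wt w ν' := by
  unfold wt
  rw [← Finset.sum_add_distrib]
  apply Finset.sum_congr rfl
  intro j _
  simp only [Finsupp.add_apply, Nat.cast_add]
  ring

end Pool.Agent.RefG
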