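import Pool.Agent.RefG.Defs
import Pool.Agent.RefG.Expand
import Pool.Agent.RefG.Sort

/-!
RG11. Upper bounds for the coordinates attached to `τ`.
`F = a F'` with `F'` the coefficients of `∏ (X - x l)`; `rowT_prod` with `α = 1`, `β l = - x l`.
`‖vl θ 1 (- x)‖ ≤ C * max 1 ‖x‖ * δ x θ` (`DistOK.some`, `DistOK.infty`), `‖dv θ 1 (- x)‖ ≤ max 1 ‖x‖`.
So the term of `J` (`|J| = rk τ m`, `θ = τ m`) is at most `C ^ n * ∏ max 1 ‖x l‖ *
∏_{l ∉ J, τ l = θ} δ (x l) θ ≤ C ^ n * e ^ n * ∏ max * exp (- ∑_{l ∉ J, τ l = θ} lam l)`, and the sum is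
`≥ wS τ lam m` by `sum_sdiff_ge`. For the last row the weight is `0` and `δ ≤ 1`.
-/

open MvPolynomial NumberField
open scoped Classical

namespace Pool.Agent.RefG

private theorem coord_dv {A : Type} [NormedField A] (θ : OnePoint A) (x : A) :
    ‖dv θ 1 (-x)‖ ≤ max 1 ‖x‖ := by
  induction θ using OnePoint.rec with
  | infty =>
    change ‖-x‖ ≤ _
    rw [norm_neg]
    exact le_max_right _ _
  | coe z =>
    change ‖(1 : A)‖ ≤ _
    rw [norm_one]
    exact le_max_left _ _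

private theorem coord_vl {A : Type} [NormedField A] {δ : A → OnePoint A → ℝ}
    (hδ : RefW.DistOK δ) (θ : OnePoint A) :
    ∃ C : ℝ, ∀ x : A, ‖vl θ 1 (-x)‖ ≤ C * max 1 ‖x‖ * δ x θ := by
  induction θ using OnePoint.rec with
  | infty =>
    obtain ⟨C, hC⟩ := hδ.infty
    refine ⟨C, fun x => ?_⟩
    change ‖(1 : A)‖ ≤ _
    rw [norm_one]
    exact hC x
  | coe z =>
    obtain ⟨C, hC⟩ := hδ.some z
    refine ⟨C, fun x => ?_⟩
    change ‖1 * z + -x‖ ≤ _
    rw [one_mul, ← sub_eq_add_neg, norm_sub_rev]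
    exact hC x

private theorem coord_unif {A : Type} [NormedField A] {δ : A → OnePoint A → ℝ}
    (hδ : RefW.DistOK δ) (D : Finset (OnePoint A)) :
    ∃ C : ℝ, 1 ≤ C ∧ ∀ θ ∈ insert OnePoint.infty D, ∀ x : A,
      ‖vl θ 1 (-x)‖ ≤ C * max 1 ‖x‖ * δ x θ := by
  choose c hc using coord_vl hδ
  refine ⟨1 + ∑ θ ∈ insert OnePoint.infty D, |c θ|, ?_, fun θ hθ x => ?_⟩
  · have h1 := Finset.sum_nonneg (fun θ (_ : θ ∈ insert OnePoint.infty D) => abs_nonneg (c θ))
    linarith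
  · refine (hc θ x).trans ?_
    have h1 : c θ ≤ 1 + ∑ θ ∈ insert OnePoint.infty D, |c θ| := by
      have h2 := Finset.single_le_sum (f := fun θ => |c θ|) (fun θ _ => abs_nonneg _) hθ
      have h3 := le_abs_self (c θ)
      linarith
    have h4 : 0 ≤ δ x θ := hδ.nonneg x θ
    gcongr

private theorem coord_term {A : Type} [NormedField A] {δ : A → OnePoint A → ℝ}
    {C : ℝ} (hC : 1 ≤ C) {θ : OnePoint A}
    (hθ : ∀ x : A, ‖vl θ 1 (-x)‖ ≤ C * max 1 ‖x‖ * δ x θ) {n : ℕ} (x : Fin n → A)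
    (J : Finset (Fin n)) :
    ‖(∏ l ∈ J, dv θ 1 (-x l)) * ∏ l ∈ Jᶜ, vl θ 1 (-x l)‖ ≤
      C ^ n * (∏ l, max 1 ‖x l‖) * ∏ l ∈ Jᶜ, δ (x l) θ := by
  have hC0 : 0 ≤ C := zero_le_one.trans hC
  have hm : ∀ l, (0 : ℝ) ≤ max 1 ‖x l‖ := fun l => zero_le_one.trans (le_max_left _ _)
  have h1 : ∏ l ∈ J, ‖dv θ 1 (-x l)‖ ≤ ∏ l ∈ J, (C * max 1 ‖x l‖) := by
    refine Finset.prod_le_prod (fun l _ => norm_nonneg _) fun l _ => ?_
    refine (coord_dv θ (x l)).trans ?_
    exact le_mul_of_one_le_left (hm l) hC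
  have h2 : ∏ l ∈ Jᶜ, ‖vl θ 1 (-x l)‖ ≤ ∏ l ∈ Jᶜ, (C * max 1 ‖x l‖ * δ (x l) θ) :=
    Finset.prod_le_prod (fun l _ => norm_nonneg _) fun l _ => hθ (x l)
  rw [norm_mul, norm_prod, norm_prod]
  refine (mul_le_mul h1 h2 (Finset.prod_nonneg fun l _ => norm_nonneg _)
    (Finset.prod_nonneg fun l _ => mul_nonneg hC0 (hm l))).trans (le_of_eq ?_)
  rw [Finset.prod_mul_distrib (s := Jᶜ) (f := fun l => C * max 1 ‖x l‖), ← mul_assoc,
    Finset.prod_mul_prod_compl, Finset.prod_mul_distrib, Finset.prod_const, Finset.card_univ,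
    Fintype.card_fin]

private theorem coord_row {A : Type} [NormedField A] {δ : A → OnePoint A → ℝ}
    {C : ℝ} (hC : 1 ≤ C) {θ : OnePoint A}
    (hθ : ∀ x : A, ‖vl θ 1 (-x)‖ ≤ C * max 1 ‖x‖ * δ x θ) {n : ℕ} {F : Fin (n + 1) → A}
    {a : A} {x : Fin n → A} (hF : Fac F a x) (j : ℕ) {w : ℝ}
    (hw : ∀ J : Finset (Fin n), J.card = j →
      ∏ l ∈ Jᶜ, δ (x l) θ ≤ Real.exp n * Real.exp (-w)) :
    ‖∑ i, rowT θ j i * F i‖ ≤
      2 ^ n * C ^ n * Real.exp n * (‖a‖ * ∏ l, max 1 ‖x l‖) * Real.exp (-w) := by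
  set P : Polynomial A := ∏ l, (Polynomial.X - Polynomial.C (x l)) with hP
  have hdeg : P.natDegree = n := by
    rw [hP, Polynomial.natDegree_prod_of_monic _ _ (fun i _ => Polynomial.monic_X_sub_C _)]
    simp
  have hP2 : ∑ i : Fin (n + 1), Polynomial.C (P.coeff i) * Polynomial.X ^ (i : ℕ) = P := by
    have h1 := P.as_sum_range_C_mul_X_pow
    rw [hdeg] at h1
    rw [Fin.sum_univ_eq_sum_range
      (fun i => Polynomial.C (P.coeff i) * Polynomial.X ^ i) (n + 1)]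
    exact h1.symm
  have hFP : ∀ i, F i = a * P.coeff i := by
    intro i
    have h1 := congrArg (fun Q : Polynomial A => Q.coeff (i : ℕ)) hF
    simp only [Polynomial.coeff_C_mul] at h1
    rw [← h1, Polynomial.finsetSum_coeff, Finset.sum_eq_single i]
    · rw [Polynomial.coeff_C_mul_X_pow, if_pos rfl]
    · intro b _ hb
      rw [Polynomial.coeff_C_mul_X_pow, if_neg]
      intro h2
      exact hb (Fin.ext h2.symm)
    · intro h2
      exact absurd (Finset.mem_univ i) h2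
  have h3 : ∑ i, rowT θ j i * F i = a * ∑ i : Fin (n + 1), rowT θ j i * P.coeff (i : ℕ) := by
    rw [Finset.mul_sum]
    refine Finset.sum_congr rfl fun i _ => ?_
    rw [hFP i]
    ring
  have h4 := rowT_prod (fun i : Fin (n + 1) => P.coeff i) (fun _ : Fin n => (1 : A))
    (fun l => -x l) (by
      rw [hP2, hP]
      refine Finset.prod_congr rfl fun l _ => ?_
      rw [Polynomial.C_1, one_mul, Polynomial.C_neg, sub_eq_add_neg]) θ j
  have hprod : 0 ≤ ∏ l, max 1 ‖x l‖ :=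
    Finset.prod_nonneg fun l _ => zero_le_one.trans (le_max_left _ _)
  have hC0 : 0 ≤ C := zero_le_one.trans hC
  rw [h3, norm_mul, h4]
  have h5 : ‖∑ J ∈ Finset.univ.powersetCard j,
      (∏ l ∈ J, dv θ 1 (-x l)) * ∏ l ∈ Jᶜ, vl θ 1 (-x l)‖ ≤
      ∑ J ∈ (Finset.univ : Finset (Fin n)).powersetCard j,
        C ^ n * (∏ l, max 1 ‖x l‖) * (Real.exp n * Real.exp (-w)) := by
    refine norm_sum_le_of_le _ fun J hJ => ?_
    refine (coord_term hC hθ x J).trans ?_
    have h6 := hw J (Finset.mem_powersetCard.mp hJ).2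
    gcongr
  rw [Finset.sum_const, Finset.card_powersetCard, Finset.card_univ, Fintype.card_fin,
    nsmul_eq_mul] at h5
  have h7 : ((n.choose j : ℕ) : ℝ) ≤ 2 ^ n := by
    exact_mod_cast Nat.choose_le_two_pow n j
  have h8 : 0 ≤ C ^ n * (∏ l, max 1 ‖x l‖) * (Real.exp n * Real.exp (-w)) := by positivity
  have h9 := h5.trans (mul_le_mul_of_nonneg_right h7 h8)
  refine (mul_le_mul_of_nonneg_left h9 (norm_nonneg a)).trans (le_of_eq ?_)
  ring

theorem coord_le {A : Type} [NormedField A] (δ : A → OnePoint A → ℝ) (hδ : RefW.DistOK δ) {n : ℕ}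
    (D : Finset (OnePoint A)) :
    ∃ C : ℝ, 1 ≤ C ∧ ∀ τ : Fin n → OnePoint A, (∀ l, τ l ∈ D) →
      ∀ (F : Fin (n + 1) → A) (a : A) (x : Fin n → A), Fac F a x →
      ∀ lam : Fin n → ℝ, (∀ l, 0 ≤ lam l) → Antitone lam →
      (∀ l, δ (x l) (τ l) ≤ Real.exp (1 - lam l)) →
      ∀ m : Fin (n + 1), ‖(matT τ).mulVec F m‖ ≤
        C * (‖a‖ * ∏ l, max 1 ‖x l‖) * Real.exp (-wS τ lam m) := by
  obtain ⟨C, hC, hCθ⟩ := coord_unif hδ D
  refine ⟨2 ^ n * C ^ n * Real.exp n, ?_, ?_⟩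
  · have h1 : (1 : ℝ) ≤ 2 ^ n := one_le_pow₀ one_le_two
    have h2 : (1 : ℝ) ≤ C ^ n := one_le_pow₀ hC
    have h3 : (1 : ℝ) ≤ Real.exp n := Real.one_le_exp (Nat.cast_nonneg n)
    exact one_le_mul_of_one_le_of_one_le (one_le_mul_of_one_le_of_one_le h1 h2) h3
  intro τ hτ F a x hF lam h0 hanti hlam m
  have hexp : (1 : ℝ) ≤ Real.exp n := Real.one_le_exp (Nat.cast_nonneg n)
  induction m using Fin.lastCases with
  | last =>
    have h1 : (matT τ).mulVec F (Fin.last n) =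
        ∑ i, rowT OnePoint.infty (Finset.univ.filter fun l => τ l = OnePoint.infty).card i *
          F i := by
      simp only [Matrix.mulVec, dotProduct, matT, Matrix.of_apply, Fin.snoc_last]
    have h2 : wS τ lam (Fin.last n) = 0 := by
      simp only [wS, Fin.snoc_last]
    rw [h1, h2]
    refine coord_row hC (hCθ _ (Finset.mem_insert_self _ _)) hF _ fun J _ => ?_
    rw [neg_zero, Real.exp_zero, mul_one]
    exact (Finset.prod_le_one (fun l _ => hδ.nonneg _ _) fun l _ => hδ.le_one _ _).trans hexp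
  | cast m =>
    have h1 : (matT τ).mulVec F m.castSucc = ∑ i, rowT (τ m) (rk τ m) i * F i := by
      simp only [Matrix.mulVec, dotProduct, matT, Matrix.of_apply, Fin.snoc_castSucc]
    have h2 : wS τ lam m.castSucc =
        ∑ l ∈ Finset.univ.filter (fun l => m ≤ l ∧ τ l = τ m), lam l := by
      simp only [wS, Fin.snoc_castSucc]
    rw [h1, h2]
    refine coord_row hC (hCθ _ (Finset.mem_insert_of_mem (hτ m))) hF _ fun J hJ => ?_
    set S : Finset (Fin n) := Finset.univ.filter fun l => τ l = τ m with hS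
    have h3 := sum_sdiff_ge lam h0 hanti S J m (by
      rw [hJ, rk, hS, Finset.filter_filter]
      refine le_of_eq (congrArg Finset.card (Finset.filter_congr fun l _ => ?_))
      exact and_comm)
    have h4 : S.filter (fun l => m ≤ l) =
        Finset.univ.filter (fun l => m ≤ l ∧ τ l = τ m) := by
      rw [hS, Finset.filter_filter]
      exact Finset.filter_congr fun l _ => and_comm
    rw [h4] at h3
    have h5 : S \ J ⊆ Jᶜ := fun l hl => Finset.mem_compl.mpr (Finset.mem_sdiff.mp hl).2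
    have h6 : ∏ l ∈ Jᶜ, δ (x l) (τ m) ≤ ∏ l ∈ S \ J, δ (x l) (τ m) := by
      rw [← Finset.prod_sdiff h5]
      exact mul_le_of_le_one_left (Finset.prod_nonneg fun l _ => hδ.nonneg _ _)
        (Finset.prod_le_one (fun l _ => hδ.nonneg _ _) fun l _ => hδ.le_one _ _)
    refine h6.trans ?_
    have h7 : ∏ l ∈ S \ J, δ (x l) (τ m) ≤ ∏ l ∈ S \ J, Real.exp (1 - lam l) := by
      refine Finset.prod_le_prod (fun l _ => hδ.nonneg _ _) fun l hl => ?_
      have h8 : τ l = τ m := (Finset.mem_filter.mp (Finset.mem_sdiff.mp hl).1).2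
      rw [← h8]
      exact hlam l
    refine h7.trans ?_
    rw [← Real.exp_sum, ← Real.exp_add, Real.exp_le_exp, Finset.sum_sub_distrib,
      Finset.sum_const, nsmul_eq_mul, mul_one, ← sub_eq_add_neg]
    have h9 : (((S \ J).card : ℕ) : ℝ) ≤ n := by
      have h10 := Finset.card_le_univ (S \ J)
      rw [Fintype.card_fin] at h10
      exact_mod_cast h10
    linarith

end Pool.Agent.RefG
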