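import Pool.Agent.RefG.Defs

/-!
RG1. Number of monomials and symmetry.
-/

open MvPolynomial NumberField
open scoped Classical

namespace Pool.Agent.RefG

/-- `Idx n N` and the tuples of natural numbers with sum `N` -/
private def countEquivNat (n N : ℕ) : Idx n N ≃ {P : Fin (n + 1) → ℕ // ∑ i, P i = N} where
  toFun μ := ⟨fun i => (μ.1 i : ℕ), μ.2⟩
  invFun P := ⟨fun i => ⟨P.1 i, by
    have h := Finset.single_le_sum (f := P.1) (fun j _ => Nat.zero_le _) (Finset.mem_univ i)
    have h2 := P.2
    omega⟩, P.2⟩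
  left_inv μ := by
    apply Subtype.ext
    funext i
    rfl
  right_inv P := by
    apply Subtype.ext
    funext i
    rfl

theorem card_idx (n N : ℕ) : Fintype.card (Idx n N) = (N + n).choose n := by
  have h1 : Fintype.card (Idx n N) = (N + n).choose N := by
    rw [Fintype.card_congr ((countEquivNat n N).trans
      (Sym.equivNatSumOfFintype (Fin (n + 1)) N).symm), Sym.card_sym_eq_choose]
    simp only [Fintype.card_fin]
    congr 1
    omega
  rw [h1, ← Nat.choose_symm_add]

/-- permuting the exponents -/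
private def countPerm (n N : ℕ) (σ : Equiv.Perm (Fin (n + 1))) : Idx n N ≃ Idx n N where
  toFun μ := ⟨fun i => μ.1 (σ i), by
    have h := Equiv.sum_comp σ (fun i => (μ.1 i : ℕ))
    rw [h]
    exact μ.2⟩
  invFun μ := ⟨fun i => μ.1 (σ.symm i), by
    have h := Equiv.sum_comp σ.symm (fun i => (μ.1 i : ℕ))
    rw [h]
    exact μ.2⟩
  left_inv μ := by
    apply Subtype.ext
    funext i
    simp
  right_inv μ := by
    apply Subtype.ext
    funext i
    simp

private theorem count_sum_eq (n N : ℕ) (i j : Fin (n + 1)) :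
    ∑ μ : Idx n N, (μ.1 i : ℕ) = ∑ μ : Idx n N, (μ.1 j : ℕ) := by
  apply Fintype.sum_equiv (countPerm n N (Equiv.swap i j))
  intro μ
  simp [countPerm]

theorem sum_idx (n N : ℕ) (j : Fin (n + 1)) :
    (n + 1) * ∑ i : Idx n N, (i.1 j : ℕ) = N * Fintype.card (Idx n N) := by
  have h1 : ∑ l : Fin (n + 1), ∑ i : Idx n N, (i.1 l : ℕ) =
      (n + 1) * ∑ i : Idx n N, (i.1 j : ℕ) := by
    rw [Finset.sum_congr rfl fun l _ => count_sum_eq n N l j]
    simp
  rw [← h1, Finset.sum_comm, Finset.sum_congr rfl fun i _ => i.2]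
  simp [mul_comm]

end Pool.Agent.RefG
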