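import Pool.Agent.RefG.Defs
import Pool.Agent.RefG.Count

/-!
RG2. The mean value of `mult μ`.
`sum_mult`: the predicate `b • μ ≤ expo i` is downward closed in `b` and implies `b * D ≤ N`, so
`mult μ i` is the number of `b ∈ [1, N]` with `b • μ ≤ expo i`; exchange the sums; for `b * D ≤ N` the
indices `i` with `b • μ ≤ expo i` correspond to `Idx n (N - b * D)` by `i ↦ i - b μ`.
`mult_asymp`: put `c j = card (Idx n j) = (j + n).choose n`, non-decreasing in `j`. So
`D * ∑_{b ≥ 0, bD ≤ N} c (N - bD) ≥ ∑_{j ≤ N} c j = (N + n + 1).choose (n + 1)` (blocks of length `D`;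
hockey stick `Nat.sum_range_choose`-type identity) and `(n + 1) * (N+n+1).choose (n+1) =
(N + n + 1) * (N + n).choose n`. Hence `(n + 1) * D * ∑ mult ≥ (N + n + 1) * c N - (n + 1) * D * c N ≥
(N - (n + 1) * D) * c N ≥ (1 - ε) * N * c N` if `N ≥ (n + 1) * D / ε`.
-/

open MvPolynomial NumberField
open scoped Classical

namespace Pool.Agent.RefG

private theorem findGreatest_card (p : ℕ → Prop) [DecidablePred p] (N : ℕ) (h0 : p 0)
    (hp : ∀ a b, a ≤ b → p b → p a) :
    Nat.findGreatest p N = ((Finset.Icc 1 N).filter p).card := by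
  have h1 : (Finset.Icc 1 N).filter p = Finset.Icc 1 (Nat.findGreatest p N) := by
    ext b
    rw [Finset.mem_filter, Finset.mem_Icc, Finset.mem_Icc]
    constructor
    · rintro ⟨⟨h2, h3⟩, h4⟩
      exact ⟨h2, Nat.le_findGreatest h3 h4⟩
    · rintro ⟨h2, h3⟩
      exact ⟨⟨h2, h3.trans (Nat.findGreatest_le N)⟩,
        hp _ _ h3 (Nat.findGreatest_spec (Nat.zero_le N) h0)⟩
  rw [h1, Nat.card_Icc, Nat.add_sub_cancel]

private theorem le_expo_iff {n N : ℕ} (μ : Fin (n + 1) →₀ ℕ) (i : Idx n N) (b : ℕ) :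
    b • μ ≤ expo i ↔ ∀ j, b * μ j ≤ (i.1 j : ℕ) := by
  rw [Finsupp.le_def]
  refine forall_congr' fun j => ?_
  simp [expo]

private theorem degree_sum {n D : ℕ} (μ : Fin (n + 1) →₀ ℕ) (hμ : μ.degree = D) :
    ∑ j, μ j = D := by
  rw [← hμ, Finsupp.degree_eq_sum]

private def mkIdx {n M : ℕ} (f : Fin (n + 1) → ℕ) (h : ∑ j, f j = M) : Idx n M :=
  ⟨fun j => ⟨f j, Nat.lt_succ_of_le (h ▸ Finset.single_le_sum (fun _ _ => Nat.zero_le _)
    (Finset.mem_univ j))⟩, h⟩

private theorem mkIdx_val {n M : ℕ} (f : Fin (n + 1) → ℕ) (h : ∑ j, f j = M) (j : Fin (n + 1)) :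
    ((mkIdx f h).1 j : ℕ) = f j := rfl

private theorem idx_ext {n M : ℕ} {i i' : Idx n M} (h : ∀ j, (i.1 j : ℕ) = (i'.1 j : ℕ)) :
    i = i' := by
  apply Subtype.ext
  funext j
  exact Fin.ext (h j)

private theorem card_level {n D N b : ℕ} (μ : Fin (n + 1) →₀ ℕ) (hμ : μ.degree = D) :
    ((Finset.univ : Finset (Idx n N)).filter fun i => b • μ ≤ expo i).card =
      if b * D ≤ N then Fintype.card (Idx n (N - b * D)) else 0 := by
  have hs := degree_sum μ hμ
  have hsb : ∑ j, b * μ j = b * D := by rw [← Finset.mul_sum, hs]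
  split_ifs with hb
  · rw [← Finset.card_univ (α := Idx n (N - b * D))]
    refine Finset.card_bij'
      (fun i hi => mkIdx (fun j => (i.1 j : ℕ) - b * μ j) ?_)
      (fun i _ => mkIdx (fun j => (i.1 j : ℕ) + b * μ j) ?_) ?_ ?_ ?_ ?_
    · rw [Finset.mem_filter, le_expo_iff] at hi
      rw [Finset.sum_tsub_distrib _ (fun j _ => hi.2 j), i.2, hsb]
    · rw [Finset.sum_add_distrib, i.2, hsb]
      exact Nat.sub_add_cancel hb
    · intro i _
      exact Finset.mem_univ _
    · intro i _
      rw [Finset.mem_filter, le_expo_iff]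
      refine ⟨Finset.mem_univ _, fun j => ?_⟩
      rw [mkIdx_val]
      exact Nat.le_add_left _ _
    · intro i hi
      rw [Finset.mem_filter, le_expo_iff] at hi
      apply idx_ext
      intro j
      rw [mkIdx_val, mkIdx_val]
      exact Nat.sub_add_cancel (hi.2 j)
    · intro i _
      apply idx_ext
      intro j
      rw [mkIdx_val, mkIdx_val]
      exact Nat.add_sub_cancel _ _
  · rw [Finset.card_eq_zero, Finset.filter_eq_empty_iff]
    intro i _ hi
    rw [le_expo_iff] at hi
    apply hb
    rw [← hsb]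
    calc ∑ j, b * μ j ≤ ∑ j, (i.1 j : ℕ) := Finset.sum_le_sum fun j _ => hi j
      _ = N := i.2

theorem sum_mult {n D : ℕ} (hD : 0 < D) (N : ℕ) (μ : Fin (n + 1) →₀ ℕ) (hμ : μ.degree = D) :
    ∑ i : Idx n N, mult μ i =
      ∑ b ∈ Finset.Icc 1 N, if b * D ≤ N then Fintype.card (Idx n (N - b * D)) else 0 := by
  have h1 : ∀ i : Idx n N, mult μ i =
      ∑ b ∈ Finset.Icc 1 N, if b • μ ≤ expo i then 1 else 0 := by
    intro i
    rw [mult, findGreatest_card (fun b => b • μ ≤ expo i) N (by simp) ?_, Finset.card_filter]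
    intro a b hab hb
    rw [le_expo_iff] at hb ⊢
    exact fun j => (Nat.mul_le_mul_right _ hab).trans (hb j)
  simp only [h1]
  rw [Finset.sum_comm]
  refine Finset.sum_congr rfl (fun b _ => ?_)
  rw [← Finset.card_filter, card_level μ hμ]

private theorem block_sum {c : ℕ → ℕ} (hc : Monotone c) {D : ℕ} (hD : 0 < D) (N : ℕ) :
    ∑ j ∈ Finset.range (N + 1), c j ≤
      D * ∑ b ∈ Finset.range (N + 1), if b * D ≤ N then c (N - b * D) else 0 := by
  induction N using Nat.strong_induction_on with
  | _ N ih =>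
    by_cases hN : N < D
    · have h1 : ∑ j ∈ Finset.range (N + 1), c j ≤ (N + 1) * c N := by
        have := Finset.sum_le_card_nsmul (Finset.range (N + 1)) c (c N)
          (fun j hj => hc (Nat.lt_succ_iff.1 (Finset.mem_range.1 hj)))
        rwa [Finset.card_range, smul_eq_mul] at this
      have h2 : c N ≤ ∑ b ∈ Finset.range (N + 1), if b * D ≤ N then c (N - b * D) else 0 := by
        have := Finset.single_le_sum
          (f := fun b => if b * D ≤ N then c (N - b * D) else 0)
          (fun b _ => Nat.zero_le _) (Finset.mem_range.2 (Nat.succ_pos N))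
        simpa using this
      exact h1.trans (Nat.mul_le_mul hN h2)
    · obtain ⟨M, rfl⟩ : ∃ M, N = M + D := ⟨N - D, by omega⟩
      have h1 := ih M (by omega)
      have h2 : ∑ b ∈ Finset.range (M + D + 1),
          (if b * D ≤ M + D then c (M + D - b * D) else 0) =
          c (M + D) + ∑ b ∈ Finset.range (M + 1), if b * D ≤ M then c (M - b * D) else 0 := by
        rw [Finset.sum_range_succ', add_comm]
        congr 1
        · simp
        · rw [← Finset.sum_subset (Finset.range_mono (show M + 1 ≤ M + D by omega))]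
          · refine Finset.sum_congr rfl (fun b _ => ?_)
            have e1 : (b + 1) * D ≤ M + D ↔ b * D ≤ M := by
              rw [Nat.succ_mul]
              omega
            have e2 : M + D - (b + 1) * D = M - b * D := by
              rw [Nat.succ_mul]
              omega
            rw [e2]
            exact if_congr e1 rfl rfl
          · intro b _ hb
            rw [Finset.mem_range, not_lt] at hb
            rw [if_neg]
            have : b * 1 ≤ b * D := Nat.mul_le_mul_left b hD
            rw [Nat.succ_mul]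
            omega
      have h3 : ∑ j ∈ Finset.range (M + D + 1), c j ≤
          ∑ j ∈ Finset.range (M + 1), c j + D * c (M + D) := by
        have e : M + D + 1 = (M + 1) + D := by omega
        rw [e, Finset.sum_range_add]
        refine Nat.add_le_add_left ?_ _
        have := Finset.sum_le_card_nsmul (Finset.range D) (fun x => c (M + 1 + x)) (c (M + D))
          (fun j hj => hc (by have := Finset.mem_range.1 hj; omega))
        rwa [Finset.card_range, smul_eq_mul] at this
      rw [h2, Nat.mul_add]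
      calc _ ≤ ∑ j ∈ Finset.range (M + 1), c j + D * c (M + D) := h3
        _ ≤ _ := by
          rw [add_comm]
          exact Nat.add_le_add_left h1 _

theorem mult_asymp (n D : ℕ) (hD : 0 < D) (ε : ℝ) (hε : 0 < ε) :
    ∃ N : ℕ, 0 < N ∧ ∀ μ : Fin (n + 1) →₀ ℕ, μ.degree = D →
      (1 - ε) * (N * Fintype.card (Idx n N)) ≤
        (n + 1) * D * ((∑ i : Idx n N, mult μ i : ℕ) : ℝ) := by
  obtain ⟨N, hN⟩ := exists_nat_gt ((n + 1) * D / ε)
  have hN1 : ((n : ℝ) + 1) * D < ε * N := by
    rw [div_lt_iff₀ hε] at hN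
    linarith
  have hN0 : 0 < N := by
    rcases Nat.eq_zero_or_pos N with h | h
    · rw [h] at hN1
      have : (0 : ℝ) ≤ ((n : ℝ) + 1) * D := by positivity
      simp only [Nat.cast_zero, mul_zero] at hN1
      linarith
    · exact h
  refine ⟨N, hN0, fun μ hμ => ?_⟩
  rw [sum_mult hD N μ hμ]
  let c : ℕ → ℕ := fun j => (j + n).choose n
  have hc : Monotone c := fun a b hab => Nat.choose_le_choose n (Nat.add_le_add_right hab n)
  have hcard : ∀ j, Fintype.card (Idx n j) = c j := fun j => card_idx n j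
  simp only [hcard]
  have h1 := block_sum hc hD N
  have h2 : ∑ j ∈ Finset.range (N + 1), c j = (N + n + 1).choose (n + 1) :=
    Nat.sum_range_add_choose N n
  have h3 : (N + n + 1) * c N = (N + n + 1).choose (n + 1) * (n + 1) :=
    Nat.add_one_mul_choose_eq (N + n) n
  have h4 : ∑ b ∈ Finset.range (N + 1), (if b * D ≤ N then c (N - b * D) else 0) =
      c N + ∑ b ∈ Finset.Icc 1 N, (if b * D ≤ N then c (N - b * D) else 0) := by
    rw [Finset.range_eq_Ico, Finset.sum_eq_sum_Ico_succ_bot (Nat.succ_pos N)]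
    congr 1
    simp
  rw [h2, h4] at h1
  set S := ∑ b ∈ Finset.Icc 1 N, (if b * D ≤ N then c (N - b * D) else 0) with hS
  have h5 : (N + n + 1) * c N ≤ (n + 1) * (D * (c N + S)) := by
    rw [h3, mul_comm]
    exact Nat.mul_le_mul_left _ h1
  have h6 : ((N : ℝ) + n + 1) * c N ≤ (n + 1) * (D * (c N + S)) := by exact_mod_cast h5
  have h7 : (0 : ℝ) ≤ c N := Nat.cast_nonneg _
  have h8 : ((n : ℝ) + 1) * D * c N ≤ ε * N * c N := mul_le_mul_of_nonneg_right hN1.le h7
  have h9 : (0 : ℝ) ≤ ((n : ℝ) + 1) * c N := by positivity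
  nlinarith

end Pool.Agent.RefG
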