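import Pool.Agent.RefG.Defs
import Pool.Agent.RefG.Expand

/-!
RG9. The coordinates attached to `τ` are independent.
Choose `c ∈ A` different from all finite `τ l`. For `s : Fin (n + 1)` let `Q s` be the product over `l` of
the linear forms: for `l < s`: `X - z` if `τ l = z`, `1` (that is `0 X + 1`) if `τ l = ∞`; for `l ≥ s`:
`X - c`. Let `V` be the matrix with columns the coefficient vectors of `Q s`. By `rowT_prod`,
`(matT τ * V) m s` for `m < n` is a sum over the sets `J` of size `rk τ m` of
`∏_J dv * ∏_{Jᶜ} vl` at `θ = τ m`, where `vl = 0` exactly for the `l < s` with `τ l = τ m`. For `s > m`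
there are more than `rk τ m` of these, so the sum is `0`; for `s = m` exactly `rk τ m`, and only `J` = the
set of these `l` gives a nonzero term. The last row is applied to `Q n` in the same way. So
`matT τ * V` is triangular with nonzero diagonal.
-/

open MvPolynomial NumberField
open scoped Classical

namespace Pool.Agent.RefG

private theorem hermite_sum {A : Type} [Field A] {n : ℕ} (θ : OnePoint A) (α β : Fin n → A)
    (Z : Finset (Fin n)) (hZ : ∀ l ∈ Z, vl θ (α l) (β l) = 0) (j : ℕ) (hj : j < Z.card) :
    ∑ J ∈ (Finset.univ : Finset (Fin n)).powersetCard j,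
      (∏ l ∈ J, dv θ (α l) (β l)) * ∏ l ∈ Jᶜ, vl θ (α l) (β l) = 0 := by
  refine Finset.sum_eq_zero fun J hJ => ?_
  have hJc := (Finset.mem_powersetCard.1 hJ).2
  obtain ⟨l, hl, hlJ⟩ : ∃ l ∈ Z, l ∉ J := by
    by_contra hcon
    push Not at hcon
    have := Finset.card_le_card (fun l hl => hcon l hl : Z ⊆ J)
    omega
  rw [Finset.prod_eq_zero (Finset.mem_compl.2 hlJ) (hZ l hl), mul_zero]

private theorem hermite_ne {A : Type} [Field A] {n : ℕ} (θ : OnePoint A) (α β : Fin n → A)
    (Z : Finset (Fin n)) (hZ : ∀ l, vl θ (α l) (β l) = 0 ↔ l ∈ Z)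
    (hd : ∀ l ∈ Z, dv θ (α l) (β l) ≠ 0) (j : ℕ) (hj : j = Z.card) :
    ∑ J ∈ (Finset.univ : Finset (Fin n)).powersetCard j,
      (∏ l ∈ J, dv θ (α l) (β l)) * ∏ l ∈ Jᶜ, vl θ (α l) (β l) ≠ 0 := by
  rw [Finset.sum_eq_single Z]
  · refine mul_ne_zero (Finset.prod_ne_zero_iff.2 hd) (Finset.prod_ne_zero_iff.2 fun l hl h => ?_)
    exact (Finset.mem_compl.1 hl) ((hZ l).1 h)
  · intro J hJ hne
    have hJc := (Finset.mem_powersetCard.1 hJ).2
    obtain ⟨l, hl, hlJ⟩ : ∃ l ∈ Z, l ∉ J := by
      by_contra hcon
      push Not at hcon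
      exact hne (Finset.eq_of_subset_of_card_le (fun l hl => hcon l hl : Z ⊆ J)
        (by rw [hJc, hj])).symm
    rw [Finset.prod_eq_zero (Finset.mem_compl.2 hlJ) ((hZ l).2 hl), mul_zero]
  · intro h
    exact absurd (Finset.mem_powersetCard.2 ⟨Finset.subset_univ Z, hj.symm⟩) h

private theorem hermite_coeff {A : Type} [Field A] {n : ℕ} (α β : Fin n → A) :
    ∑ i : Fin (n + 1), Polynomial.C ((∏ l, (Polynomial.C (α l) * Polynomial.X +
      Polynomial.C (β l))).coeff (i : ℕ)) * Polynomial.X ^ (i : ℕ) =
      ∏ l, (Polynomial.C (α l) * Polynomial.X + Polynomial.C (β l)) := by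
  have hdeg : (∏ l, (Polynomial.C (α l) * Polynomial.X + Polynomial.C (β l))).natDegree <
      n + 1 := by
    refine Nat.lt_succ_of_le ((Polynomial.natDegree_prod_le _ _).trans ?_)
    refine (Finset.sum_le_sum fun l _ => Polynomial.natDegree_linear_le).trans ?_
    simp
  have h := Polynomial.as_sum_range_C_mul_X_pow' _ hdeg
  rw [Finset.sum_range] at h
  exact h.symm

/-- first coefficient of the linear form of the finite or infinite point -/
private def hermiteA {A : Type} [Field A] (θ : OnePoint A) : A :=
  match θ with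
  | OnePoint.infty => 0
  | OnePoint.some _ => 1

/-- second coefficient of the linear form of the finite or infinite point -/
private def hermiteB {A : Type} [Field A] (θ : OnePoint A) : A :=
  match θ with
  | OnePoint.infty => 1
  | OnePoint.some z => -z

private theorem hermite_vl {A : Type} [Field A] (θ η : OnePoint A) :
    vl θ (hermiteA η) (hermiteB η) = 0 ↔ η = θ := by
  induction θ using OnePoint.rec with
  | infty =>
    induction η using OnePoint.rec with
    | infty => exact ⟨fun _ => rfl, fun _ => rfl⟩
    | coe w => exact ⟨fun h => absurd h one_ne_zero, fun h => absurd h (OnePoint.coe_ne_infty w)⟩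
  | coe z =>
    induction η using OnePoint.rec with
    | infty =>
      refine ⟨fun h => ?_, fun h => absurd h (OnePoint.infty_ne_coe z)⟩
      have h1 : (0 : A) * z + 1 = 0 := h
      rw [zero_mul, zero_add] at h1
      exact absurd h1 one_ne_zero
    | coe w =>
      constructor
      · intro h
        have h1 : (1 : A) * z + -w = 0 := h
        rw [one_mul, ← sub_eq_add_neg] at h1
        rw [sub_eq_zero.1 h1]
      · intro h
        have h2 : w = z := OnePoint.coe_injective h
        show (1 : A) * z + -w = 0
        rw [h2, one_mul, add_neg_cancel]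

private theorem hermite_dv {A : Type} [Field A] (θ : OnePoint A) :
    dv θ (hermiteA θ) (hermiteB θ) ≠ 0 := by
  induction θ using OnePoint.rec with
  | infty => exact one_ne_zero
  | coe z => exact one_ne_zero

theorem matT_det {A : Type} [Field A] [CharZero A] {n : ℕ} (τ : Fin n → OnePoint A) :
    (matT τ).det ≠ 0 := by
  have hinf : Infinite A := CharZero.infinite A
  -- a point different from all the finite values
  obtain ⟨c, hc⟩ := Infinite.exists_notMem_finset
    (Finset.univ.image fun l : Fin n => -hermiteB (τ l))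
  have hc' : ∀ l, τ l ≠ ((c : A) : OnePoint A) := by
    intro l hl
    apply hc
    rw [Finset.mem_image]
    refine ⟨l, Finset.mem_univ l, ?_⟩
    rw [hl]
    exact neg_neg c
  let al : Fin (n + 1) → Fin n → A := fun s l => if l.castSucc < s then hermiteA (τ l) else 1
  let be : Fin (n + 1) → Fin n → A := fun s l => if l.castSucc < s then hermiteB (τ l) else -c
  let F : Fin (n + 1) → Fin (n + 1) → A := fun s i =>
    (∏ l, (Polynomial.C (al s l) * Polynomial.X + Polynomial.C (be s l))).coeff (i : ℕ)
  have hF : ∀ s, ∑ i, Polynomial.C (F s i) * Polynomial.X ^ (i : ℕ) =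
      ∏ l, (Polynomial.C (al s l) * Polynomial.X + Polynomial.C (be s l)) :=
    fun s => hermite_coeff (al s) (be s)
  have hvl : ∀ (s : Fin (n + 1)) (θ : OnePoint A), θ ≠ ((c : A) : OnePoint A) → ∀ l,
      vl θ (al s l) (be s l) = 0 ↔
        l ∈ Finset.univ.filter fun l : Fin n => l.castSucc < s ∧ τ l = θ := by
    intro s θ hθ l
    rw [Finset.mem_filter]
    by_cases h : l.castSucc < s
    · simp only [al, be, h, if_true, true_and, Finset.mem_univ]
      exact hermite_vl θ (τ l)
    · simp only [al, be, h, if_false, false_and, and_false, iff_false]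
      have h1 := (hermite_vl θ ((c : A) : OnePoint A)).not.2 (Ne.symm hθ)
      exact h1
  have hdv : ∀ (s : Fin (n + 1)) (θ : OnePoint A), ∀ l ∈ Finset.univ.filter
      (fun l : Fin n => l.castSucc < s ∧ τ l = θ), dv θ (al s l) (be s l) ≠ 0 := by
    intro s θ l hl
    rw [Finset.mem_filter] at hl
    simp only [al, be, hl.2.1, if_true, hl.2.2]
    exact hermite_dv θ
  let W : Matrix (Fin (n + 1)) (Fin (n + 1)) A := Matrix.of fun i s => F s i
  have hent : ∀ m s, (matT τ * W) m s = ∑ i, matT τ m i * F s i := fun m s => rfl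
  have htri : (matT τ * W).BlockTriangular OrderDual.toDual := by
    intro m s hms
    have hms' : m < s := hms
    obtain ⟨m', rfl⟩ : ∃ m' : Fin n, m = m'.castSucc :=
      ⟨m.castPred (ne_of_lt (hms'.trans_le (Fin.le_last s))), (Fin.castSucc_castPred _ _).symm⟩
    rw [hent]
    have hrow : ∀ i, matT τ m'.castSucc i = rowT (τ m') (rk τ m') i := by
      intro i
      simp only [matT, Matrix.of_apply, Fin.snoc_castSucc]
    simp only [hrow]
    rw [rowT_prod (F s) (al s) (be s) (hF s) (τ m') (rk τ m')]
    refine hermite_sum _ _ _ (Finset.univ.filter fun l : Fin n => l.castSucc < s ∧ τ l = τ m')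
      (fun l hl => (hvl s (τ m') (hc' m') l).2 hl) _ ?_
    unfold rk
    refine Finset.card_lt_card (Finset.ssubset_iff_subset_ne.2 ⟨fun l hl => ?_, fun h => ?_⟩)
    · rw [Finset.mem_filter] at hl ⊢
      exact ⟨hl.1, (Fin.castSucc_lt_castSucc_iff.2 hl.2.1).trans hms', hl.2.2⟩
    · have h1 : m' ∈ Finset.univ.filter fun l : Fin n => l.castSucc < s ∧ τ l = τ m' := by
        rw [Finset.mem_filter]
        exact ⟨Finset.mem_univ _, hms', rfl⟩
      rw [← h, Finset.mem_filter] at h1
      exact absurd h1.2.1 (lt_irrefl _)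
  have hdiag : ∀ m, (matT τ * W) m m ≠ 0 := by
    intro m
    rw [hent]
    induction m using Fin.lastCases with
    | last =>
      have hrow : ∀ i, matT τ (Fin.last n) i = rowT OnePoint.infty
          (Finset.univ.filter fun l => τ l = OnePoint.infty).card i := by
        intro i
        simp only [matT, Matrix.of_apply, Fin.snoc_last]
      simp only [hrow]
      rw [rowT_prod (F (Fin.last n)) (al (Fin.last n)) (be (Fin.last n)) (hF (Fin.last n))]
      refine hermite_ne _ _ _ (Finset.univ.filter fun l : Fin n =>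
        l.castSucc < Fin.last n ∧ τ l = OnePoint.infty)
        (hvl (Fin.last n) _ (OnePoint.infty_ne_coe c)) (hdv _ _) _ ?_
      congr 1
      ext l
      simp only [Finset.mem_filter, Finset.mem_univ, true_and, Fin.castSucc_lt_last]
    | cast m' =>
      have hrow : ∀ i, matT τ m'.castSucc i = rowT (τ m') (rk τ m') i := by
        intro i
        simp only [matT, Matrix.of_apply, Fin.snoc_castSucc]
      simp only [hrow]
      rw [rowT_prod (F m'.castSucc) (al m'.castSucc) (be m'.castSucc) (hF m'.castSucc)]
      refine hermite_ne _ _ _ (Finset.univ.filter fun l : Fin n =>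
        l.castSucc < m'.castSucc ∧ τ l = τ m') (hvl m'.castSucc _ (hc' m')) (hdv _ _) _ ?_
      unfold rk
      congr 1
  have hdet := Matrix.det_of_isLowerTriangular (matT τ * W) htri
  rw [Matrix.det_mul] at hdet
  intro h
  rw [h, zero_mul] at hdet
  exact Finset.prod_ne_zero_iff.2 (fun m _ => hdiag m) hdet.symm

end Pool.Agent.RefG
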