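import Pool.Agent.RefG.Defs

/-!
RG3. The adapted forms are linearly independent, for an exponent of minimal weight (ties are broken
by the lexicographic order). Order the exponents by `key ν = (wt w ν, toLex ν)` in
`ℝ ×ₗ Lex (Fin (n+1) →₀ ℕ)` (`Finsupp.Lex` is a linear order compatible with addition, `wt w` is
additive). Let `μ` be the exponent of `Φ` with minimal key. In `Φ ^ b * monomial α 1` the exponent of
minimal key is `b • μ + α`, with coefficient `(Φ.coeff μ) ^ b ≠ 0` (all other exponents of the product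
have larger keys); for `b = mult μ i`, `α = expo i - b • μ` it is `expo i` (`b • μ ≤ expo i` by
`Nat.findGreatest_spec`, as `0 • μ ≤ expo i`). In a linear relation take the index `i` with nonzero
coefficient and minimal key of `expo i`, and look at the coefficient of the monomial `expo i`
(`expo` is injective). Neither homogeneity nor `0 < D` is needed.
-/

open MvPolynomial NumberField
open scoped Classical

namespace Pool.Agent.RefG

private noncomputable def leadKey {n : ℕ} (w : Fin (n + 1) → ℝ) :
    (Fin (n + 1) →₀ ℕ) →+ (ℝ ×ₗ Lex (Fin (n + 1) →₀ ℕ)) where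
  toFun ν := toLex (wt w ν, toLex ν)
  map_zero' := by
    have h : wt w (0 : Fin (n + 1) →₀ ℕ) = 0 := by
      simp [wt]
    rw [h]
    rfl
  map_add' a b := by
    have h : wt w (a + b) = wt w a + wt w b := by
      unfold wt
      rw [← Finset.sum_add_distrib]
      refine Finset.sum_congr rfl fun j _ => ?_
      rw [Finsupp.add_apply, Nat.cast_add]
      ring
    rw [h]
    rfl

private lemma leadKey_apply {n : ℕ} (w : Fin (n + 1) → ℝ) (ν : Fin (n + 1) →₀ ℕ) :
    leadKey w ν = toLex (wt w ν, toLex ν) := rfl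

private lemma leadKey_injective {n : ℕ} (w : Fin (n + 1) → ℝ) :
    Function.Injective (leadKey w) := by
  intro a b h
  rw [leadKey_apply, leadKey_apply] at h
  have h1 := toLex.injective h
  have h2 := congrArg Prod.snd h1
  exact toLex.injective h2

private lemma leadKey_wt {n : ℕ} (w : Fin (n + 1) → ℝ) {a b : Fin (n + 1) →₀ ℕ}
    (h : leadKey w a ≤ leadKey w b) : wt w a ≤ wt w b := by
  rw [leadKey_apply, leadKey_apply, Prod.Lex.toLex_le_toLex] at h
  rcases h with h | h
  · exact h.le
  · exact h.1.le

private def leadIs {A : Type} [Field A] {n : ℕ} (w : Fin (n + 1) → ℝ)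
    (P : MvPolynomial (Fin (n + 1)) A) (μ : Fin (n + 1) →₀ ℕ) : Prop :=
  P.coeff μ ≠ 0 ∧ ∀ ν, P.coeff ν ≠ 0 → leadKey w μ ≤ leadKey w ν

private lemma leadIs_mul {A : Type} [Field A] {n : ℕ} {w : Fin (n + 1) → ℝ}
    {P Q : MvPolynomial (Fin (n + 1)) A} {μ ν : Fin (n + 1) →₀ ℕ} (hP : leadIs w P μ)
    (hQ : leadIs w Q ν) : leadIs w (P * Q) (μ + ν) := by
  constructor
  · rw [coeff_mul, Finset.sum_eq_single (μ, ν)]
    · exact mul_ne_zero hP.1 hQ.1
    · rintro ⟨a, b⟩ hab hne
      rw [Finset.HasAntidiagonal.mem_antidiagonal] at hab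
      by_contra h0
      have ha : P.coeff a ≠ 0 := fun h => h0 (by rw [h, zero_mul])
      have hb : Q.coeff b ≠ 0 := fun h => h0 (by rw [h, mul_zero])
      have h1 := hP.2 a ha
      have h2 := hQ.2 b hb
      have h3 : leadKey w a + leadKey w b = leadKey w μ + leadKey w ν := by
        rw [← map_add, ← map_add]
        exact congrArg _ hab
      have h4 : leadKey w μ = leadKey w a := by
        refine le_antisymm h1 ?_
        by_contra h5
        have h6 := add_lt_add_of_lt_of_le (not_le.1 h5) h2
        rw [h3] at h6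
        exact lt_irrefl _ h6
      have h5 : leadKey w ν = leadKey w b := by
        rw [h4] at h3
        exact (add_left_cancel h3).symm
      apply hne
      rw [leadKey_injective w h4, leadKey_injective w h5]
    · intro h
      exfalso
      apply h
      rw [Finset.HasAntidiagonal.mem_antidiagonal]
  · intro c hc
    rw [coeff_mul] at hc
    obtain ⟨⟨a, b⟩, hab, h0⟩ := Finset.exists_ne_zero_of_sum_ne_zero hc
    rw [Finset.HasAntidiagonal.mem_antidiagonal] at hab
    have ha : P.coeff a ≠ 0 := fun h => h0 (by rw [h, zero_mul])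
    have hb : Q.coeff b ≠ 0 := fun h => h0 (by rw [h, mul_zero])
    have hab' : a + b = c := hab
    rw [← hab', map_add, map_add]
    exact add_le_add (hP.2 a ha) (hQ.2 b hb)

private lemma leadIs_monomial {A : Type} [Field A] {n : ℕ} (w : Fin (n + 1) → ℝ)
    (α : Fin (n + 1) →₀ ℕ) : leadIs w (monomial α (1 : A)) α := by
  constructor
  · rw [coeff_monomial, if_pos rfl]
    exact one_ne_zero
  · intro ν hν
    rw [coeff_monomial] at hν
    by_cases h : α = ν
    · rw [h]
    · exact absurd (if_neg h) hν

private lemma leadIs_pow {A : Type} [Field A] {n : ℕ} {w : Fin (n + 1) → ℝ}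
    {P : MvPolynomial (Fin (n + 1)) A} {μ : Fin (n + 1) →₀ ℕ} (hP : leadIs w P μ) (b : ℕ) :
    leadIs w (P ^ b) (b • μ) := by
  induction b with
  | zero =>
    rw [pow_zero, zero_smul]
    have := leadIs_monomial (A := A) w 0
    simpa using this
  | succ b ih =>
    rw [pow_succ, succ_nsmul]
    exact leadIs_mul ih hP

private lemma lead_mult_le {n N : ℕ} (μ : Fin (n + 1) →₀ ℕ) (i : Idx n N) :
    mult μ i • μ ≤ expo i := by
  unfold mult
  have := Nat.findGreatest_spec (P := fun b => b • μ ≤ expo i) (m := 0) (n := N) (Nat.zero_le _)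
    (by rw [zero_smul]; exact bot_le)
  exact this

private lemma lead_expo_injective {n N : ℕ} : Function.Injective (expo : Idx n N → _) := by
  intro i i' h
  apply Subtype.ext
  funext j
  have := DFunLike.congr_fun h j
  exact Fin.ext this

theorem rowP_li {A : Type} [Field A] {n : ℕ} (Φ : MvPolynomial (Fin (n + 1)) A) (hΦ0 : Φ ≠ 0)
    (w : Fin (n + 1) → ℝ) :
    ∃ μ ∈ Φ.support, (∀ ν ∈ Φ.support, wt w μ ≤ wt w ν) ∧
      ∀ N, LinearIndependent A (fun i : Idx n N => rowP Φ μ i) := by
  obtain ⟨μ, hμ, hmin⟩ := Finset.exists_min_image Φ.support (leadKey w)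
    (by rwa [Finset.nonempty_iff_ne_empty, Ne, support_eq_empty])
  have hΦ : leadIs w Φ μ := ⟨mem_support_iff.1 hμ, fun ν hν => hmin ν (mem_support_iff.2 hν)⟩
  refine ⟨μ, hμ, fun ν hν => leadKey_wt w (hmin ν hν), fun N => ?_⟩
  have hrow : ∀ i : Idx n N, leadIs w (rowP Φ μ i) (expo i) := by
    intro i
    have h1 := leadIs_mul (leadIs_pow hΦ (mult μ i))
      (leadIs_monomial (A := A) w (expo i - mult μ i • μ))
    rw [add_tsub_cancel_of_le (lead_mult_le μ i)] at h1
    exact h1
  rw [Fintype.linearIndependent_iff]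
  intro g hg
  by_contra hcon
  push Not at hcon
  obtain ⟨i₀, hi₀⟩ := hcon
  obtain ⟨i, hi, himin⟩ := Finset.exists_min_image (Finset.univ.filter fun i => g i ≠ 0)
    (fun i => leadKey w (expo i)) ⟨i₀, by simpa using hi₀⟩
  have hgi : g i ≠ 0 := (Finset.mem_filter.1 hi).2
  have h1 := congrArg (coeff (expo i)) hg
  rw [coeff_sum, coeff_zero, Finset.sum_eq_single i] at h1
  · rw [coeff_smul, smul_eq_mul] at h1
    exact mul_ne_zero hgi (hrow i).1 h1
  · intro j _ hj
    rw [coeff_smul, smul_eq_mul]
    by_cases hgj : g j = 0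
    · rw [hgj, zero_mul]
    · have h2 := himin j (Finset.mem_filter.2 ⟨Finset.mem_univ _, hgj⟩)
      have h3 : (rowP Φ μ j).coeff (expo i) = 0 := by
        by_contra h4
        have h5 := (hrow j).2 _ h4
        have h6 := leadKey_injective w (le_antisymm h2 h5)
        exact hj (lead_expo_injective h6).symm
      rw [h3, mul_zero]
  · intro h
    exact absurd (Finset.mem_univ _) h

end Pool.Agent.RefG
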