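import Pool.Agent.RefG.Defs

/-!
RG4. Linear substitutions and the matrices `rowM`.
`rowM_mulVec`: `lin T (rowP Φ μ i)` is homogeneous of degree `N`, so its value at `F` is the sum of its
coefficients times the monomials (compare `homog_eq_sum` in SST/Vero.lean; `expo` is a bijection from
`Idx n N` to the exponents of degree `N`). `rowM_det`: `lin T` is injective (`lin_lin` with `T⁻¹`), so
the forms `lin T (rowP Φ μ i)` are linearly independent; a vector `v ≠ 0` with `v ᵥ* rowM = 0` would
give a relation (`Matrix.exists_vecMul_eq_zero_iff`).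
-/

open MvPolynomial NumberField
open scoped Classical

namespace Pool.Agent.RefG

theorem lin_eval {A : Type} [CommRing A] {n : ℕ} (S : Matrix (Fin (n + 1)) (Fin (n + 1)) A)
    (F : Fin (n + 1) → A) (P : MvPolynomial (Fin (n + 1)) A) :
    eval F (lin S P) = eval (S.mulVec F) P := by
  have h := eval₂Hom_bind₁ (RingHom.id A) F (fun j => ∑ l, C (S j l) * X l) P
  refine h.trans ?_
  have e : (fun i => (eval₂Hom (RingHom.id A) F)
      (∑ l, C (S i l) * X l : MvPolynomial (Fin (n + 1)) A)) = S.mulVec F := by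
    funext i
    simp [Matrix.mulVec, dotProduct]
  rw [e]
  rfl

theorem lin_hom {A : Type} [CommRing A] {n N : ℕ} (S : Matrix (Fin (n + 1)) (Fin (n + 1)) A)
    {P : MvPolynomial (Fin (n + 1)) A} (hP : P.IsHomogeneous N) : (lin S P).IsHomogeneous N := by
  have h : (lin S P).IsHomogeneous (1 * N) := by
    unfold lin bind₁
    exact hP.aeval _ (fun j => IsHomogeneous.sum _ _ _ fun l _ => isHomogeneous_C_mul_X _ _)
  rwa [one_mul] at h

theorem lin_lin {A : Type} [CommRing A] {n : ℕ} (S T : Matrix (Fin (n + 1)) (Fin (n + 1)) A)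
    (P : MvPolynomial (Fin (n + 1)) A) : lin S (lin T P) = lin (T * S) P := by
  unfold lin
  rw [bind₁_bind₁]
  congr 1
  congr 1
  funext j
  rw [map_sum]
  have h1 : ∀ l, (bind₁ fun j => ∑ l, C (S j l) * X l) (C (T j l) * X l) =
      ∑ m, C (T j l * S l m) * (X m : MvPolynomial (Fin (n + 1)) A) := by
    intro l
    rw [map_mul, bind₁_C_right, bind₁_X_right, Finset.mul_sum]
    refine Finset.sum_congr rfl fun m _ => ?_
    rw [C_mul, mul_assoc]
  simp_rw [h1]
  rw [Finset.sum_comm]
  refine Finset.sum_congr rfl fun m _ => ?_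
  rw [Matrix.mul_apply, map_sum, Finset.sum_mul]

theorem Lin_expo_apply {n N : ℕ} (i : Idx n N) (j : Fin (n + 1)) : expo i j = (i.1 j : ℕ) := rfl

theorem Lin_expo_degree {n N : ℕ} (i : Idx n N) : (expo i).degree = N := by
  rw [Finsupp.degree_eq_sum]
  exact i.2

theorem Lin_expo_injective {n N : ℕ} : Function.Injective (expo : Idx n N → _) := by
  intro i i' h
  apply Subtype.ext
  funext j
  apply Fin.ext
  exact DFunLike.congr_fun h j

theorem Lin_exists_idx {n N : ℕ} (d : Fin (n + 1) →₀ ℕ) (hd : d.degree = N) :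
    ∃ i : Idx n N, expo i = d := by
  rw [Finsupp.degree_eq_sum] at hd
  have hle : ∀ j, d j < N + 1 := by
    intro j
    rw [← hd]
    exact Nat.lt_succ_of_le (Finset.single_le_sum (f := fun j => d j) (fun _ _ => Nat.zero_le _)
      (Finset.mem_univ j))
  refine ⟨⟨fun j => ⟨d j, hle j⟩, hd⟩, ?_⟩
  ext j
  rfl

theorem Lin_mult_le {n N : ℕ} (μ : Fin (n + 1) →₀ ℕ) (i : Idx n N) : mult μ i • μ ≤ expo i :=
  Nat.findGreatest_spec (P := fun b => b • μ ≤ expo i) (Nat.zero_le N)
    (by rw [zero_smul]; exact zero_le)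

theorem Lin_homog_eq_sum {A : Type} [CommRing A] {n N : ℕ} {p : MvPolynomial (Fin (n + 1)) A}
    (hp : p.IsHomogeneous N) : p = ∑ i : Idx n N, monomial (expo i) (p.coeff (expo i)) := by
  ext d
  rw [coeff_sum]
  by_cases hd : d.degree = N
  · obtain ⟨ν, rfl⟩ := Lin_exists_idx d hd
    rw [Finset.sum_eq_single ν]
    · rw [coeff_monomial, if_pos rfl]
    · intro μ _ hμ
      rw [coeff_monomial, if_neg]
      intro h
      exact hμ (Lin_expo_injective h)
    · intro h
      exact absurd (Finset.mem_univ ν) h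
  · rw [hp.coeff_eq_zero hd, Finset.sum_eq_zero]
    intro μ _
    rw [coeff_monomial, if_neg]
    rintro rfl
    exact hd (Lin_expo_degree μ)

theorem rowP_hom {A : Type} [CommRing A] {n D N : ℕ} {Φ : MvPolynomial (Fin (n + 1)) A}
    (hΦ : Φ.IsHomogeneous D) {μ : Fin (n + 1) →₀ ℕ} (hμ : μ.degree = D) (i : Idx n N) :
    (rowP Φ μ i).IsHomogeneous N := by
  have hle := Lin_mult_le μ i
  have hd : (expo i).degree = N := Lin_expo_degree i
  have hdd : (expo i - mult μ i • μ).degree + mult μ i * D = N := by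
    have h : (expo i - mult μ i • μ) + mult μ i • μ = expo i := tsub_add_cancel_of_le hle
    have h2 := congrArg Finsupp.degree h
    rw [map_add, map_nsmul, hd, hμ, smul_eq_mul] at h2
    exact h2
  have h1 : (Φ ^ mult μ i).IsHomogeneous (D * mult μ i) := hΦ.pow _
  have h2 : (monomial (expo i - mult μ i • μ) (1 : A)).IsHomogeneous
      (expo i - mult μ i • μ).degree := isHomogeneous_monomial _ rfl
  have h3 := h1.mul h2
  have h4 : D * mult μ i + (expo i - mult μ i • μ).degree = N := by
    rw [mul_comm D, add_comm]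
    exact hdd
  rw [h4] at h3
  exact h3

theorem rowM_mulVec {A : Type} [CommRing A] {n D N : ℕ} {Φ : MvPolynomial (Fin (n + 1)) A}
    (hΦ : Φ.IsHomogeneous D) {μ : Fin (n + 1) →₀ ℕ} (hμ : μ.degree = D)
    (T : Matrix (Fin (n + 1)) (Fin (n + 1)) A) (F : Fin (n + 1) → A) (i : Idx n N) :
    (rowM Φ μ T N).mulVec (vero N F) i =
      eval (T.mulVec F) Φ ^ mult μ i * ∏ j, T.mulVec F j ^ (expo i j - mult μ i * μ j) := by
  have hh : (lin T (rowP Φ μ i)).IsHomogeneous N := lin_hom T (rowP_hom hΦ hμ i)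
  have h1 : (rowM Φ μ T N).mulVec (vero N F) i = eval F (lin T (rowP Φ μ i)) := by
    conv_rhs => rw [Lin_homog_eq_sum hh]
    rw [map_sum, Matrix.mulVec, dotProduct]
    refine Finset.sum_congr rfl fun ν _ => ?_
    rw [eval_monomial, Finsupp.prod_fintype _ _ (fun i => pow_zero _)]
    rfl
  rw [h1, lin_eval, rowP, map_mul, map_pow, eval_monomial, one_mul,
    Finsupp.prod_fintype _ _ (fun i => pow_zero _)]
  rfl

theorem rowM_det {A : Type} [Field A] {n D N : ℕ} {Φ : MvPolynomial (Fin (n + 1)) A}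
    (hΦ : Φ.IsHomogeneous D) {μ : Fin (n + 1) →₀ ℕ} (hμ : μ.degree = D)
    (hli : LinearIndependent A (fun i : Idx n N => rowP Φ μ i))
    {T : Matrix (Fin (n + 1)) (Fin (n + 1)) A} (hT : T.det ≠ 0) : (rowM Φ μ T N).det ≠ 0 := by
  intro h0
  obtain ⟨v, hv, hv0⟩ := Matrix.exists_vecMul_eq_zero_iff.mpr h0
  set P : MvPolynomial (Fin (n + 1)) A := ∑ i, v i • rowP Φ μ i with hP
  have hPh : P.IsHomogeneous N := by
    rw [hP]
    refine IsHomogeneous.sum _ _ _ fun i _ => ?_
    rw [smul_eq_C_mul]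
    have h := (isHomogeneous_C (Fin (n + 1)) (v i)).mul (rowP_hom hΦ hμ i)
    rwa [zero_add] at h
  have h1 : lin T P = 0 := by
    rw [Lin_homog_eq_sum (lin_hom T hPh)]
    refine Finset.sum_eq_zero fun i' _ => ?_
    have h2 : (lin T P).coeff (expo i') = 0 := by
      rw [hP, map_sum, coeff_sum]
      have h3 := congrFun hv0 i'
      rw [Matrix.vecMul, dotProduct] at h3
      refine Eq.trans ?_ h3
      refine Finset.sum_congr rfl fun i _ => ?_
      rw [map_smul, coeff_smul, smul_eq_mul]
      rfl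
    rw [h2, monomial_zero]
  have h4 : P = 0 := by
    have h5 := lin_lin T⁻¹ T P
    rw [h1, map_zero, Matrix.mul_nonsing_inv T (Ne.isUnit hT)] at h5
    have h6 : lin (1 : Matrix (Fin (n + 1)) (Fin (n + 1)) A) P = P := by
      unfold lin
      have h7 : (fun j => ∑ l, C ((1 : Matrix (Fin (n + 1)) (Fin (n + 1)) A) j l) * X l) =
          (X : Fin (n + 1) → MvPolynomial (Fin (n + 1)) A) := by
        funext j
        rw [Finset.sum_eq_single j]
        · rw [Matrix.one_apply_eq, C_1, one_mul]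
        · intro l _ hl
          rw [Matrix.one_apply_ne (Ne.symm hl), C_0, zero_mul]
        · intro h
          exact absurd (Finset.mem_univ j) h
      rw [h7, bind₁_X_left]
      rfl
    rw [h6] at h5
    exact h5.symm
  have h8 := Fintype.linearIndependent_iff.mp hli v (by rw [← hP]; exact h4)
  exact hv (funext h8)

end Pool.Agent.RefG
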