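import Pool.Agent.RefG.Defs
import Pool.Agent.RefG.Expand
import Pool.Agent.RefG.Sort
import Pool.Agent.RefG.Lin
import Pool.Agent.RefG.Hermite

/-!
RG10. The discriminant, in the coordinates attached to `τ`, contains a monomial of small weight.
Work in the field `H = HahnSeries ℝ A` with its valuation `v` (`HahnSeries.addVal` / `orderTop`). Put
`c l = l + 1 ∈ A` (distinct, nonzero), `u l = single (lam l) (c l)`, and the linear forms
`α l X + β l` with `α l = 1`, `β l = -(C z + u l)` if `τ l = z`, and `α l = u l`, `β l = -1` if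
`τ l = ∞`. Let `F` be the coefficients of their product. Then `Fac F a x` with `a = ∏ α l`,
`x l = - β l / α l`, and `a ^ (2n-2) ∏_l ∏_{l' ≠ l} (x l - x l') = ∏_l ∏_{l' ≠ l}
(β l' * α l - β l * α l')`, where the factor has valuation `min (lam l) (lam l')` if `τ l = τ l'` (it is
`± (u l - u l')`) and `0` if not (its coefficient at `0` is `z - z'` or `± 1`; here `lam > 0` is used).
So by `IsDisc.eval` the value `aeval F Φ` has valuation `offT τ lam`. On the other hand it is the value
of `Ψ = lin (matT τ)⁻¹ Φ` at the vector `Z = matT τ F` (`lin_eval` over `H`, `matT_det`), and `v (Z m) ≥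
wS τ lam m`: for `m < n` by `rowT_prod` over `H` (at the point `C z` or `∞`) each term has valuation `≥`
the sum of `lam l` over `l ∉ J`, `τ l = τ m` (`v (vl) = lam l` for these, all other factors have
valuation `≥ 0`), which is `≥ wS τ lam m` by `sum_sdiff_ge` as `|J| = rk τ m`; for `m = n` it is `≥ 0`.
If all exponents `ν` of `Ψ` had `wt (wS τ lam) ν > offT τ lam`, then `v (aeval F Φ) > offT τ lam`.
-/

open MvPolynomial NumberField
open scoped Classical

namespace Pool.Agent.RefG

section Val

variable {A : Type} [Field A]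

private noncomputable abbrev vH (A : Type) [Field A] :
    AddValuation (HahnSeries ℝ A) (WithTop ℝ) := HahnSeries.addVal ℝ A

private theorem vH_prod {ι : Type} (s : Finset ι) (f : ι → HahnSeries ℝ A) (w : ι → ℝ)
    (h : ∀ i ∈ s, vH A (f i) = ((w i : ℝ) : WithTop ℝ)) :
    vH A (∏ i ∈ s, f i) = ((∑ i ∈ s, w i : ℝ) : WithTop ℝ) := by
  induction s using Finset.induction_on with
  | empty => rw [Finset.prod_empty, Finset.sum_empty, AddValuation.map_one]; rfl
  | insert a s ha ih =>
    rw [Finset.prod_insert ha, Finset.sum_insert ha, AddValuation.map_mul,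
      h a (Finset.mem_insert_self a s), ih fun i hi => h i (Finset.mem_insert_of_mem hi),
      WithTop.coe_add]

private theorem vH_prod_ge {ι : Type} (s : Finset ι) (f : ι → HahnSeries ℝ A) (w : ι → ℝ)
    (h : ∀ i ∈ s, ((w i : ℝ) : WithTop ℝ) ≤ vH A (f i)) :
    ((∑ i ∈ s, w i : ℝ) : WithTop ℝ) ≤ vH A (∏ i ∈ s, f i) := by
  induction s using Finset.induction_on with
  | empty => rw [Finset.prod_empty, Finset.sum_empty, AddValuation.map_one]; exact le_rfl
  | insert a s ha ih =>
    rw [Finset.prod_insert ha, Finset.sum_insert ha, AddValuation.map_mul, WithTop.coe_add]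
    exact add_le_add (h a (Finset.mem_insert_self a s))
      (ih fun i hi => h i (Finset.mem_insert_of_mem hi))

private theorem vH_pow_ge (f : HahnSeries ℝ A) (w : ℝ) (h : (w : WithTop ℝ) ≤ vH A f) (k : ℕ) :
    ((w * k : ℝ) : WithTop ℝ) ≤ vH A (f ^ k) := by
  have h1 := vH_prod_ge (Finset.range k) (fun _ => f) (fun _ => w) fun _ _ => h
  rw [Finset.prod_const, Finset.card_range, Finset.sum_const, Finset.card_range,
    nsmul_eq_mul, mul_comm] at h1
  exact h1

private theorem vH_C_ge (a : A) : (0 : WithTop ℝ) ≤ vH A (HahnSeries.C a) := by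
  rw [HahnSeries.addVal_apply]
  exact HahnSeries.orderTop_single_le

private theorem vH_C {a : A} (ha : a ≠ 0) : vH A (HahnSeries.C a) = 0 := by
  rw [HahnSeries.addVal_apply]
  exact HahnSeries.orderTop_single ha

variable {n : ℕ} (τ : Fin n → OnePoint A) (lam : Fin n → ℝ)

private noncomputable def uu (A : Type) [Field A] {n : ℕ} (lam : Fin n → ℝ) (l : Fin n) :
    HahnSeries ℝ A := HahnSeries.single (lam l) (((l : ℕ) : A) + 1)

private theorem vH_uu [CharZero A] (l : Fin n) : vH A (uu A lam l) = ((lam l : ℝ) : WithTop ℝ) := by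
  rw [HahnSeries.addVal_apply]
  exact HahnSeries.orderTop_single (Nat.cast_add_one_ne_zero _)

private theorem vH_uu_sub [CharZero A] {l l' : Fin n} (h : l ≠ l') :
    vH A (uu A lam l - uu A lam l') = ((min (lam l) (lam l') : ℝ) : WithTop ℝ) := by
  rcases lt_trichotomy (lam l) (lam l') with h1 | h1 | h1
  · rw [AddValuation.map_sub_eq_of_lt_left, vH_uu, min_eq_left h1.le]
    rw [vH_uu, vH_uu]
    exact WithTop.coe_lt_coe.2 h1
  · have e : uu A lam l - uu A lam l' =
        HahnSeries.single (lam l) ((((l : ℕ) : A) + 1) - (((l' : ℕ) : A) + 1)) := by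
      rw [uu, uu, ← h1, ← HahnSeries.single_sub]
    rw [e, HahnSeries.addVal_apply, ← h1, min_self]
    refine HahnSeries.orderTop_single ?_
    intro h2
    apply h
    have h3 : ((l : ℕ) : A) = ((l' : ℕ) : A) := by linear_combination h2
    exact Fin.ext (Nat.cast_injective h3)
  · rw [AddValuation.map_sub_eq_of_lt_right, vH_uu, min_eq_right h1.le]
    rw [vH_uu, vH_uu]
    exact WithTop.coe_lt_coe.2 h1

private noncomputable def al (l : Fin n) : HahnSeries ℝ A :=
  match τ l with
  | OnePoint.infty => uu A lam l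
  | OnePoint.some _ => 1

private noncomputable def be (l : Fin n) : HahnSeries ℝ A :=
  match τ l with
  | OnePoint.infty => -1
  | OnePoint.some z => -(HahnSeries.C z + uu A lam l)

private theorem al_infty {l : Fin n} (h : τ l = OnePoint.infty) : al τ lam l = uu A lam l := by
  simp only [al, h]

private theorem al_some {l : Fin n} {z : A} (h : τ l = OnePoint.some z) : al τ lam l = 1 := by
  simp only [al, h]

private theorem be_infty {l : Fin n} (h : τ l = OnePoint.infty) : be τ lam l = -1 := by
  simp only [be, h]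

private theorem be_some {l : Fin n} {z : A} (h : τ l = OnePoint.some z) :
    be τ lam l = -(HahnSeries.C z + uu A lam l) := by
  simp only [be, h]

omit [Field A] in
private theorem cases_pt (θ : OnePoint A) : θ = OnePoint.infty ∨ ∃ z : A, θ = OnePoint.some z := by
  induction θ using OnePoint.rec with
  | infty => exact Or.inl rfl
  | coe z => exact Or.inr ⟨z, rfl⟩

private theorem vH_factor [CharZero A] (hpos : ∀ l, 0 < lam l) {l l' : Fin n} (h : l ≠ l') :
    vH A (be τ lam l' * al τ lam l - be τ lam l * al τ lam l') =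
      (((if τ l = τ l' then min (lam l) (lam l') else 0 : ℝ)) : WithTop ℝ) := by
  have hu : ∀ l, (0 : WithTop ℝ) < vH A (uu A lam l) := fun l => by
    rw [vH_uu]; exact WithTop.coe_lt_coe.2 (hpos l)
  rcases cases_pt (τ l) with h1 | ⟨z, h1⟩ <;> rcases cases_pt (τ l') with h2 | ⟨z', h2⟩
  · rw [if_pos (h1.trans h2.symm), al_infty τ lam h1, al_infty τ lam h2, be_infty τ lam h1,
      be_infty τ lam h2]
    have e : -1 * uu A lam l - -1 * uu A lam l' = uu A lam l' - uu A lam l := by ring
    rw [e, vH_uu_sub lam h.symm, min_comm]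
  · rw [if_neg (by rw [h1, h2]; exact (OnePoint.coe_ne_infty z').symm), al_infty τ lam h1,
      al_some τ lam h2, be_infty τ lam h1, be_some τ lam h2]
    have e : -(HahnSeries.C z' + uu A lam l') * uu A lam l - -1 * 1 =
        1 - (HahnSeries.C z' + uu A lam l') * uu A lam l := by ring
    rw [e, AddValuation.map_sub_eq_of_lt_left, AddValuation.map_one]
    · rfl
    · rw [AddValuation.map_one, AddValuation.map_mul]
      have h3 : (0 : WithTop ℝ) ≤ vH A (HahnSeries.C z' + uu A lam l') :=
        AddValuation.map_le_add _ (vH_C_ge z') (hu l').le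
      exact lt_of_lt_of_le (hu l) (le_add_of_nonneg_left h3)
  · rw [if_neg (by rw [h1, h2]; exact OnePoint.coe_ne_infty z), al_infty τ lam h2,
      al_some τ lam h1, be_infty τ lam h2, be_some τ lam h1]
    have e : -1 * 1 - -(HahnSeries.C z + uu A lam l) * uu A lam l' =
        (HahnSeries.C z + uu A lam l) * uu A lam l' - 1 := by ring
    rw [e, AddValuation.map_sub_eq_of_lt_right, AddValuation.map_one]
    · rfl
    · rw [AddValuation.map_one, AddValuation.map_mul]
      have h3 : (0 : WithTop ℝ) ≤ vH A (HahnSeries.C z + uu A lam l) :=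
        AddValuation.map_le_add _ (vH_C_ge z) (hu l).le
      exact lt_of_lt_of_le (hu l') (le_add_of_nonneg_left h3)
  · rw [al_some τ lam h1, al_some τ lam h2, be_some τ lam h1, be_some τ lam h2]
    by_cases hz : z = z'
    · subst hz
      rw [if_pos (h1.trans h2.symm)]
      have e : -(HahnSeries.C z + uu A lam l') * 1 - -(HahnSeries.C z + uu A lam l) * 1 =
          uu A lam l - uu A lam l' := by ring
      rw [e, vH_uu_sub lam h]
    · rw [if_neg (by rw [h1, h2]; exact fun h3 => hz (OnePoint.coe_injective h3))]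
      have e : -(HahnSeries.C z' + uu A lam l') * 1 - -(HahnSeries.C z + uu A lam l) * 1 =
          HahnSeries.C (z - z') + (uu A lam l - uu A lam l') := by
        rw [map_sub]; ring
      rw [e, AddValuation.map_add_eq_of_lt_left, vH_C (sub_ne_zero.2 hz)]
      · rfl
      · rw [vH_C (sub_ne_zero.2 hz), vH_uu_sub lam h]
        exact WithTop.coe_lt_coe.2 (lt_min (hpos l) (hpos l'))

private theorem vH_disc [CharZero A] (hpos : ∀ l, 0 < lam l) :
    vH A (∏ l, ∏ l' ∈ Finset.univ.erase l,
      (be τ lam l' * al τ lam l - be τ lam l * al τ lam l')) =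
      ((offT τ lam : ℝ) : WithTop ℝ) := by
  refine vH_prod _ _ _ fun l _ => vH_prod _ _ _ fun l' hl' => ?_
  exact vH_factor τ lam hpos (Finset.ne_of_mem_erase hl').symm

private theorem al_ne [CharZero A] (l : Fin n) : al τ lam l ≠ 0 := by
  rcases cases_pt (τ l) with h1 | ⟨z, h1⟩
  · rw [al_infty τ lam h1]
    exact HahnSeries.single_ne_zero (Nat.cast_add_one_ne_zero _)
  · rw [al_some τ lam h1]
    exact one_ne_zero

end Val

private theorem disc_id {H : Type} [Field H] {n : ℕ} (hn : 0 < n) (α β : Fin n → H)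
    (hα : ∀ l, α l ≠ 0) :
    (∏ l, α l) ^ (2 * n - 2) * ∏ l, ∏ l' ∈ Finset.univ.erase l, (-β l / α l - -β l' / α l') =
      ∏ l, ∏ l' ∈ Finset.univ.erase l, (β l' * α l - β l * α l') := by
  have h1 : ∏ l, ∏ l' ∈ Finset.univ.erase l, (α l * α l') = (∏ l, α l) ^ (2 * n - 2) := by
    have e1 : ∏ l : Fin n, ∏ l' ∈ Finset.univ.erase l, (α l * α l') =
        (∏ l : Fin n, ∏ l' ∈ Finset.univ.erase l, α l) *
          ∏ l : Fin n, ∏ l' ∈ Finset.univ.erase l, α l' := by
      rw [← Finset.prod_mul_distrib]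
      exact Finset.prod_congr rfl fun l _ => Finset.prod_mul_distrib
    have e2 : ∏ l : Fin n, ∏ l' ∈ Finset.univ.erase l, α l = (∏ l, α l) ^ (n - 1) := by
      rw [← Finset.prod_pow]
      refine Finset.prod_congr rfl fun l _ => ?_
      rw [Finset.prod_const, Finset.card_erase_of_mem (Finset.mem_univ l), Finset.card_univ,
        Fintype.card_fin]
    have e3 : ∏ l : Fin n, ∏ l' ∈ Finset.univ.erase l, α l' =
        ∏ l' : Fin n, ∏ l ∈ Finset.univ.erase l', α l' := by
      refine Finset.prod_comm' fun x y => ?_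
      simp only [Finset.mem_univ, true_and, and_true, Finset.mem_erase, ne_eq]
      exact ⟨fun h => fun h' => h h'.symm, fun h => fun h' => h h'.symm⟩
    rw [e1, e3, e2, ← pow_add]
    congr 1
    omega
  rw [← h1, ← Finset.prod_mul_distrib]
  refine Finset.prod_congr rfl fun l _ => ?_
  rw [← Finset.prod_mul_distrib]
  refine Finset.prod_congr rfl fun l' _ => ?_
  have := hα l
  have := hα l'
  field_simp
  ring

private theorem fac_id {H : Type} [Field H] {n : ℕ} (α β : Fin n → H)
    (hα : ∀ l, α l ≠ 0) : ∏ l, (Polynomial.C (α l) * Polynomial.X + Polynomial.C (β l)) =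
      Polynomial.C (∏ l, α l) * ∏ l, (Polynomial.X - Polynomial.C (-β l / α l)) := by
  rw [map_prod, ← Finset.prod_mul_distrib]
  refine Finset.prod_congr rfl fun l _ => ?_
  rw [mul_sub, ← map_mul, mul_div_cancel₀ _ (hα l), map_neg, sub_neg_eq_add]

private theorem coeff_id {H : Type} [Field H] {n : ℕ} (α β : Fin n → H) :
    ∑ i : Fin (n + 1), Polynomial.C
        ((∏ l, (Polynomial.C (α l) * Polynomial.X + Polynomial.C (β l))).coeff i) *
          Polynomial.X ^ (i : ℕ) =
      ∏ l, (Polynomial.C (α l) * Polynomial.X + Polynomial.C (β l)) := by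
  set P := ∏ l, (Polynomial.C (α l) * Polynomial.X + Polynomial.C (β l)) with hP
  have hdeg : P.natDegree < n + 1 := by
    have h1 : P.natDegree ≤ ∑ _l : Fin n, 1 := by
      refine (Polynomial.natDegree_prod_le _ _).trans (Finset.sum_le_sum fun l _ => ?_)
      exact Polynomial.natDegree_linear_le
    simp only [Finset.sum_const, Finset.card_univ, Fintype.card_fin, smul_eq_mul, mul_one] at h1
    omega
  rw [Fin.sum_univ_eq_sum_range (fun i => Polynomial.C (P.coeff i) * Polynomial.X ^ i) (n + 1)]
  exact (Polynomial.as_sum_range_C_mul_X_pow' P hdeg).symm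

section Coord

variable {A : Type} [Field A] [CharZero A] {n : ℕ} (τ : Fin n → OnePoint A) (lam : Fin n → ℝ)

/-- the coefficients of the product -/
private noncomputable def FF (i : Fin (n + 1)) : HahnSeries ℝ A :=
  (∏ l, (Polynomial.C (al τ lam l) * Polynomial.X + Polynomial.C (be τ lam l))).coeff i

omit [CharZero A] in
private theorem FF_prod : ∑ i : Fin (n + 1), Polynomial.C (FF τ lam i) * Polynomial.X ^ (i : ℕ) =
    ∏ l, (Polynomial.C (al τ lam l) * Polynomial.X + Polynomial.C (be τ lam l)) :=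
  coeff_id (al τ lam) (be τ lam)

/-- the valuation of the discriminant -/
private theorem vH_Phi (hn : 0 < n) {Φ : MvPolynomial (Fin (n + 1)) ℤ} (hΦ : IsDisc n Φ)
    (hpos : ∀ l, 0 < lam l) :
    vH A (eval₂ (Int.castRingHom (HahnSeries ℝ A)) (FF τ lam) Φ) =
      ((offT τ lam : ℝ) : WithTop ℝ) := by
  have hgen : ∀ (L : Type) [Field L] (F : Fin (n + 1) → L),
      aeval F Φ = eval₂ (Int.castRingHom L) F Φ := fun L _ F => by
    rw [aeval_def, algebraMap_int_eq]
  have : CharZero (HahnSeries ℝ A) := by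
    refine ⟨fun a b h => ?_⟩
    have h1 := congrArg (fun s : HahnSeries ℝ A => s.coeff 0) h
    have h2 : ∀ m : ℕ, ((m : HahnSeries ℝ A)).coeff 0 = (m : A) := by
      intro m
      rw [← map_natCast (HahnSeries.C : A →+* HahnSeries ℝ A) m, HahnSeries.C_apply,
        HahnSeries.coeff_single_same]
    simp only [h2] at h1
    exact Nat.cast_injective h1
  have hne := al_ne τ lam
  have h1 := hΦ.eval (HahnSeries ℝ A) (FF τ lam) (∏ l, al τ lam l)
    (fun l => -be τ lam l / al τ lam l) (Finset.prod_ne_zero_iff.2 fun l _ => hne l)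
    (by rw [Fac, FF_prod, fac_id _ _ hne])
  rw [disc_id hn _ _ hne, hgen] at h1
  rcases sq_eq_sq_iff_eq_or_eq_neg.1 h1 with h2 | h2
  · rw [h2, vH_disc τ lam hpos]
  · rw [h2, AddValuation.map_neg, vH_disc τ lam hpos]

omit [CharZero A] in
private theorem lin_one (P : MvPolynomial (Fin (n + 1)) A) :
    lin (1 : Matrix (Fin (n + 1)) (Fin (n + 1)) A) P = P := by
  have h1 : (fun j : Fin (n + 1) => ∑ l, C ((1 : Matrix (Fin (n + 1)) (Fin (n + 1)) A) j l) *
      (X l : MvPolynomial (Fin (n + 1)) A)) = X := by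
    funext j
    simp [Matrix.one_apply]
  rw [lin, h1, bind₁_X_left, AlgHom.id_apply]

/-- the vector of the coordinates -/
private noncomputable def ZZ (j : Fin (n + 1)) : HahnSeries ℝ A :=
  ∑ l, HahnSeries.C (matT τ j l) * FF τ lam l

private theorem aeval_eq (Φ : MvPolynomial (Fin (n + 1)) ℤ) :
    eval₂ (Int.castRingHom (HahnSeries ℝ A)) (FF τ lam) Φ =
      eval₂ HahnSeries.C (ZZ τ lam)
        (lin (matT τ)⁻¹ (MvPolynomial.map (Int.castRingHom A) Φ)) := by
  have hdet : IsUnit (matT τ).det := isUnit_iff_ne_zero.2 (matT_det τ)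
  have h1 : lin (matT τ) (lin (matT τ)⁻¹ (MvPolynomial.map (Int.castRingHom A) Φ)) =
      MvPolynomial.map (Int.castRingHom A) Φ := by
    rw [lin_lin, Matrix.nonsing_inv_mul _ hdet, lin_one]
  have h2 : eval₂ (Int.castRingHom (HahnSeries ℝ A)) (FF τ lam) Φ =
      eval₂ HahnSeries.C (FF τ lam) (MvPolynomial.map (Int.castRingHom A) Φ) := by
    rw [eval₂_map]
    congr 1
  rw [h2]
  conv_lhs => rw [← h1]
  have h4 : ∀ P : MvPolynomial (Fin (n + 1)) A, eval₂ HahnSeries.C (FF τ lam)
      (lin (matT τ) P) = eval₂ HahnSeries.C (ZZ τ lam) P := by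
    intro P
    have h5 := eval₂Hom_bind₁ (HahnSeries.C : A →+* HahnSeries ℝ A) (FF τ lam)
      (fun j => ∑ l, C (matT τ j l) * (X l : MvPolynomial (Fin (n + 1)) A)) P
    have h3 : (fun i => eval₂Hom (HahnSeries.C : A →+* HahnSeries ℝ A) (FF τ lam)
        (∑ l, C (matT τ i l) * (X l : MvPolynomial (Fin (n + 1)) A))) = ZZ τ lam := by
      funext i
      rw [map_sum]
      refine Finset.sum_congr rfl fun l _ => ?_
      rw [map_mul, eval₂Hom_C, eval₂Hom_X']
    rw [h3] at h5
    exact h5
  rw [h4]

/-- the point over the field of Hahn series -/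
private noncomputable def cpt (θ : OnePoint A) : OnePoint (HahnSeries ℝ A) :=
  match θ with
  | OnePoint.infty => OnePoint.infty
  | OnePoint.some z => OnePoint.some (HahnSeries.C z)

omit [CharZero A] in
private theorem cast_rowT (θ : OnePoint A) (j : ℕ) (i : Fin (n + 1)) :
    (HahnSeries.C (rowT θ j i) : HahnSeries ℝ A) =
      rowT (cpt θ) j i := by
  rcases cases_pt θ with rfl | ⟨z, rfl⟩
  · simp only [rowT, cpt]
    split_ifs <;> simp
  · simp only [rowT, cpt]
    rw [map_mul, map_natCast, map_pow]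

/-- lower bound for the coordinates -/
private theorem Z_bound (hpos : ∀ l, 0 < lam l) (θ : OnePoint A) (j : ℕ) (w : ℝ)
    (hw : ∀ J : Finset (Fin n), J.card = j →
      w ≤ ∑ l ∈ (Finset.univ.filter fun l => τ l = θ) \ J, lam l) :
    (w : WithTop ℝ) ≤ vH A (∑ i, HahnSeries.C (rowT θ j i) * FF τ lam i) := by
  have hu : ∀ l, (0 : WithTop ℝ) ≤ vH A (uu A lam l) := fun l => by
    rw [vH_uu]; exact WithTop.coe_le_coe.2 (hpos l).le
  simp only [cast_rowT]
  rw [rowT_prod (FF τ lam) (al τ lam) (be τ lam) (FF_prod τ lam)]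
  refine AddValuation.map_le_sum _ fun J hJ => ?_
  rw [Finset.mem_powersetCard] at hJ
  have hal : ∀ l, (0 : WithTop ℝ) ≤ vH A (al τ lam l) := by
    intro l
    rcases cases_pt (τ l) with h1 | ⟨z, h1⟩
    · rw [al_infty τ lam h1]; exact hu l
    · rw [al_some τ lam h1, AddValuation.map_one]
  have hbe : ∀ l, (0 : WithTop ℝ) ≤ vH A (be τ lam l) := by
    intro l
    rcases cases_pt (τ l) with h1 | ⟨z, h1⟩
    · rw [be_infty τ lam h1, AddValuation.map_neg, AddValuation.map_one]
    · rw [be_some τ lam h1, AddValuation.map_neg]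
      exact AddValuation.map_le_add _ (vH_C_ge z) (hu l)
  rw [AddValuation.map_mul]
  have h1 : (0 : WithTop ℝ) ≤ vH A (∏ l ∈ J, dv (cpt θ) (al τ lam l) (be τ lam l)) := by
    have h2 := vH_prod_ge J (fun l => dv (cpt θ) (al τ lam l) (be τ lam l))
        (fun _ => 0) (fun l _ => by
          rcases cases_pt θ with rfl | ⟨z, rfl⟩
          · exact hbe l
          · exact hal l)
    rw [Finset.sum_const_zero] at h2
    exact h2
  have h2 : ((∑ l ∈ Jᶜ, (if τ l = θ then lam l else 0) : ℝ) : WithTop ℝ) ≤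
      vH A (∏ l ∈ Jᶜ, vl (cpt θ) (al τ lam l) (be τ lam l)) := by
    refine vH_prod_ge Jᶜ _ _ fun l _ => ?_
    rcases cases_pt θ with rfl | ⟨z, rfl⟩
    · change _ ≤ vH A (al τ lam l)
      split_ifs with h3
      · rw [al_infty τ lam h3, vH_uu]
      · exact hal l
    · change _ ≤ vH A (al τ lam l * HahnSeries.C z + be τ lam l)
      rcases cases_pt (τ l) with h1 | ⟨z', h1⟩
      · rw [if_neg (by rw [h1]; exact (OnePoint.coe_ne_infty z).symm)]
        refine AddValuation.map_le_add _ ?_ (hbe l)
        rw [AddValuation.map_mul]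
        exact add_nonneg (hal l) (vH_C_ge z)
      · split_ifs with h3
        · rw [al_some τ lam h3, be_some τ lam h3]
          have e : 1 * HahnSeries.C z + -(HahnSeries.C z + uu A lam l) = -uu A lam l := by ring
          rw [e, AddValuation.map_neg, vH_uu]
        · refine AddValuation.map_le_add _ ?_ (hbe l)
          rw [AddValuation.map_mul]
          exact add_nonneg (hal l) (vH_C_ge z)
  have h3 : w ≤ ∑ l ∈ Jᶜ, (if τ l = θ then lam l else 0) := by
    refine (hw J hJ.2).trans (le_of_eq ?_)
    rw [← Finset.sum_filter]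
    refine Finset.sum_congr ?_ fun _ _ => rfl
    ext l
    simp only [Finset.mem_sdiff, Finset.mem_filter, Finset.mem_univ, true_and,
      Finset.mem_compl]
    exact and_comm
  calc (w : WithTop ℝ) ≤ ((∑ l ∈ Jᶜ, (if τ l = θ then lam l else 0) : ℝ) : WithTop ℝ) :=
        WithTop.coe_le_coe.2 h3
    _ = 0 + ((∑ l ∈ Jᶜ, (if τ l = θ then lam l else 0) : ℝ) : WithTop ℝ) := (zero_add _).symm
    _ ≤ _ := add_le_add h1 h2

private theorem ZZ_bound (hpos : ∀ l, 0 < lam l) (hanti : Antitone lam) (j : Fin (n + 1)) :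
    ((wS τ lam j : ℝ) : WithTop ℝ) ≤ vH A (ZZ τ lam j) := by
  induction j using Fin.lastCases with
  | last =>
    have h1 := Z_bound τ lam hpos OnePoint.infty
      (Finset.univ.filter fun l => τ l = OnePoint.infty).card 0
      (fun J _ => Finset.sum_nonneg fun l _ => (hpos l).le)
    have e1 : wS τ lam (Fin.last n) = 0 := by
      rw [wS, Fin.snoc_last]
    have e2 : ∀ i, matT τ (Fin.last n) i = rowT OnePoint.infty
        (Finset.univ.filter fun l => τ l = OnePoint.infty).card i := by
      intro i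
      rw [matT, Matrix.of_apply, Fin.snoc_last]
    rw [e1, ZZ]
    simp only [e2]
    exact h1
  | cast m =>
    have e1 : wS τ lam m.castSucc =
        ∑ l ∈ Finset.univ.filter (fun l => m ≤ l ∧ τ l = τ m), lam l := by
      rw [wS, Fin.snoc_castSucc]
    have e2 : ∀ i, matT τ m.castSucc i = rowT (τ m) (rk τ m) i := by
      intro i
      rw [matT, Matrix.of_apply, Fin.snoc_castSucc]
    have h1 := Z_bound τ lam hpos (τ m) (rk τ m) (wS τ lam m.castSucc) (fun J hJ => by
      have h2 := sum_sdiff_ge lam (fun l => (hpos l).le) hanti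
        (Finset.univ.filter fun l => τ l = τ m) J m (by
          rw [hJ, rk, Finset.filter_filter]
          refine le_of_eq (congrArg Finset.card ?_)
          ext l
          simp only [Finset.mem_filter, Finset.mem_univ, true_and]
          exact and_comm)
      refine le_trans (le_of_eq ?_) h2
      rw [e1, Finset.filter_filter]
      refine Finset.sum_congr ?_ fun _ _ => rfl
      ext l
      simp only [Finset.mem_filter, Finset.mem_univ, true_and]
      exact and_comm)
    rw [ZZ]
    simp only [e2]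
    exact h1

end Coord

theorem weight_le {A : Type} [Field A] [CharZero A] {n : ℕ} (hn : 0 < n)
    {Φ : MvPolynomial (Fin (n + 1)) ℤ} (hΦ : IsDisc n Φ) (τ : Fin n → OnePoint A)
    (lam : Fin n → ℝ) (hpos : ∀ l, 0 < lam l) (hanti : Antitone lam) :
    ∃ ν ∈ (lin (matT τ)⁻¹ (MvPolynomial.map (Int.castRingHom A) Φ)).support,
      wt (wS τ lam) ν ≤ offT τ lam := by
  by_contra hcon
  push Not at hcon
  have h1 := vH_Phi τ lam hn hΦ hpos
  rw [aeval_eq τ lam Φ, eval₂_eq'] at h1
  have h2 : ((offT τ lam : ℝ) : WithTop ℝ) < vH A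
      (∑ d ∈ (lin (matT τ)⁻¹ (MvPolynomial.map (Int.castRingHom A) Φ)).support,
        HahnSeries.C
          ((lin (matT τ)⁻¹ (MvPolynomial.map (Int.castRingHom A) Φ)).coeff d) *
          ∏ i, ZZ τ lam i ^ d i) := by
    refine AddValuation.map_lt_sum _ (WithTop.coe_ne_top) fun ν hν => ?_
    refine lt_of_lt_of_le (WithTop.coe_lt_coe.2 (hcon ν hν)) ?_
    rw [AddValuation.map_mul]
    have h3 := vH_prod_ge Finset.univ (fun i => ZZ τ lam i ^ ν i)
      (fun i => wS τ lam i * ν i) (fun i _ => vH_pow_ge _ _ (ZZ_bound τ lam hpos hanti i) _)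
    refine le_trans h3 (le_add_of_nonneg_left (vH_C_ge _))
  rw [h1] at h2
  exact lt_irrefl _ h2

end Pool.Agent.RefG
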