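import Pool.Agent.RefG.Defs
import Pool.Agent.RefG.Count
import Pool.Agent.RefG.Lead
import Pool.Agent.RefG.Lin
import Pool.Agent.RefG.Hermite
import Pool.Agent.RefG.Weight
import Pool.Agent.RefG.Coord
import Pool.Agent.RefG.Sort

/-!
RG12. The local estimate, for sorted points.
Let `M = ‖a‖ ∏ max 1 ‖x l‖ > 0`, `w = wS τ lam`, `Ψ = lin (matT τ)⁻¹ Φ` over `A`, `Z = matT τ F`,
`d = 2n - 2`, `c = card (Idx n N)`. `Ψ ≠ 0` (its support is nonempty by `weight_le`); `rowP_li` gives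
`μ` of minimal weight, `wt w μ ≤ offT τ lam` by `weight_le`; `rowM_det` with `matT_det` (`μ.degree = d`
as `Ψ` is homogeneous, `lin_hom`). Let `y = ‖eval Z Ψ‖ = ‖aeval F Φ‖` (`lin_eval`, `matT τ` invertible);
`y = ‖a‖ ^ d ∏∏ ‖x l - x l'‖` (`IsDisc.eval`, squares of nonnegative numbers), `y > 0`.
(1) `y ≤ C M ^ d exp (- conjLoc δ x)` by `hδ2` (`∏_l ∏_{l' ≠ l} max max = (∏ max) ^ (2 (n - 1))`; if some
`δ (x l) (x l')` were `0` then `x l = x l'`); (2) `y ≤ C M ^ d exp (- wt w μ)`: expand `eval Z Ψ`,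
`‖Z j‖ ≤ C M exp (- w j)` (`coord_le`) and minimality of `wt w μ`; finitely many `τ`, so `C` is uniform.
By `rowM_mulVec` the product is `y ^ B * ∏_i ∏_j ‖Z j‖ ^ (expo i j - mult μ i * μ j)`,
`B = ∑ i, mult μ i`, and `≤ C y ^ B M ^ (N c - d B) exp (- ∑_i wt w (expo i) + B wt w μ)`, and
`∑_i wt w (expo i) = (N c / (n + 1)) ∑ w j = (N c / (n+1)) (∑ lam + offT / 2)` (`sum_idx`, `sum_wS`).
Put `s = y M ^ (-d) exp (wt w μ)`, so the bound is `C M ^ (N c) s ^ B exp (- (N c / (n+1)) ∑ w j)`.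
With `κ = (1 - ε) N c / ((n + 1) d)`, `0 ≤ κ ≤ B` by `hN`, and `s ≤ C` by (2): `s ^ B ≤ C s ^ κ`, and
`s ≤ C exp (- conjLoc + wt w μ) ≤ C exp (- conjLoc + offT)` by (1). So `s ^ κ ≤ C exp (- κ (conjLoc -
offT))`. Collect the exponents.
-/

open MvPolynomial NumberField
open scoped Classical

namespace Pool.Agent.RefG

/-- The value of the form in the new coordinates is the value of the discriminant. -/
private lemma ls_eval {A : Type} [Field A] {n : ℕ} (T : Matrix (Fin (n + 1)) (Fin (n + 1)) A)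
    (hT : T.det ≠ 0) (Φ : MvPolynomial (Fin (n + 1)) ℤ) (F : Fin (n + 1) → A) :
    eval (T.mulVec F) (lin T⁻¹ (MvPolynomial.map (Int.castRingHom A) Φ)) = aeval F Φ := by
  rw [lin_eval, Matrix.mulVec_mulVec, Matrix.nonsing_inv_mul _ (isUnit_iff_ne_zero.2 hT),
    Matrix.one_mulVec, eval_map]
  rfl

private lemma ls_norm {A : Type} [NormedField A] [CharZero A] {n : ℕ}
    {Φ : MvPolynomial (Fin (n + 1)) ℤ} (hΦ : IsDisc n Φ) (F : Fin (n + 1) → A) (a : A)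
    (x : Fin n → A) (ha : a ≠ 0) (hF : Fac F a x) :
    ‖aeval F Φ‖ = ‖a‖ ^ (2 * n - 2) * ∏ l, ∏ l' ∈ Finset.univ.erase l, ‖x l - x l'‖ := by
  have h := hΦ.eval A F a x ha hF
  have h2 : ‖aeval F Φ‖ ^ 2 =
      (‖a‖ ^ (2 * n - 2) * ∏ l, ∏ l' ∈ Finset.univ.erase l, ‖x l - x l'‖) ^ 2 := by
    rw [← norm_pow, h, norm_pow, norm_mul, norm_pow, norm_prod]
    simp only [norm_prod]
  have h3 : 0 ≤ ‖a‖ ^ (2 * n - 2) * ∏ l, ∏ l' ∈ Finset.univ.erase l, ‖x l - x l'‖ := by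
    refine mul_nonneg (by positivity) ?_
    exact Finset.prod_nonneg fun l _ => Finset.prod_nonneg fun l' _ => norm_nonneg _
  exact (sq_eq_sq₀ (norm_nonneg _) h3).1 h2

private lemma ls_prod_fst {n : ℕ} (m : Fin n → ℝ) :
    ∏ l, ∏ _l' ∈ Finset.univ.erase l, m l = (∏ l, m l) ^ (n - 1) := by
  rw [← Finset.prod_pow]
  refine Finset.prod_congr rfl fun l _ => ?_
  rw [Finset.prod_const, Finset.card_erase_of_mem (Finset.mem_univ _), Finset.card_univ,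
    Fintype.card_fin]

private lemma ls_prod_snd {n : ℕ} (m : Fin n → ℝ) :
    ∏ l, ∏ l' ∈ Finset.univ.erase l, m l' = (∏ l, m l) ^ (n - 1) := by
  rw [← ls_prod_fst, Finset.prod_comm' (t' := Finset.univ) (s' := fun l' => Finset.univ.erase l')]
  intro x y
  simp only [Finset.mem_univ, Finset.mem_erase, true_and, and_true]
  exact ne_comm

private lemma ls_prod_const {n : ℕ} (c : ℝ) :
    ∏ l : Fin n, ∏ _l' ∈ Finset.univ.erase l, c = c ^ (n * (n - 1)) := by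
  rw [ls_prod_fst (fun _ => c), Finset.prod_const, Finset.card_univ, Fintype.card_fin, ← pow_mul]

private lemma ls_conj {A : Type} [NormedField A] (δ : A → OnePoint A → ℝ)
    (hδ : RefW.DistOK δ)
    (hδ2 : ∀ x y : A, ‖x - y‖ ≤ 2 * max 1 ‖x‖ * max 1 ‖y‖ * δ x (y : OnePoint A))
    {n : ℕ} (x : Fin n → A) (hx : Function.Injective x) :
    ∏ l, ∏ l' ∈ Finset.univ.erase l, ‖x l - x l'‖ ≤
      2 ^ (n * (n - 1)) * (∏ l, max 1 ‖x l‖) ^ (2 * n - 2) * Real.exp (-conjLoc δ x) := by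
  have hpos : ∀ l l', l' ≠ l → 0 < δ (x l) ((x l' : A) : OnePoint A) := by
    intro l l' h
    refine lt_of_le_of_ne (hδ.nonneg _ _) fun h0 => ?_
    have h1 := hδ2 (x l) (x l')
    rw [← h0, mul_zero] at h1
    have h2 : x l - x l' = 0 := norm_le_zero_iff.1 h1
    exact h (hx (sub_eq_zero.1 h2)).symm
  have h1 : ∏ l, ∏ l' ∈ Finset.univ.erase l, ‖x l - x l'‖ ≤
      ∏ l, ∏ l' ∈ Finset.univ.erase l,
        (2 * max 1 ‖x l‖ * max 1 ‖x l'‖ * δ (x l) ((x l' : A) : OnePoint A)) := by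
    refine Finset.prod_le_prod (fun l _ => Finset.prod_nonneg fun l' _ => norm_nonneg _) fun l _ => ?_
    exact Finset.prod_le_prod (fun l' _ => norm_nonneg _) fun l' _ => hδ2 _ _
  refine h1.trans (le_of_eq ?_)
  simp only [Finset.prod_mul_distrib]
  rw [ls_prod_fst (fun l => max 1 ‖x l‖), ls_prod_snd (fun l => max 1 ‖x l‖), ls_prod_const]
  have h2 : ∏ l, ∏ l' ∈ Finset.univ.erase l, δ (x l) ((x l' : A) : OnePoint A) =
      Real.exp (-conjLoc δ x) := by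
    rw [conjLoc, ← Finset.sum_neg_distrib, Real.exp_sum]
    refine Finset.prod_congr rfl fun l _ => ?_
    rw [← Finset.sum_neg_distrib, Real.exp_sum]
    refine Finset.prod_congr rfl fun l' hl' => ?_
    rw [neg_neg, Real.exp_log (hpos l l' (Finset.ne_of_mem_erase hl'))]
  rw [h2, mul_assoc (2 ^ _) _ _, ← pow_add]
  congr 4
  omega

/-- Product of powers of numbers bounded by `C exp (- w j)`. -/
private lemma ls_mono {n : ℕ} (z : Fin (n + 1) → ℝ) (hz : ∀ j, 0 ≤ z j) (C : ℝ)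
    (w : Fin (n + 1) → ℝ) (hzw : ∀ j, z j ≤ C * Real.exp (-w j)) (e : Fin (n + 1) → ℕ) :
    ∏ j, z j ^ e j ≤ C ^ (∑ j, e j) * Real.exp (-∑ j, w j * (e j : ℝ)) := by
  have h1 : ∏ j, z j ^ e j ≤ ∏ j, (C * Real.exp (-w j)) ^ e j :=
    Finset.prod_le_prod (fun j _ => pow_nonneg (hz j) _) fun j _ =>
      pow_le_pow_left₀ (hz j) (hzw j) _
  refine h1.trans (le_of_eq ?_)
  simp only [mul_pow, Finset.prod_mul_distrib, Finset.prod_pow_eq_pow_sum]
  congr 1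
  rw [← Finset.sum_neg_distrib, Real.exp_sum]
  refine Finset.prod_congr rfl fun j _ => ?_
  rw [← Real.exp_nat_mul]
  congr 1
  ring

private lemma ls_evalle {A : Type} [NormedField A] {n d : ℕ} (Ψ : MvPolynomial (Fin (n + 1)) A)
    (hΨ : Ψ.IsHomogeneous d) (Z : Fin (n + 1) → A) (C : ℝ) (hC : 0 ≤ C) (w : Fin (n + 1) → ℝ)
    (hZ : ∀ j, ‖Z j‖ ≤ C * Real.exp (-w j)) (μ : Fin (n + 1) →₀ ℕ)
    (hμ : ∀ ν ∈ Ψ.support, wt w μ ≤ wt w ν) :
    ‖eval Z Ψ‖ ≤ (∑ ν ∈ Ψ.support, ‖Ψ.coeff ν‖) * (C ^ d * Real.exp (-wt w μ)) := by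
  rw [eval_eq', Finset.sum_mul]
  refine (norm_sum_le _ _).trans (Finset.sum_le_sum fun ν hν => ?_)
  rw [norm_mul, norm_prod]
  refine mul_le_mul_of_nonneg_left ?_ (norm_nonneg _)
  simp only [norm_pow]
  refine (ls_mono (fun j => ‖Z j‖) (fun j => norm_nonneg _) C w hZ ν).trans ?_
  have h1 : ∑ j, ν j = d := by
    have := hΨ (mem_support_iff.1 hν)
    rw [← this, Finsupp.weight_apply, Finsupp.sum_fintype]
    · simp
    · simp
  rw [h1]
  refine mul_le_mul_of_nonneg_left ?_ (by positivity)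
  exact Real.exp_le_exp.2 (neg_le_neg (hμ ν hν))

private lemma ls_mult_le {n N : ℕ} (μ : Fin (n + 1) →₀ ℕ) (i : Idx n N) :
    mult μ i • μ ≤ expo i := by
  unfold mult
  exact Nat.findGreatest_spec (P := fun b => b • μ ≤ expo i) (Nat.zero_le N) (by simp)

private lemma ls_mult_leN {n N : ℕ} (μ : Fin (n + 1) →₀ ℕ) (i : Idx n N) : mult μ i ≤ N :=
  Nat.findGreatest_le N

private lemma ls_sum_leN {n N : ℕ} (μ : Fin (n + 1) →₀ ℕ) :
    ∑ i : Idx n N, mult μ i ≤ Fintype.card (Idx n N) * N := by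
  refine (Finset.sum_le_card_nsmul _ _ _ fun i _ => ls_mult_leN μ i).trans (le_of_eq ?_)
  rw [Finset.card_univ, smul_eq_mul]

private lemma ls_wt_expo {n N : ℕ} (w : Fin (n + 1) → ℝ) :
    ∑ i : Idx n N, wt w (expo i) = (N * Fintype.card (Idx n N) / (n + 1) : ℝ) * ∑ j, w j := by
  unfold wt
  rw [Finset.sum_comm, Finset.mul_sum]
  refine Finset.sum_congr rfl fun j _ => ?_
  rw [← Finset.mul_sum]
  have h := sum_idx n N j
  have h2 : ((n : ℝ) + 1) * ∑ i : Idx n N, ((expo i j : ℕ) : ℝ) = N * Fintype.card (Idx n N) := by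
    have h3 : (((n + 1) * ∑ i : Idx n N, (i.1 j : ℕ) : ℕ) : ℝ) =
        ((N * Fintype.card (Idx n N) : ℕ) : ℝ) := congrArg _ h
    push_cast at h3
    exact h3
  have h4 : ((n : ℝ) + 1) ≠ 0 := by positivity
  rw [← h2]
  field_simp

private lemma ls_prod {A : Type} [NormedField A] {n d N : ℕ} {Φ : MvPolynomial (Fin (n + 1)) A}
    (hΦ : Φ.IsHomogeneous d) {μ : Fin (n + 1) →₀ ℕ} (hμ : μ.degree = d)
    (T : Matrix (Fin (n + 1)) (Fin (n + 1)) A) (F : Fin (n + 1) → A) (C : ℝ) (hC : 0 < C)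
    (w : Fin (n + 1) → ℝ) (hZ : ∀ j, ‖T.mulVec F j‖ ≤ C * Real.exp (-w j)) :
    ∏ i, ‖(rowM Φ μ T N).mulVec (vero N F) i‖ ≤
      C ^ (N * Fintype.card (Idx n N)) *
        (‖eval (T.mulVec F) Φ‖ * (C ^ d)⁻¹ * Real.exp (wt w μ)) ^ (∑ i : Idx n N, mult μ i) *
        Real.exp (-(N * Fintype.card (Idx n N) / (n + 1) : ℝ) * ∑ j, w j) := by
  have h1 : ∀ i : Idx n N, ‖(rowM Φ μ T N).mulVec (vero N F) i‖ ≤
      C ^ N * (‖eval (T.mulVec F) Φ‖ * (C ^ d)⁻¹ * Real.exp (wt w μ)) ^ (mult μ i) *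
        Real.exp (-wt w (expo i)) := by
    intro i
    rw [rowM_mulVec hΦ hμ, norm_mul, norm_prod, norm_pow]
    simp only [norm_pow]
    have h2 := ls_mono (fun j => ‖T.mulVec F j‖) (fun j => norm_nonneg _) C w hZ
      (fun j => expo i j - mult μ i * μ j)
    have hle : ∀ j, mult μ i * μ j ≤ expo i j := fun j => ls_mult_le μ i j
    have h3 : ∑ j, (expo i j - mult μ i * μ j) + mult μ i * d = N := by
      rw [← hμ, Finsupp.degree_eq_sum, Finset.mul_sum, ← Finset.sum_add_distrib]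
      rw [Finset.sum_congr rfl fun j _ => Nat.sub_add_cancel (hle j)]
      exact i.2
    have h4 : ∑ j, w j * ((expo i j - mult μ i * μ j : ℕ) : ℝ) =
        wt w (expo i) - mult μ i * wt w μ := by
      unfold wt
      rw [Finset.mul_sum, ← Finset.sum_sub_distrib]
      refine Finset.sum_congr rfl fun j _ => ?_
      rw [Nat.cast_sub (hle j)]
      push_cast
      ring
    rw [h4] at h2
    refine (mul_le_mul_of_nonneg_left h2 (by positivity)).trans (le_of_eq ?_)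
    have h5 : C ^ N = C ^ (∑ j, (expo i j - mult μ i * μ j)) * (C ^ d) ^ mult μ i := by
      rw [← pow_mul, ← pow_add, mul_comm d, h3]
    rw [h5, mul_pow, mul_pow, inv_pow, ← Real.exp_nat_mul, neg_sub, sub_eq_add_neg, Real.exp_add]
    have h6 : (C ^ d) ^ mult μ i ≠ 0 := by positivity
    field_simp
  refine (Finset.prod_le_prod (fun i _ => norm_nonneg _) fun i _ => h1 i).trans (le_of_eq ?_)
  rw [Finset.prod_mul_distrib, Finset.prod_mul_distrib, Finset.prod_pow_eq_pow_sum,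
    Finset.prod_pow_eq_pow_sum, Finset.sum_const, Finset.card_univ, smul_eq_mul, ← Real.exp_sum,
    Finset.sum_neg_distrib, ls_wt_expo, neg_mul, mul_comm N]

private lemma ls_rpow {s κ C2 C3 e : ℝ} {B m : ℕ} (hs : 0 < s) (hκ : 0 ≤ κ) (hκB : κ ≤ B)
    (hBm : B ≤ m) (hC2 : 1 ≤ C2) (hs2 : s ≤ C2) (hC3 : 0 < C3) (hs3 : s ≤ C3 * Real.exp e) :
    s ^ B ≤ C2 ^ m * C3 ^ κ * Real.exp (κ * e) := by
  have h1 : s ^ B = s ^ ((B : ℝ) - κ) * s ^ κ := by
    rw [← Real.rpow_add hs, sub_add_cancel, Real.rpow_natCast]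
  have h2 : s ^ ((B : ℝ) - κ) ≤ C2 ^ m := by
    refine (Real.rpow_le_rpow hs.le hs2 (sub_nonneg.2 hκB)).trans ?_
    rw [← Real.rpow_natCast C2 m]
    refine Real.rpow_le_rpow_of_exponent_le hC2 ?_
    have : (B : ℝ) ≤ m := by exact_mod_cast hBm
    linarith
  have h3 : s ^ κ ≤ C3 ^ κ * Real.exp (κ * e) := by
    refine (Real.rpow_le_rpow hs.le hs3 hκ).trans (le_of_eq ?_)
    rw [Real.mul_rpow hC3.le (Real.exp_nonneg _), ← Real.exp_mul, mul_comm e]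
  rw [h1, mul_assoc]
  exact mul_le_mul h2 h3 (by positivity) (by positivity)

theorem local_sorted {A : Type} [NormedField A] [CharZero A] (δ : A → OnePoint A → ℝ)
    (hδ : RefW.DistOK δ)
    (hδ2 : ∀ x y : A, ‖x - y‖ ≤ 2 * max 1 ‖x‖ * max 1 ‖y‖ * δ x (y : OnePoint A))
    {n : ℕ} (hn : 2 ≤ n) (D : Finset (OnePoint A)) {Φ : MvPolynomial (Fin (n + 1)) ℤ}
    (hΦ : IsDisc n Φ) (ε : ℝ) (hε : 0 < ε) (hε1 : ε ≤ 1) (N : ℕ)
    (hN : ∀ μ : Fin (n + 1) →₀ ℕ, μ.degree = 2 * n - 2 →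
      (1 - ε) * (N * Fintype.card (Idx n N)) ≤
        (n + 1) * (2 * n - 2) * ((∑ i : Idx n N, mult μ i : ℕ) : ℝ)) :
    ∃ C : ℝ, 1 ≤ C ∧ ∀ τ : Fin n → OnePoint A, (∀ l, τ l ∈ D) →
      ∀ (F : Fin (n + 1) → A) (a : A) (x : Fin n → A), a ≠ 0 → Fac F a x →
      Function.Injective x → ∀ lam : Fin n → ℝ, (∀ l, 0 < lam l) → Antitone lam →
      (∀ l, δ (x l) (τ l) ≤ Real.exp (1 - lam l)) →
      ∃ μ ∈ (lin (matT τ)⁻¹ (MvPolynomial.map (Int.castRingHom A) Φ)).support,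
        (rowM (lin (matT τ)⁻¹ (MvPolynomial.map (Int.castRingHom A) Φ)) μ (matT τ) N).det ≠ 0 ∧
        ∏ i, ‖(rowM (lin (matT τ)⁻¹ (MvPolynomial.map (Int.castRingHom A) Φ)) μ
            (matT τ) N).mulVec (vero N F) i‖ ≤
          C * (‖a‖ * ∏ l, max 1 ‖x l‖) ^ (N * Fintype.card (Idx n N)) *
            Real.exp (-(N * Fintype.card (Idx n N) / (n + 1) : ℝ) *
              (∑ l, lam l + (1 / 2 - (1 - ε) / (2 * n - 2)) * offT τ lam +
                (1 - ε) / (2 * n - 2) * conjLoc δ x)) := by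
  obtain ⟨C1, hC1, hco⟩ := coord_le δ hδ D (n := n)
  let Ψ : (Fin n → OnePoint A) → MvPolynomial (Fin (n + 1)) A := fun τ =>
    lin (matT τ)⁻¹ (MvPolynomial.map (Int.castRingHom A) Φ)
  let K : (Fin n → OnePoint A) → ℝ := fun τ => ∑ ν ∈ (Ψ τ).support, ‖(Ψ τ).coeff ν‖
  have hK : ∀ τ, 0 ≤ K τ := fun τ => Finset.sum_nonneg fun ν _ => norm_nonneg _
  obtain ⟨C2, hC2, hC2K⟩ : ∃ C2 : ℝ, 1 ≤ C2 ∧ ∀ τ : Fin n → OnePoint A, (∀ l, τ l ∈ D) →
      K τ ≤ C2 := by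
    refine ⟨1 + ∑ τ ∈ Fintype.piFinset (fun _ : Fin n => D), K τ, ?_, fun τ hτ => ?_⟩
    · have := Finset.sum_nonneg (s := Fintype.piFinset (fun _ : Fin n => D)) fun τ _ => hK τ
      linarith
    · have := Finset.single_le_sum (s := Fintype.piFinset (fun _ : Fin n => D)) (f := K)
        (fun τ _ => hK τ) (Fintype.mem_piFinset.2 hτ)
      linarith
  have hn' : (2 : ℝ) ≤ n := by exact_mod_cast hn
  have hd : (0 : ℝ) < 2 * n - 2 := by linarith
  set c : ℕ := Fintype.card (Idx n N) with hc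
  let κ : ℝ := (1 - ε) * (N * c) / ((n + 1) * (2 * n - 2))
  have hκ : 0 ≤ κ := div_nonneg (mul_nonneg (by linarith) (by positivity))
    (mul_nonneg (by positivity) hd.le)
  have hC3 : (1 : ℝ) ≤ 2 ^ (n * (n - 1)) := one_le_pow₀ (by norm_num)
  refine ⟨C1 ^ (N * c) * (C2 ^ (c * N) * (2 ^ (n * (n - 1)) : ℝ) ^ κ), ?_, ?_⟩
  · refine one_le_mul_of_one_le_of_one_le (one_le_pow₀ hC1) ?_
    exact one_le_mul_of_one_le_of_one_le (one_le_pow₀ hC2) (Real.one_le_rpow hC3 hκ)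
  intro τ hτ F a x ha hF hx lam hlam hanti hdist
  obtain ⟨ν0, hν0, hν0w⟩ := weight_le (A := A) (by omega) hΦ τ lam hlam hanti
  change ν0 ∈ (Ψ τ).support at hν0
  have hΨ0 : Ψ τ ≠ 0 := by
    intro h
    rw [h] at hν0
    simp at hν0
  obtain ⟨μ, hμs, hμmin, hli⟩ := rowP_li (Ψ τ) hΨ0 (wS τ lam)
  have hhom : (Ψ τ).IsHomogeneous (2 * n - 2) := lin_hom _ (hΦ.hom.map _)
  have hdeg : μ.degree = 2 * n - 2 := by
    have h := hhom (mem_support_iff.1 hμs)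
    rw [← h, Finsupp.degree_eq_weight_one]
    rfl
  refine ⟨μ, hμs, rowM_det hhom hdeg (hli N) (matT_det τ), ?_⟩
  have hB := hN μ hdeg
  set B : ℕ := ∑ i : Idx n N, mult μ i with hBdef
  have hκB : κ ≤ B := by
    rw [div_le_iff₀ (by positivity)]
    linarith
  have hBm : B ≤ c * N := ls_sum_leN μ
  set P : ℝ := ∏ l, max 1 ‖x l‖ with hP
  have hP1 : 0 < P := Finset.prod_pos fun l _ => lt_of_lt_of_le one_pos (le_max_left _ _)
  have hM : 0 < ‖a‖ * P := mul_pos (norm_pos_iff.2 ha) hP1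
  have hC1' : 0 < C1 := lt_of_lt_of_le one_pos hC1
  have hZ := hco τ hτ F a x hF lam (fun l => (hlam l).le) hanti hdist
  have hprod := ls_prod (N := N) hhom hdeg (matT τ) F (C1 * (‖a‖ * P)) (by positivity)
    (wS τ lam) hZ
  have hy := ls_norm hΦ F a x ha hF
  have hy2 := ls_eval (matT τ) (matT_det τ) Φ F
  change eval ((matT τ).mulVec F) (Ψ τ) = aeval F Φ at hy2
  have hyc : ‖aeval F Φ‖ ≤ 2 ^ (n * (n - 1)) * (‖a‖ * P) ^ (2 * n - 2) *
      Real.exp (-conjLoc δ x) := by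
    rw [hy, mul_pow]
    refine (mul_le_mul_of_nonneg_left (ls_conj δ hδ hδ2 x hx) (by positivity)).trans
      (le_of_eq ?_)
    ring
  have hypos : 0 < ‖aeval F Φ‖ := by
    rw [hy]
    refine mul_pos (pow_pos (norm_pos_iff.2 ha) _) ?_
    refine Finset.prod_pos fun l _ => Finset.prod_pos fun l' hl' => norm_pos_iff.2 ?_
    exact sub_ne_zero.2 fun h => (Finset.ne_of_mem_erase hl') (hx h).symm
  have hyK := ls_evalle (Ψ τ) hhom ((matT τ).mulVec F) (C1 * (‖a‖ * P)) (by positivity)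
    (wS τ lam) hZ μ hμmin
  rw [hy2] at hprod hyK
  set s : ℝ := ‖aeval F Φ‖ * ((C1 * (‖a‖ * P)) ^ (2 * n - 2))⁻¹ * Real.exp (wt (wS τ lam) μ)
    with hs
  have hs0 : 0 < s := by positivity
  have hCM : 0 < (C1 * (‖a‖ * P)) ^ (2 * n - 2) := by positivity
  have hs2 : s ≤ C2 := by
    refine le_trans ?_ (hC2K τ hτ)
    have h1 : s ≤ (K τ * ((C1 * (‖a‖ * P)) ^ (2 * n - 2) * Real.exp (-wt (wS τ lam) μ))) *
        ((C1 * (‖a‖ * P)) ^ (2 * n - 2))⁻¹ * Real.exp (wt (wS τ lam) μ) := by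
      rw [hs]
      gcongr
    refine h1.trans (le_of_eq ?_)
    rw [Real.exp_neg]
    have := Real.exp_pos (wt (wS τ lam) μ)
    field_simp
  have hμoff : wt (wS τ lam) μ ≤ offT τ lam := (hμmin ν0 hν0).trans hν0w
  have hs3 : s ≤ 2 ^ (n * (n - 1)) * Real.exp (offT τ lam - conjLoc δ x) := by
    have h1 : s ≤ (2 ^ (n * (n - 1)) * (‖a‖ * P) ^ (2 * n - 2) * Real.exp (-conjLoc δ x)) *
        ((‖a‖ * P) ^ (2 * n - 2))⁻¹ * Real.exp (offT τ lam) := by
      have hinv : ((C1 * (‖a‖ * P)) ^ (2 * n - 2))⁻¹ ≤ ((‖a‖ * P) ^ (2 * n - 2))⁻¹ :=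
        inv_anti₀ (by positivity)
          (pow_le_pow_left₀ hM.le (le_mul_of_one_le_left hM.le hC1) _)
      exact mul_le_mul (mul_le_mul hyc hinv (by positivity) (by positivity))
        (Real.exp_le_exp.2 hμoff) (Real.exp_nonneg _) (by positivity)
    refine h1.trans (le_of_eq ?_)
    rw [sub_eq_add_neg, Real.exp_add]
    have : 0 < (‖a‖ * P) ^ (2 * n - 2) := by positivity
    field_simp
  have hsB := ls_rpow hs0 hκ hκB hBm hC2 hs2 (by positivity) hs3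
  refine hprod.trans ?_
  have h1 : (C1 * (‖a‖ * P)) ^ (N * c) * s ^ B *
      Real.exp (-(N * c / (n + 1) : ℝ) * ∑ j, wS τ lam j) ≤
      (C1 * (‖a‖ * P)) ^ (N * c) * (C2 ^ (c * N) * (2 ^ (n * (n - 1)) : ℝ) ^ κ *
        Real.exp (κ * (offT τ lam - conjLoc δ x))) *
      Real.exp (-(N * c / (n + 1) : ℝ) * ∑ j, wS τ lam j) := by
    gcongr
  refine h1.trans (le_of_eq ?_)
  have h2 : Real.exp (κ * (offT τ lam - conjLoc δ x)) *
      Real.exp (-(N * c / (n + 1) : ℝ) * ∑ j, wS τ lam j) =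
      Real.exp (-(N * c / (n + 1) : ℝ) *
              (∑ l, lam l + (1 / 2 - (1 - ε) / (2 * n - 2)) * offT τ lam +
                (1 - ε) / (2 * n - 2) * conjLoc δ x)) := by
    rw [← Real.exp_add, sum_wS τ lam hanti]
    congr 1
    have h3 : (2 * (n : ℝ) - 2) ≠ 0 := hd.ne'
    have h4 : ((n : ℝ) + 1) ≠ 0 := by positivity
    simp only [κ]
    field_simp
    ring
  rw [← h2]
  ring

end Pool.Agent.RefG
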