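import Pool.Agent.RefG.Defs
import Pool.Agent.RefG.LocSorted
import Pool.Agent.RefG.Alg

/-!
RG13. The local estimate.
`D` is nonempty. For a point `y` let `τ₀ y ∈ D` minimise `δ y θ`; `g l = - log (δ (x l) (τ₀ (x l)))`.
Choose a permutation `s` of `Fin n` such that `g ∘ s` is antitone (`Tuple.sort` for `- g`), put
`x' = x ∘ s`, `τ l = τ₀ (x' l)`, `lam l = 1 + g (s l)` (`g ≥ 0` as `δ ≤ 1`). `Fac F a x'`, and
`diagLoc`, `offLoc`, `conjLoc`, the products are invariant under permutations. Apply `local_sorted`; the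
finite set `𝓜` consists of the matrices `rowM (...) μ (matT τ) N` with nonzero determinant for
`τ : Fin n → D` and `μ` in the support; entries algebraic by `rowM_alg`, `lin_alg`, `inv_alg`,
`matT_alg`. It remains to compare: `diagLoc ≤ ∑ lam + C`: for `θ ≠ τ l` in `D` we have
`δ (x l) θ ≥ c` by `DistOK.sep` (the smaller of the two is at `τ l`). `offLoc ≤ offT τ lam + C`: a term
`min (- log δ (x l) θ) (- log δ (x l') θ)` is at most `- log c` unless `τ l = θ = τ l'`. The
coefficient `1 / 2 - (1 - ε) / (2 n - 2)` is nonnegative as `n ≥ 2`.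
-/

open MvPolynomial NumberField
open scoped Classical

namespace Pool.Agent.RefG

private lemma lg_unif {ι : Type} (D : Finset ι) (f : ι → ℝ) :
    ∃ C : ℝ, 1 ≤ C ∧ ∀ i ∈ D, f i ≤ C := by
  induction D using Finset.induction_on with
  | empty => exact ⟨1, le_refl _, by simp⟩
  | insert a s _ ih =>
    obtain ⟨C, hC1, hC⟩ := ih
    refine ⟨max C (f a), hC1.trans (le_max_left _ _), fun i hi => ?_⟩
    rcases Finset.mem_insert.mp hi with rfl | hi
    · exact le_max_right _ _
    · exact (hC i hi).trans (le_max_left _ _)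

private lemma lg_sep {A : Type} [NormedField A] (δ : A → OnePoint A → ℝ) (hδ : RefW.DistOK δ)
    (D : Finset (OnePoint A)) :
    ∃ c : ℝ, 0 < c ∧ c ≤ 1 ∧ ∀ α ∈ D, ∀ β ∈ D, α ≠ β → ∀ x, c ≤ max (δ x α) (δ x β) := by
  choose! c hc0 hc using hδ.sep
  obtain ⟨C, hC1, hC⟩ := lg_unif (D ×ˢ D) (fun p => (c p.1 p.2)⁻¹)
  have hC0 : 0 < C := lt_of_lt_of_le one_pos hC1
  refine ⟨C⁻¹, inv_pos.mpr hC0, inv_le_one_of_one_le₀ hC1, fun α hα β hβ hne x => ?_⟩
  refine le_trans ?_ (hc α β hne x)
  have h1 := hC (α, β) (Finset.mk_mem_product hα hβ)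
  exact inv_le_of_inv_le₀ (hc0 α β hne) h1

private lemma lg_reindex {n : ℕ} (s : Equiv.Perm (Fin n)) (h : Fin n → Fin n → ℝ) :
    ∑ l, ∑ l' ∈ Finset.univ.erase l, h (s l) (s l') =
      ∑ l, ∑ l' ∈ Finset.univ.erase l, h l l' := by
  rw [← Equiv.sum_comp s (fun m => ∑ l' ∈ Finset.univ.erase m, h m l')]
  refine Finset.sum_congr rfl fun l _ => ?_
  refine Finset.sum_equiv s (fun i => ?_) (fun i _ => rfl)
  simp

theorem local_gen {A : Type} [NormedField A] [CharZero A] (δ : A → OnePoint A → ℝ)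
    (hδ : RefW.DistOK δ)
    (hδ2 : ∀ x y : A, ‖x - y‖ ≤ 2 * max 1 ‖x‖ * max 1 ‖y‖ * δ x (y : OnePoint A))
    {n : ℕ} (hn : 2 ≤ n) (D : Finset (OnePoint A)) (hi : OnePoint.infty ∈ D)
    (hD : ∀ θ ∈ D, RefW.AlgP θ) {Φ : MvPolynomial (Fin (n + 1)) ℤ}
    (hΦ : IsDisc n Φ) (ε : ℝ) (hε : 0 < ε) (hε1 : ε ≤ 1) (N : ℕ)
    (hN : ∀ μ : Fin (n + 1) →₀ ℕ, μ.degree = 2 * n - 2 →
      (1 - ε) * (N * Fintype.card (Idx n N)) ≤
        (n + 1) * (2 * n - 2) * ((∑ i : Idx n N, mult μ i : ℕ) : ℝ)) :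
    ∃ (C : ℝ) (𝓜 : Finset (Matrix (Idx n N) (Idx n N) A)), 1 ≤ C ∧
      (∀ M ∈ 𝓜, M.det ≠ 0 ∧ ∀ i j, IsAlgebraic ℚ (M i j)) ∧
      ∀ (F : Fin (n + 1) → A) (a : A) (x : Fin n → A), a ≠ 0 → Fac F a x →
      Function.Injective x → (∀ l, ∀ θ ∈ D, 0 < δ (x l) θ) →
      ∃ M ∈ 𝓜, ∏ i, ‖M.mulVec (vero N F) i‖ ≤
          C * (‖a‖ * ∏ l, max 1 ‖x l‖) ^ (N * Fintype.card (Idx n N)) *
            Real.exp (-(N * Fintype.card (Idx n N) / (n + 1) : ℝ) *
              (diagLoc δ D x + (1 / 2 - (1 - ε) / (2 * n - 2)) * offLoc δ D x +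
                (1 - ε) / (2 * n - 2) * conjLoc δ x)) := by
  obtain ⟨C₀, hC₀1, hC₀⟩ := local_sorted δ hδ hδ2 hn D hΦ ε hε hε1 N hN
  obtain ⟨c, hc0, hc1, hc⟩ := lg_sep δ hδ D
  have hmin : ∀ y : A, ∃ θ ∈ D, ∀ θ' ∈ D, δ y θ ≤ δ y θ' := fun y =>
    Finset.exists_min_image D (fun θ => δ y θ) ⟨_, hi⟩
  choose τ₀ hτ₀D hτ₀ using hmin
  -- the constants
  set κ : ℝ := -Real.log c with hκ
  have hκ0 : 0 ≤ κ := by
    rw [hκ, neg_nonneg]
    exact Real.log_nonpos hc0.le hc1
  set q : ℝ := (N * Fintype.card (Idx n N) / (n + 1) : ℝ) with hq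
  have hq0 : 0 ≤ q := by positivity
  set α : ℝ := 1 / 2 - (1 - ε) / (2 * n - 2) with hα
  have hn' : (2 : ℝ) ≤ n := by exact_mod_cast hn
  have hα0 : 0 ≤ α := by
    have h1 : (1 - ε) / (2 * (n : ℝ) - 2) ≤ 1 / 2 := by
      rw [div_le_div_iff₀ (by linarith) (by norm_num)]
      nlinarith
    rw [hα]
    linarith
  set K : ℝ := q * (n * (D.card * κ) + α * (n * (n * (D.card * κ)))) with hK
  have hK0 : 0 ≤ K := by positivity
  let Ψ : (Fin n → OnePoint A) → MvPolynomial (Fin (n + 1)) A := fun τ =>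
    lin (matT τ)⁻¹ (MvPolynomial.map (Int.castRingHom A) Φ)
  let 𝓜 : Finset (Matrix (Idx n N) (Idx n N) A) :=
    (Finset.univ : Finset (Fin n → D)).biUnion fun τ =>
      ((Ψ fun l => (τ l : OnePoint A)).support.image fun μ =>
        rowM (Ψ fun l => (τ l : OnePoint A)) μ (matT fun l => (τ l : OnePoint A)) N).filter
          fun M => M.det ≠ 0
  refine ⟨C₀ * Real.exp K, 𝓜, ?_, ?_, ?_⟩
  · exact one_le_mul_of_one_le_of_one_le hC₀1 (Real.one_le_exp hK0)
  · intro M hM
    rw [Finset.mem_biUnion] at hM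
    obtain ⟨τ, -, hM⟩ := hM
    rw [Finset.mem_filter, Finset.mem_image] at hM
    obtain ⟨⟨μ, -, rfl⟩, hdet⟩ := hM
    refine ⟨hdet, fun i j => ?_⟩
    have h1 : ∀ i j, IsAlgebraic ℚ (matT (fun l => (τ l : OnePoint A)) i j) :=
      matT_alg _ fun l => hD _ (τ l).2
    have h2 : ∀ ν, IsAlgebraic ℚ ((MvPolynomial.map (Int.castRingHom A) Φ).coeff ν) := by
      intro ν
      rw [MvPolynomial.coeff_map]
      exact isAlgebraic_intCast _
    exact rowM_alg _ h1 _ (lin_alg _ (inv_alg _ h1) _ h2) μ N i j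
  · intro F a x ha hF hx hpos
    let g : Fin n → ℝ := fun l => -Real.log (δ (x l) (τ₀ (x l)))
    have hg0 : ∀ l, 0 ≤ g l := fun l => by
      have h1 := Real.log_nonpos (hδ.nonneg (x l) (τ₀ (x l))) (hδ.le_one _ _)
      change 0 ≤ -Real.log (δ (x l) (τ₀ (x l)))
      linarith
    let s : Equiv.Perm (Fin n) := Tuple.sort fun l => -g l
    have hs : Antitone fun l => 1 + g (s l) := by
      intro l l' h
      have h1 := Tuple.monotone_sort (fun l => -g l) h
      have h2 : -g (s l) ≤ -g (s l') := h1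
      change 1 + g (s l') ≤ 1 + g (s l)
      linarith
    have hsum_prod : ∏ l, max 1 ‖x (s l)‖ = ∏ l, max 1 ‖x l‖ :=
      Equiv.prod_comp s (fun l => max 1 ‖x l‖)
    have hF' : Fac F a fun l => x (s l) := by
      unfold Fac at hF ⊢
      rw [hF]
      congr 1
      exact (Equiv.prod_comp s (fun l => (Polynomial.X - Polynomial.C (x l)))).symm
    -- far points
    have hfar : ∀ l, ∀ θ ∈ D, θ ≠ τ₀ (x l) → -Real.log (δ (x l) θ) ≤ κ := by
      intro l θ hθ hne
      have h1 := hc θ hθ _ (hτ₀D (x l)) hne (x l)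
      rw [max_eq_left (hτ₀ (x l) θ hθ)] at h1
      have h2 := Real.log_le_log hc0 h1
      rw [hκ]
      linarith
    obtain ⟨μ, hμ, hdet, hle⟩ := hC₀ (fun l => τ₀ (x (s l))) (fun l => hτ₀D _) F a
      (fun l => x (s l)) ha hF' (fun l l' h => s.injective (hx h)) (fun l => 1 + g (s l))
      (fun l => by have := hg0 (s l); linarith) hs (fun l => by
        have h1 : (1 : ℝ) - (1 + g (s l)) = Real.log (δ (x (s l)) (τ₀ (x (s l)))) := by
          change (1 : ℝ) - (1 + -Real.log (δ (x (s l)) (τ₀ (x (s l))))) = _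
          ring
        rw [h1, Real.exp_log (hpos _ _ (hτ₀D _))])
    refine ⟨_, ?_, hle.trans ?_⟩
    · rw [Finset.mem_biUnion]
      refine ⟨fun l => ⟨τ₀ (x (s l)), hτ₀D _⟩, Finset.mem_univ _, ?_⟩
      rw [Finset.mem_filter, Finset.mem_image]
      exact ⟨⟨μ, hμ, rfl⟩, hdet⟩
    · rw [hsum_prod]
      -- comparison of the exponents
      have hdiag : diagLoc δ D x ≤ ∑ l, (1 + g (s l)) + n * (D.card * κ) := by
        have h1 : ∑ l, (1 + g (s l)) = ∑ l, (1 + g l) := Equiv.sum_comp s (fun l => 1 + g l)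
        have h2 : (n : ℝ) * (D.card * κ) = ∑ _l : Fin n, (D.card * κ) := by
          rw [Finset.sum_const, Finset.card_univ, Fintype.card_fin, nsmul_eq_mul]
        rw [h1, h2, ← Finset.sum_add_distrib]
        unfold diagLoc
        refine Finset.sum_le_sum fun l _ => ?_
        rw [← Finset.add_sum_erase D _ (hτ₀D (x l))]
        have h3 : ∑ θ ∈ D.erase (τ₀ (x l)), -Real.log (δ (x l) θ) ≤ D.card * κ := by
          calc ∑ θ ∈ D.erase (τ₀ (x l)), -Real.log (δ (x l) θ) ≤
                ∑ θ ∈ D.erase (τ₀ (x l)), κ :=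
                Finset.sum_le_sum fun θ hθ => hfar l θ (Finset.mem_of_mem_erase hθ)
                  (Finset.ne_of_mem_erase hθ)
            _ = (D.erase (τ₀ (x l))).card * κ := by rw [Finset.sum_const, nsmul_eq_mul]
            _ ≤ D.card * κ := by
                refine mul_le_mul_of_nonneg_right ?_ hκ0
                exact_mod_cast Finset.card_le_card (Finset.erase_subset _ _)
        change g l + _ ≤ _
        linarith
      have hoff : offLoc δ D x ≤ offT (fun l => τ₀ (x (s l))) (fun l => 1 + g (s l)) +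
          n * (n * (D.card * κ)) := by
        have h1 : offT (fun l => τ₀ (x (s l))) (fun l => 1 + g (s l)) =
            ∑ l, ∑ l' ∈ Finset.univ.erase l,
              if τ₀ (x l) = τ₀ (x l') then min (1 + g l) (1 + g l') else 0 :=
          lg_reindex s fun l l' => if τ₀ (x l) = τ₀ (x l') then min (1 + g l) (1 + g l') else 0
        have h2 : (n : ℝ) * (n * (D.card * κ)) =
            ∑ _l : Fin n, ∑ _l' : Fin n, (D.card * κ) := by
          simp only [Finset.sum_const, Finset.card_univ, Fintype.card_fin, nsmul_eq_mul]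
        have h3 : ∀ l : Fin n, ∑ l' ∈ Finset.univ.erase l, ((D.card : ℝ) * κ) ≤
            ∑ _l' : Fin n, (D.card * κ) := fun l =>
          Finset.sum_le_sum_of_subset_of_nonneg (Finset.subset_univ _) fun _ _ _ => by positivity
        rw [h1, h2, ← Finset.sum_add_distrib]
        unfold offLoc
        refine Finset.sum_le_sum fun l _ => ?_
        refine le_trans ?_ (add_le_add_right (h3 l) _)
        rw [← Finset.sum_add_distrib]
        refine Finset.sum_le_sum fun l' _ => ?_
        -- one pair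
        have h4 : ∀ θ ∈ D, min (-Real.log (δ (x l) θ)) (-Real.log (δ (x l') θ)) ≤
            (if θ = τ₀ (x l) then
              (if τ₀ (x l) = τ₀ (x l') then min (1 + g l) (1 + g l') else 0) else 0) + κ := by
          intro θ hθ
          by_cases h5 : θ = τ₀ (x l)
          · rw [if_pos h5]
            by_cases h6 : τ₀ (x l) = τ₀ (x l')
            · rw [if_pos h6]
              have h7 : -Real.log (δ (x l) θ) = g l := by rw [h5]
              have h8 : -Real.log (δ (x l') θ) = g l' := by rw [h5, h6]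
              rw [h7, h8]
              refine le_trans (min_le_min ?_ ?_) (le_add_of_nonneg_right hκ0)
              · linarith
              · linarith
            · rw [if_neg h6, zero_add]
              refine (min_le_right _ _).trans (hfar l' θ hθ ?_)
              rw [h5]
              exact h6
          · rw [if_neg h5, zero_add]
            exact (min_le_left _ _).trans (hfar l θ hθ h5)
        refine (Finset.sum_le_sum h4).trans (le_of_eq ?_)
        rw [Finset.sum_add_distrib, Finset.sum_ite_eq', if_pos (hτ₀D (x l)), Finset.sum_const,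
          nsmul_eq_mul]
      have hconj : conjLoc δ (fun l => x (s l)) = conjLoc δ x :=
        lg_reindex s fun l l' => -Real.log (δ (x l) ((x l' : A) : OnePoint A))
      rw [hconj]
      have hexp : -q * (∑ l, (1 + g (s l)) + α * offT (fun l => τ₀ (x (s l)))
            (fun l => 1 + g (s l)) + (1 - ε) / (2 * n - 2) * conjLoc δ x) ≤
          K + -q * (diagLoc δ D x + α * offLoc δ D x +
            (1 - ε) / (2 * n - 2) * conjLoc δ x) := by
        have h1 := mul_le_mul_of_nonneg_left hdiag hq0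
        have h2 := mul_le_mul_of_nonneg_left (mul_le_mul_of_nonneg_left hoff hα0) hq0
        rw [hK]
        nlinarith
      have hM0 : 0 ≤ (‖a‖ * ∏ l, max 1 ‖x l‖) ^ (N * Fintype.card (Idx n N)) := by
        refine pow_nonneg (mul_nonneg (norm_nonneg _) (Finset.prod_nonneg fun l _ => ?_)) _
        exact zero_le_one.trans (le_max_left _ _)
      calc _ ≤ C₀ * (‖a‖ * ∏ l, max 1 ‖x l‖) ^ (N * Fintype.card (Idx n N)) *
            Real.exp (K + -q * (diagLoc δ D x + α * offLoc δ D x +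
            (1 - ε) / (2 * n - 2) * conjLoc δ x)) :=
            mul_le_mul_of_nonneg_left (Real.exp_le_exp.mpr hexp)
              (mul_nonneg (zero_le_one.trans hC₀1) hM0)
        _ = _ := by
            rw [Real.exp_add]
            ring

end Pool.Agent.RefG
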