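import Pool.Agent.RefG.Defs
import Pool.Agent.RefG.LocGen
import Pool.Agent.RefW.Fibre

/-!
RG14. The estimate at one embedding of `k`, with matrices over the algebraic closure of `k`.
`exists_lift`: the minimal polynomial of `z` over `ℚ` splits in `AlgebraicClosure k`, and `E` maps its
roots to all roots in `A`. `exists_lift_matrix`: entrywise; `det` commutes with ring homomorphisms.
`place_gen`: lift the finitely many matrices of `local_gen`; `F ≠ 0` and `Fac` give `ρ (F n) ≠ 0` (compare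
`ha` in the proof of `core_main`, RefW/Core.lean); the conjugates `(e l).1 x` are different since `x`
generates `K` over `k` (compare `discLogK_ext` in RefW/DiscLogK.lean);
`E (L.mulVec (algebraMap k _ ∘ vero N F) i) = (L.map E).mulVec (vero N (ρ ∘ F)) i`.
-/

open MvPolynomial NumberField
open scoped Classical

namespace Pool.Agent.RefG

theorem exists_lift (k : Type) [Field k] [NumberField k] {A : Type} [Field A] [CharZero A]
    (E : AlgebraicClosure k →+* A) (z : A) (hz : IsAlgebraic ℚ z) : ∃ y, E y = z := by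
  obtain ⟨p, hp0, hp⟩ := hz
  set q : Polynomial (AlgebraicClosure k) :=
    p.map ((algebraMap k (AlgebraicClosure k)).comp (algebraMap ℚ k)) with hq
  have hq0 : q ≠ 0 := (Polynomial.map_ne_zero_iff (RingHom.injective _)).mpr hp0
  have h1 : q.map E = p.map (algebraMap ℚ A) := by
    rw [hq, Polynomial.map_map]
    exact congrArg (fun f => p.map f) (Subsingleton.elim _ _)
  have h2 : (q.map E).IsRoot z := by
    rw [h1, Polynomial.IsRoot.def, Polynomial.eval_map]
    exact hp
  exact (IsAlgClosed.splits q).mem_range_of_isRoot hq0 h2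

theorem exists_lift_matrix (k : Type) [Field k] [NumberField k] {A : Type} [Field A] [CharZero A]
    (E : AlgebraicClosure k →+* A) {ι : Type} [Fintype ι] [DecidableEq ι] (M : Matrix ι ι A)
    (hM : ∀ i j, IsAlgebraic ℚ (M i j)) (hdet : M.det ≠ 0) :
    ∃ L : Matrix ι ι (AlgebraicClosure k), L.det ≠ 0 ∧ L.map E = M := by
  choose L hL using fun i j => exists_lift k E (M i j) (hM i j)
  have h1 : (Matrix.of L).map E = M := by
    ext i j
    exact hL i j
  refine ⟨Matrix.of L, fun h0 => hdet ?_, h1⟩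
  have h2 := E.map_det (Matrix.of L)
  rw [h0, map_zero] at h2
  rw [← h1]
  exact h2.symm

private theorem place_ext {k : Type} [Field k] {A : Type} [Field A] {K : Type} [Field K]
    [Algebra k K] {x : K} (hx : IntermediateField.adjoin k {x} = ⊤) {σ τ : K →+* A}
    (hc : σ.comp (algebraMap k K) = τ.comp (algebraMap k K)) (h : σ x = τ x) : σ = τ := by
  have h1 : ∀ y ∈ IntermediateField.adjoin k {x}, σ y = τ y := by
    intro y hy
    induction hy using IntermediateField.adjoin_induction with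
    | mem z hz =>
      rw [Set.mem_singleton_iff] at hz
      rw [hz, h]
    | algebraMap q => exact RingHom.congr_fun hc q
    | add a b _ _ ha hb => rw [map_add, map_add, ha, hb]
    | inv a _ ha => rw [map_inv₀, map_inv₀, ha]
    | mul a b _ _ ha hb => rw [map_mul, map_mul, ha, hb]
  ext y
  exact h1 y (by rw [hx]; trivial)

private theorem place_last {k : Type} [Field k] [NumberField k] {n : ℕ}
    {F : Fin (n + 1) → 𝓞 k} (hF : F ≠ 0) {A : Type} [Field A] (ρ : k →+* A) (y : Fin n → A)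
    (he : Fac (fun i => ρ (F i : k)) (ρ (F (Fin.last n) : k)) y) :
    ρ (F (Fin.last n) : k) ≠ 0 := by
  intro h0
  unfold Fac at he
  rw [h0, Polynomial.C_0, zero_mul] at he
  apply hF
  funext i
  have h1 : (∑ j : Fin (n + 1), Polynomial.C (ρ (F j : k)) * Polynomial.X ^ (j : ℕ)).coeff
      (i : ℕ) = ρ (F i : k) := by
    rw [Polynomial.finsetSum_coeff, Finset.sum_eq_single i]
    · rw [Polynomial.coeff_C_mul_X_pow, if_pos rfl]
    · intro j _ hj
      rw [Polynomial.coeff_C_mul_X_pow, if_neg]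
      intro h2
      exact hj (Fin.ext h2.symm)
    · intro h2
      exact absurd (Finset.mem_univ i) h2
  rw [he, Polynomial.coeff_zero] at h1
  have h2 : (F i : k) = 0 := (map_eq_zero ρ).mp h1.symm
  have h3 : F i = 0 := by
    apply RingOfIntegers.coe_injective
    simpa using h2
  simpa using h3

private theorem place_vec {k : Type} [Field k] [NumberField k] {A : Type} [Field A]
    (E : AlgebraicClosure k →+* A) (ρ : k →+* A) (hE : ∀ y, E (algebraMap k _ y) = ρ y)
    {n N : ℕ} (L : Matrix (Idx n N) (Idx n N) (AlgebraicClosure k)) (F : Fin (n + 1) → 𝓞 k)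
    (i : Idx n N) :
    E (L.mulVec (fun j => algebraMap k (AlgebraicClosure k) ((vero N F j : 𝓞 k) : k)) i) =
      (L.map E).mulVec (vero N fun i => ρ (F i : k)) i := by
  simp only [Matrix.mulVec, dotProduct, map_sum, map_mul, Matrix.map_apply]
  refine Finset.sum_congr rfl fun j _ => ?_
  rw [hE]
  congr 1
  unfold vero
  change (ρ.comp (algebraMap (𝓞 k) k)) (∏ l, F l ^ (j.1 l : ℕ)) = _
  rw [map_prod]
  refine Finset.prod_congr rfl fun l _ => ?_
  rw [map_pow]
  rfl

theorem place_gen {k : Type} [Field k] [NumberField k] {A : Type} [NormedField A] [CharZero A]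
    (E : AlgebraicClosure k →+* A) (ρ : k →+* A) (hE : ∀ y, E (algebraMap k _ y) = ρ y)
    (δ : A → OnePoint A → ℝ) (hδ : RefW.DistOK δ)
    (hδ2 : ∀ x y : A, ‖x - y‖ ≤ 2 * max 1 ‖x‖ * max 1 ‖y‖ * δ x (y : OnePoint A))
    {n : ℕ} (hn : 2 ≤ n) (D : Finset (OnePoint A)) (hi : OnePoint.infty ∈ D)
    (hD : ∀ θ ∈ D, RefW.AlgP θ) {Φ : MvPolynomial (Fin (n + 1)) ℤ}
    (hΦ : IsDisc n Φ) (ε : ℝ) (hε : 0 < ε) (hε1 : ε ≤ 1) (N : ℕ)
    (hN : ∀ μ : Fin (n + 1) →₀ ℕ, μ.degree = 2 * n - 2 →
      (1 - ε) * (N * Fintype.card (Idx n N)) ≤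
        (n + 1) * (2 * n - 2) * ((∑ i : Idx n N, mult μ i : ℕ) : ℝ)) :
    ∃ (C : ℝ) (𝓛 : Finset (Matrix (Idx n N) (Idx n N) (AlgebraicClosure k))), 1 ≤ C ∧
      (∀ L ∈ 𝓛, L.det ≠ 0) ∧
      ∀ (K : Type) [Field K] [NumberField K] [Algebra k K] (x : K) (F : Fin (n + 1) → 𝓞 k),
      F ≠ 0 → RefW.RootOf F K x →
      ∀ e : Fin n ≃ {σ : K →+* A // σ.comp (algebraMap k K) = ρ},
      Fac (fun i => ρ (F i : k)) (ρ (F (Fin.last n) : k)) (fun l => (e l).1 x) →
      (∀ l, ∀ θ ∈ D, 0 < δ ((e l).1 x) θ) →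
      ∃ L ∈ 𝓛, ∏ i, ‖E (L.mulVec (fun j => algebraMap k (AlgebraicClosure k)
            ((vero N F j : 𝓞 k) : k)) i)‖ ≤
          C * (‖ρ (F (Fin.last n) : k)‖ * ∏ l, max 1 ‖(e l).1 x‖) ^
              (N * Fintype.card (Idx n N)) *
            Real.exp (-(N * Fintype.card (Idx n N) / (n + 1) : ℝ) *
              (diagLoc δ D (fun l => (e l).1 x) +
                (1 / 2 - (1 - ε) / (2 * n - 2)) * offLoc δ D (fun l => (e l).1 x) +
                (1 - ε) / (2 * n - 2) * conjLoc δ (fun l => (e l).1 x))) := by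
  obtain ⟨C, 𝓜, hC, h𝓜, hmain⟩ := local_gen δ hδ hδ2 hn D hi hD hΦ ε hε hε1 N hN
  have hlift : ∀ M ∈ 𝓜, ∃ L : Matrix (Idx n N) (Idx n N) (AlgebraicClosure k),
      L.det ≠ 0 ∧ L.map E = M := fun M hM =>
    exists_lift_matrix k E M (h𝓜 M hM).2 (h𝓜 M hM).1
  choose! g hg1 hg2 using hlift
  refine ⟨C, 𝓜.image g, hC, fun L hL => ?_, ?_⟩
  · obtain ⟨M, hM, rfl⟩ := Finset.mem_image.mp hL
    exact hg1 M hM
  · intro K _ _ _ x F hF hroot e hfac hpos
    have hinj : Function.Injective fun l => (e l).1 x := fun l l' h =>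
      e.injective (Subtype.ext (place_ext hroot.gen ((e l).2.trans (e l').2.symm) h))
    obtain ⟨M, hM, hbd⟩ := hmain (fun i => ρ (F i : k)) (ρ (F (Fin.last n) : k))
      (fun l => (e l).1 x) (place_last hF ρ _ hfac) hfac hinj hpos
    refine ⟨g M, Finset.mem_image_of_mem g hM, ?_⟩
    simp only [place_vec E ρ hE (g M) F, hg2 M hM]
    exact hbd

end Pool.Agent.RefG
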