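import Pool.Agent.RefG.Defs
import Pool.Agent.RefG.Place
import Pool.Agent.RefG.Sums
import Pool.Agent.RefG.ConjLe
import Pool.Agent.RefG.Mult
import Pool.Agent.RefG.Disc
import Pool.Agent.SST.SchlickK
import Pool.Agent.SST.ProdK
import Pool.Agent.RefW.Core

/-!
RG17. The inequality outside finitely many hypersurfaces, for the coefficient vectors.
-/

open MvPolynomial NumberField
open scoped Classical

namespace Pool.Agent.RefG

section Forms

variable {k : Type} [Field k] {n N : ℕ}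

theorem core_expo_inj : Function.Injective (expo (n := n) (N := N)) := by
  intro μ ν h
  apply Subtype.ext
  funext i
  apply Fin.ext
  have := DFunLike.congr_fun h i
  simpa [expo] using this

theorem core_expo_degree (i : Idx n N) : (expo i).degree = N := by
  rw [Finsupp.degree_eq_sum]
  exact i.2

/-- the form with coefficients `β` -/
noncomputable def coreForm (β : Idx n N → k) : MvPolynomial (Fin (n + 1)) k :=
  ∑ i, monomial (expo i) (β i)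

theorem coreForm_hom (β : Idx n N → k) : (coreForm β).IsHomogeneous N :=
  MvPolynomial.IsHomogeneous.sum _ _ _ fun i _ => isHomogeneous_monomial _ (core_expo_degree i)

theorem coreForm_ne {β : Idx n N → k} (hβ : β ≠ 0) : coreForm β ≠ 0 := by
  obtain ⟨i, hi⟩ := Function.ne_iff.1 hβ
  intro h0
  apply hi
  have h1 := congrArg (coeff (expo i)) h0
  rw [coreForm, coeff_sum, coeff_zero, Finset.sum_eq_single i] at h1
  · rwa [coeff_monomial, if_pos rfl] at h1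
  · intro j _ hj
    rw [coeff_monomial, if_neg fun h => hj (core_expo_inj h)]
  · intro h
    exact absurd (Finset.mem_univ i) h

theorem coreForm_eval (β : Idx n N → k) (F : Fin (n + 1) → k) :
    eval F (coreForm β) = ∑ i, β i * vero N F i := by
  rw [coreForm, map_sum]
  refine Finset.sum_congr rfl fun i _ => ?_
  rw [eval_monomial, vero, Finsupp.prod_fintype _ _ (fun j => by simp)]
  rfl

end Forms

theorem core_card {n N : ℕ} (hn : 2 ≤ n) (hN : 0 < N) : 2 ≤ Fintype.card (Idx n N) := by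
  rw [card_idx]
  have h1 : (N + n).choose n ≥ (1 + n).choose n := Nat.choose_le_choose n (by omega)
  have h2 : (1 + n).choose n = n + 1 := by
    rw [add_comm 1 n]; exact Nat.choose_succ_self_right n
  omega

theorem core_last_ne {k : Type} [Field k] [NumberField k] {n : ℕ} {F : Fin (n + 1) → 𝓞 k}
    (hF0 : F ≠ 0) {A : Type} [Field A] (ρ : k →+* A) {x : Fin n → A}
    (he : Fac (fun i => ρ (F i : k)) (ρ (F (Fin.last n) : k)) x) :
    ρ (F (Fin.last n) : k) ≠ 0 := by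
  intro ha
  unfold Fac at he
  rw [ha, map_zero, zero_mul] at he
  apply hF0
  funext j
  have h1 := congrArg (fun P : Polynomial A => P.coeff (j : ℕ)) he
  simp only [Polynomial.finsetSum_coeff, Polynomial.coeff_C_mul, Polynomial.coeff_X_pow,
    Polynomial.coeff_zero] at h1
  rw [Finset.sum_eq_single j (fun b _ hb => by
    rw [if_neg (fun h => hb (Fin.ext h.symm)), mul_zero]) (by simp)] at h1
  simpa using h1

theorem core_vero_le {k : Type} [Field k] [NumberField k] {n : ℕ} (N : ℕ)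
    (F : Fin (n + 1) → 𝓞 k) (ρ : k →+* ℂ) (i : Idx n N) :
    ‖ρ ((vero N F i : 𝓞 k) : k)‖ ≤ RefW.hs F ^ N := by
  have h1 : ρ ((vero N F i : 𝓞 k) : k) = ∏ j, ρ (F j : k) ^ (i.1 j : ℕ) := by
    unfold vero
    simp [map_prod]
  rw [h1, norm_prod]
  have h2 : RefW.hs F ^ N = ∏ j, RefW.hs F ^ (i.1 j : ℕ) := by
    rw [Finset.prod_pow_eq_pow_sum, i.2]
  rw [h2]
  refine Finset.prod_le_prod (fun j _ => norm_nonneg _) fun j _ => ?_
  rw [norm_pow]
  exact pow_le_pow_left₀ (norm_nonneg _) (RefW.coord_le_hs F ρ j) _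

theorem gen_core (k : Type) [Field k] [NumberField k] {T : Type} [Fintype T] [DecidableEq T]
    (p : T → ℕ) [∀ t, Fact (p t).Prime] (hp : Function.Injective p) (n : ℕ) (hn : 2 ≤ n)
    (D : (k →+* ℂ) → Finset (OnePoint ℂ)) (D' : ∀ t, (k →+* ℂ_[p t]) → Finset (OnePoint ℂ_[p t]))
    (hD : ∀ ρ, ∀ θ ∈ D ρ, RefW.AlgP θ) (hD' : ∀ t ρ, ∀ θ ∈ D' t ρ, RefW.AlgP θ)
    (hi : ∀ ρ, OnePoint.infty ∈ D ρ) (hi' : ∀ t ρ, OnePoint.infty ∈ D' t ρ)
    (ε : ℝ) (hε : 0 < ε) :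
    ∃ (C : ℝ) (𝒢 : Finset (MvPolynomial (Fin (n + 1)) k)),
      (∀ G ∈ 𝒢, G ≠ 0 ∧ ∃ N : ℕ, G.IsHomogeneous N) ∧
      ∀ (K : Type) [Field K] [NumberField K] [Algebra k K] (x : K) (F : Fin (n + 1) → 𝓞 k),
      RefW.RootOf F K x → F ≠ 0 → (∀ G ∈ 𝒢, eval (fun i => (F i : k)) G ≠ 0) →
      (∀ σ : K →+* ℂ, ((σ x : ℂ) : OnePoint ℂ) ∉ D (σ.comp (algebraMap k K))) →
      (∀ t (σ : K →+* ℂ_[p t]),
        ((σ x : ℂ_[p t]) : OnePoint ℂ_[p t]) ∉ D' t (σ.comp (algebraMap k K))) →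
      (RefW.diagSum SST.chord D K x + ∑ t, RefW.diagSum SST.chordM (D' t) K x) +
        (n - 2) / (2 * n - 2) *
          (RefW.offSum SST.chord D K x + ∑ t, RefW.offSum SST.chordM (D' t) K x) +
        (RefW.conjSum k SST.chord K x + ∑ t, RefW.conjSum k (SST.chordM (A := ℂ_[p t])) K x) /
          (2 * n - 2) ≤
        ((n + 1) * Module.finrank ℚ k + ε) * Real.log (RefW.hs F) + C := by
  obtain ⟨Φ, hΦ⟩ := exists_disc n (by omega)
  obtain ⟨ext⟩ := SST.exists_extK (k := k) (p := p)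
  set d : ℕ := Module.finrank ℚ k with hd
  have hd0 : 0 < d := Module.finrank_pos
  have hdR : (0 : ℝ) < d := by exact_mod_cast hd0
  have hnR : (2 : ℝ) ≤ n := by exact_mod_cast hn
  have hDg : (0 : ℝ) < 2 * n - 2 := by linarith
  set ε₁ : ℝ := min (ε / (2 * d)) 1 with hε₁
  have hε₁0 : 0 < ε₁ := lt_min (by positivity) one_pos
  have hε₁1 : ε₁ ≤ 1 := min_le_right _ _
  have hε₁d : ε₁ * d ≤ ε / 2 := by
    have h1 : ε₁ ≤ ε / (2 * d) := min_le_left _ _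
    calc ε₁ * d ≤ ε / (2 * d) * d := mul_le_mul_of_nonneg_right h1 hdR.le
      _ = ε / 2 := by field_simp
  obtain ⟨N, hN0, hN⟩ := mult_asymp n (2 * n - 2) (by omega) ε₁ hε₁0
  have hcast : ((2 * n - 2 : ℕ) : ℝ) = 2 * n - 2 := by
    rw [Nat.cast_sub (by omega)]
    push_cast
    ring
  rw [hcast] at hN
  have hNR : (0 : ℝ) < N := by exact_mod_cast hN0
  set c : ℕ := Fintype.card (Idx n N) with hc
  have hc2 : 2 ≤ c := core_card hn hN0
  have hcR : (0 : ℝ) < c := by exact_mod_cast (by omega : 0 < c)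
  obtain ⟨Cc, hCc⟩ := conj_le k p hp n (by omega)
  choose C₁ 𝓛₁ hC₁ hL₁ hpl₁ using fun ρ : k →+* ℂ =>
    place_gen (ext.E ρ) ρ (ext.hE ρ) SST.chord RefW.distOK_chord chord_ge hn (D ρ) (hi ρ) (hD ρ)
      hΦ ε₁ hε₁0 hε₁1 N hN
  choose C₂ 𝓛₂ hC₂ hL₂ hpl₂ using fun (t : T) (ρ : k →+* ℂ_[p t]) =>
    place_gen (ext.E' t ρ) ρ (ext.hE' t ρ) SST.chordM RefW.distOK_chordM chordM_ge hn (D' t ρ)
      (hi' t ρ) (hD' t ρ) hΦ ε₁ hε₁0 hε₁1 N hN
  set 𝓛 : SST.PlK k p → Finset (Matrix (Idx n N) (Idx n N) (AlgebraicClosure k)) := fun l =>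
    match l with
    | Sum.inl ρ => 𝓛₁ ρ
    | Sum.inr q => 𝓛₂ q.1 q.2 with h𝓛
  have h𝓛det : ∀ l, ∀ L ∈ 𝓛 l, L.det ≠ 0 := by
    rintro (ρ | q) L hL
    · exact hL₁ ρ L hL
    · exact hL₂ q.1 q.2 L hL
  set δ : ℝ := ε * c / (2 * (n + 1)) with hδ
  have hδ0 : 0 < δ := by positivity
  have hSch : ∀ ch : (∀ l : SST.PlK k p, ↥(𝓛 l)), ∃ 𝓕 : Finset (Idx n N → k), 0 ∉ 𝓕 ∧
      ∀ (x : Idx n N → 𝓞 k) (H : ℝ), 1 ≤ H → (∀ (ρ : k →+* ℂ) i, ‖ρ (x i)‖ ≤ H) →
      ∏ l, ∏ i, SST.VK ext l ((ch l).1.mulVec (fun j => algebraMap k _ (x j : k)) i) ≤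
        H ^ (-δ) → ∃ β ∈ 𝓕, ∑ i, β i * (x i : k) = 0 := fun ch =>
    SST.schlickeweiK ext hp hc2 (fun l => (ch l).1) (fun l => h𝓛det l _ (ch l).2) δ hδ0
  choose 𝓕 h𝓕0 h𝓕 using hSch
  set κ : ℝ := N * c / (n + 1) with hκ
  have hκ0 : 0 < κ := by positivity
  -- constants
  set E : ℝ := ∑ ρ : k →+* ℂ, (Real.log (C₁ ρ) + N * c * Real.log (n + 1)) +
    ∑ t, ∑ ρ : k →+* ℂ_[p t], Real.log (C₂ t ρ) with hE
  refine ⟨E / κ + |Cc|, Finset.univ.biUnion fun ch : (∀ l : SST.PlK k p, ↥(𝓛 l)) =>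
    (𝓕 ch).image coreForm, ?_, ?_⟩
  · intro G hG
    obtain ⟨ch, -, hG⟩ := Finset.mem_biUnion.1 hG
    obtain ⟨β, hβ, rfl⟩ := Finset.mem_image.1 hG
    exact ⟨coreForm_ne fun h => h𝓕0 ch (h ▸ hβ), N, coreForm_hom β⟩
  intro K _ _ _ x F hroot hF0 hG hσ hσ'
  have hhs : 1 ≤ RefW.hs F := RefW.one_le_hs F hF0
  have hhs0 : 0 < RefW.hs F := by linarith
  set L : ℝ := Real.log (RefW.hs F) with hL
  have hL0 : 0 ≤ L := Real.log_nonneg hhs
  choose e he using fun ρ : k →+* ℂ => RefW.exists_fibre_equiv hF0 hroot ρ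
  choose e' he' using fun (t : T) (ρ : k →+* ℂ_[p t]) => RefW.exists_fibre_equiv hF0 hroot ρ
  have hlast : ∀ ρ : k →+* ℂ, ρ (F (Fin.last n) : k) ≠ 0 := fun ρ => core_last_ne hF0 ρ (he ρ)
  have hlast' : ∀ t (ρ : k →+* ℂ_[p t]), ρ (F (Fin.last n) : k) ≠ 0 := fun t ρ =>
    core_last_ne hF0 ρ (he' t ρ)
  choose L₁ hL₁m hL₁b using fun ρ : k →+* ℂ => hpl₁ ρ K x F hF0 hroot (e ρ) (he ρ)
    (fun l θ hθ => by
      refine RefW.core_chord_pos _ _ fun h => ?_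
      have h2 := hσ (e ρ l).1
      rw [(e ρ l).2, h] at h2
      exact h2 hθ)
  choose L₂ hL₂m hL₂b using fun (t : T) (ρ : k →+* ℂ_[p t]) =>
    hpl₂ t ρ K x F hF0 hroot (e' t ρ) (he' t ρ)
    (fun l θ hθ => by
      refine RefW.core_chordM_pos _ _ fun h => ?_
      have h2 := hσ' t (e' t ρ l).1
      rw [(e' t ρ l).2, h] at h2
      exact h2 hθ)
  let ch : ∀ l : SST.PlK k p, ↥(𝓛 l) := fun l =>
    match l with
    | Sum.inl ρ => ⟨L₁ ρ, hL₁m ρ⟩
    | Sum.inr q => ⟨L₂ q.1 q.2, hL₂m q.1 q.2⟩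
  -- the product is large
  have hbig : (RefW.hs F ^ N) ^ (-δ) <
      ∏ l, ∏ i, SST.VK ext l ((ch l).1.mulVec (fun j => algebraMap k _
        ((vero N F j : 𝓞 k) : k)) i) := by
    by_contra hcon
    push Not at hcon
    obtain ⟨β, hβ, hβ0⟩ := h𝓕 ch (vero N F) (RefW.hs F ^ N) (one_le_pow₀ hhs)
      (fun ρ i => core_vero_le N F ρ i) hcon
    have h1 := hG (coreForm β) (Finset.mem_biUnion.2 ⟨ch, Finset.mem_univ _,
      Finset.mem_image_of_mem _ hβ⟩)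
    apply h1
    rw [coreForm_eval, ← hβ0]
    refine Finset.sum_congr rfl fun i _ => ?_
    congr 1
    unfold vero
    simp [map_prod]
  set Q₁ : (k →+* ℂ) → ℝ := fun ρ => diagLoc SST.chord (D ρ) (fun l => (e ρ l).1 x) +
    (1 / 2 - (1 - ε₁) / (2 * n - 2)) * offLoc SST.chord (D ρ) (fun l => (e ρ l).1 x) +
    (1 - ε₁) / (2 * n - 2) * conjLoc SST.chord (fun l => (e ρ l).1 x) with hQ₁
  set Q₂ : ∀ t, (k →+* ℂ_[p t]) → ℝ := fun t ρ =>
    diagLoc SST.chordM (D' t ρ) (fun l => (e' t ρ l).1 x) +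
    (1 / 2 - (1 - ε₁) / (2 * n - 2)) * offLoc SST.chordM (D' t ρ) (fun l => (e' t ρ l).1 x) +
    (1 - ε₁) / (2 * n - 2) * conjLoc SST.chordM (fun l => (e' t ρ l).1 x) with hQ₂
  set M₁ : (k →+* ℂ) → ℝ := fun ρ =>
    ‖ρ (F (Fin.last n) : k)‖ * ∏ l, max 1 ‖(e ρ l).1 x‖ with hM₁
  set M₂ : ∀ t, (k →+* ℂ_[p t]) → ℝ := fun t ρ =>
    ‖ρ (F (Fin.last n) : k)‖ * ∏ l, max 1 ‖(e' t ρ l).1 x‖ with hM₂
  have hM₁0 : ∀ ρ, 0 < M₁ ρ := fun ρ => mul_pos (norm_pos_iff.2 (hlast ρ))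
    (Finset.prod_pos fun l _ => lt_of_lt_of_le one_pos (le_max_left _ _))
  have hM₂0 : ∀ t ρ, 0 < M₂ t ρ := fun t ρ => mul_pos (norm_pos_iff.2 (hlast' t ρ))
    (Finset.prod_pos fun l _ => lt_of_lt_of_le one_pos (le_max_left _ _))
  have hM₁le : ∀ ρ, M₁ ρ ≤ (n + 1) * RefW.hs F := by
    intro ρ
    refine (RefW.mahler_le (fun i => ρ (F i : k)) _ _ (he ρ)).1.trans ?_
    refine mul_le_mul_of_nonneg_left ?_ (by positivity)
    rw [pi_norm_le_iff_of_nonneg hhs0.le]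
    exact fun i => RefW.coord_le_hs F ρ i
  have hM₂le : ∀ t ρ, M₂ t ρ ≤ 1 := by
    intro t ρ
    refine (RefW.gauss_eq (fun i => ρ (F i : k)) _ _ (he' t ρ)).le.trans ?_
    rw [pi_norm_le_iff_of_nonneg zero_le_one]
    exact fun i => RefW.norm_le_one_of_ringOfIntegers (p t) ρ (F i)
  set B₁ : (k →+* ℂ) → ℝ := fun ρ => C₁ ρ * M₁ ρ ^ (N * c) * Real.exp (-κ * Q₁ ρ) with hB₁
  set B₂ : ∀ t, (k →+* ℂ_[p t]) → ℝ := fun t ρ =>
    C₂ t ρ * M₂ t ρ ^ (N * c) * Real.exp (-κ * Q₂ t ρ) with hB₂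
  have hC₁0 : ∀ ρ, 0 < C₁ ρ := fun ρ => by linarith [hC₁ ρ]
  have hC₂0 : ∀ t ρ, 0 < C₂ t ρ := fun t ρ => by linarith [hC₂ t ρ]
  have hB₁0 : ∀ ρ, 0 < B₁ ρ := fun ρ => by
    have := hM₁0 ρ
    have := hC₁0 ρ
    positivity
  have hB₂0 : ∀ t ρ, 0 < B₂ t ρ := fun t ρ => by
    have := hM₂0 t ρ
    have := hC₂0 t ρ
    positivity
  have hprod : ∏ l, ∏ i, SST.VK ext l ((ch l).1.mulVec (fun j => algebraMap k _
      ((vero N F j : 𝓞 k) : k)) i) ≤ (∏ ρ, B₁ ρ) * ∏ t, ∏ ρ, B₂ t ρ := by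
    rw [Fintype.prod_sum_type, Fintype.prod_sigma]
    refine mul_le_mul ?_ ?_ ?_ ?_
    · exact Finset.prod_le_prod (fun ρ _ => Finset.prod_nonneg fun i _ =>
        AbsoluteValue.nonneg _ _) fun ρ _ => hL₁b ρ
    · refine Finset.prod_le_prod (fun t _ => Finset.prod_nonneg fun ρ _ =>
        Finset.prod_nonneg fun i _ => AbsoluteValue.nonneg _ _) fun t _ => ?_
      exact Finset.prod_le_prod (fun ρ _ => Finset.prod_nonneg fun i _ =>
        AbsoluteValue.nonneg _ _) fun ρ _ => hL₂b t ρ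
    · exact Finset.prod_nonneg fun t _ => Finset.prod_nonneg fun ρ _ =>
        Finset.prod_nonneg fun i _ => AbsoluteValue.nonneg _ _
    · exact Finset.prod_nonneg fun ρ _ => (hB₁0 ρ).le
  have hlog := Real.log_le_log (Real.rpow_pos_of_pos (pow_pos hhs0 N) (-δ))
    (hbig.le.trans hprod)
  rw [Real.log_rpow (pow_pos hhs0 N), Real.log_pow, ← hL,
    Real.log_mul (Finset.prod_ne_zero_iff.2 fun ρ _ => (hB₁0 ρ).ne')
      (Finset.prod_ne_zero_iff.2 fun t _ => Finset.prod_ne_zero_iff.2 fun ρ _ => (hB₂0 t ρ).ne'),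
    Real.log_prod (fun ρ _ => (hB₁0 ρ).ne'),
    Real.log_prod (fun t _ => Finset.prod_ne_zero_iff.2 fun ρ _ => (hB₂0 t ρ).ne'),
    Finset.sum_congr rfl fun t _ => Real.log_prod (fun ρ _ => (hB₂0 t ρ).ne')] at hlog
  have hlB₁ : ∀ ρ, Real.log (B₁ ρ) ≤
      (Real.log (C₁ ρ) + N * c * Real.log (n + 1)) + N * c * L - κ * Q₁ ρ := by
    intro ρ
    have h1 := hC₁0 ρ
    have h2 := hM₁0 ρ
    simp only [hB₁]
    rw [Real.log_mul (by positivity) (Real.exp_pos _).ne', Real.log_mul h1.ne' (by positivity),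
      Real.log_exp, Real.log_pow]
    have h3 : Real.log (M₁ ρ) ≤ Real.log (n + 1) + L := by
      rw [hL, ← Real.log_mul (by positivity) hhs0.ne']
      exact Real.log_le_log h2 (hM₁le ρ)
    have h4 : ((N * c : ℕ) : ℝ) * Real.log (M₁ ρ) ≤ N * c * (Real.log (n + 1) + L) := by
      push_cast
      exact mul_le_mul_of_nonneg_left h3 (by positivity)
    linarith
  have hlB₂ : ∀ t ρ, Real.log (B₂ t ρ) ≤ Real.log (C₂ t ρ) - κ * Q₂ t ρ := by
    intro t ρ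
    have h1 := hC₂0 t ρ
    have h2 := hM₂0 t ρ
    simp only [hB₂]
    rw [Real.log_mul (by positivity) (Real.exp_pos _).ne', Real.log_mul h1.ne' (by positivity),
      Real.log_exp, Real.log_pow]
    have h3 : Real.log (M₂ t ρ) ≤ 0 := Real.log_nonpos h2.le (hM₂le t ρ)
    have h4 : ((N * c : ℕ) : ℝ) * Real.log (M₂ t ρ) ≤ 0 :=
      mul_nonpos_of_nonneg_of_nonpos (by positivity) h3
    linarith
  have hcard : ((Fintype.card (k →+* ℂ) : ℕ) : ℝ) = d := by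
    rw [NumberField.Embeddings.card k ℂ]
  have hS₁ : ∑ ρ, Real.log (B₁ ρ) ≤
      ∑ ρ : k →+* ℂ, (Real.log (C₁ ρ) + N * c * Real.log (n + 1)) + d * (N * c * L) -
        κ * ∑ ρ, Q₁ ρ := by
    refine (Finset.sum_le_sum fun ρ _ => hlB₁ ρ).trans (le_of_eq ?_)
    rw [Finset.sum_sub_distrib, Finset.sum_add_distrib, Finset.sum_const, Finset.card_univ,
      nsmul_eq_mul, hcard, Finset.mul_sum]
  have hS₂ : ∑ t, ∑ ρ, Real.log (B₂ t ρ) ≤
      ∑ t, ∑ ρ : k →+* ℂ_[p t], Real.log (C₂ t ρ) - κ * ∑ t, ∑ ρ, Q₂ t ρ := by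
    refine (Finset.sum_le_sum fun t _ => Finset.sum_le_sum fun ρ _ => hlB₂ t ρ).trans
      (le_of_eq ?_)
    rw [Finset.mul_sum, ← Finset.sum_sub_distrib]
    refine Finset.sum_congr rfl fun t _ => ?_
    rw [Finset.mul_sum, ← Finset.sum_sub_distrib]
  -- the sums
  set Sd : ℝ := RefW.diagSum SST.chord D K x + ∑ t, RefW.diagSum SST.chordM (D' t) K x with hSd
  set So : ℝ := RefW.offSum SST.chord D K x + ∑ t, RefW.offSum SST.chordM (D' t) K x with hSo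
  set Sc : ℝ := RefW.conjSum k SST.chord K x +
    ∑ t, RefW.conjSum k (SST.chordM (A := ℂ_[p t])) K x with hSc
  have hQ : ∑ ρ, Q₁ ρ + ∑ t, ∑ ρ, Q₂ t ρ =
      Sd + (1 / 2 - (1 - ε₁) / (2 * n - 2)) * So + (1 - ε₁) / (2 * n - 2) * Sc := by
    rw [hSd, hSo, hSc, diagSum_eq x SST.chord D e, offSum_eq x SST.chord D e,
      conjSum_eq x SST.chord e,
      Finset.sum_congr rfl fun t _ => diagSum_eq x SST.chordM (D' t) (e' t),
      Finset.sum_congr rfl fun t _ => offSum_eq x SST.chordM (D' t) (e' t),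
      Finset.sum_congr rfl fun t _ => conjSum_eq x SST.chordM (e' t)]
    simp only [hQ₁, hQ₂, Finset.sum_add_distrib, ← Finset.mul_sum]
    ring
  have hSo0 : 0 ≤ So := by
    refine add_nonneg ?_ (Finset.sum_nonneg fun t _ => ?_)
    · refine Finset.sum_nonneg fun σ _ => Finset.sum_nonneg fun τ _ => ?_
      split_ifs
      · exact Finset.sum_nonneg fun θ _ =>
          le_min (RefW.core_nonneg RefW.distOK_chord _ _) (RefW.core_nonneg RefW.distOK_chord _ _)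
      · exact le_rfl
    · refine Finset.sum_nonneg fun σ _ => Finset.sum_nonneg fun τ _ => ?_
      split_ifs
      · exact Finset.sum_nonneg fun θ _ =>
          le_min (RefW.core_nonneg RefW.distOK_chordM _ _)
            (RefW.core_nonneg RefW.distOK_chordM _ _)
      · exact le_rfl
  have hSc_le : Sc ≤ (2 * n - 2) * d * L + Cc := hCc K x F hF0 hroot
  -- conclusion
  set Q : ℝ := Sd + (1 / 2 - (1 - ε₁) / (2 * n - 2)) * So + (1 - ε₁) / (2 * n - 2) * Sc with hQdef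
  have hκQ : κ * Q ≤ E + d * (N * c * L) + δ * (N * L) := by
    rw [← hQ, mul_add, hE]
    linarith
  have hQle : Q ≤ E / κ + (n + 1) * d * L + ε / 2 * L := by
    have h1 : κ * (E / κ + (n + 1) * d * L + ε / 2 * L) = E + d * (N * c * L) + δ * (N * L) := by
      rw [hκ, hδ]
      field_simp
    rw [← h1] at hκQ
    exact le_of_mul_le_mul_left hκQ hκ0
  have hid : Sd + (n - 2) / (2 * n - 2) * So + Sc / (2 * n - 2) =
      Q + ε₁ / (2 * n - 2) * (Sc - So) := by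
    rw [hQdef]
    have h1 : (2 * n - 2 : ℝ) ≠ 0 := hDg.ne'
    have h2 : (n : ℝ) - 1 ≠ 0 := by
      have : (0 : ℝ) < n - 1 := by linarith
      exact this.ne'
    field_simp
    ring
  rw [hid]
  have h5 : ε₁ / (2 * n - 2) * (Sc - So) ≤ ε / 2 * L + |Cc| := by
    have h6 : ε₁ / (2 * n - 2) * (Sc - So) ≤
        ε₁ / (2 * n - 2) * ((2 * n - 2) * d * L + |Cc|) := by
      refine mul_le_mul_of_nonneg_left ?_ (by positivity)
      linarith [le_abs_self Cc]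
    have h7 : ε₁ / (2 * n - 2) * ((2 * n - 2) * d * L + |Cc|) =
        ε₁ * d * L + ε₁ / (2 * n - 2) * |Cc| := by
      have h1 : (2 * n - 2 : ℝ) ≠ 0 := hDg.ne'
      have h2 : (n : ℝ) - 1 ≠ 0 := by
        have : (0 : ℝ) < n - 1 := by linarith
        exact this.ne'
      field_simp
    have h8 : ε₁ / (2 * n - 2) ≤ 1 := by
      rw [div_le_one hDg]
      linarith
    have h9 : ε₁ / (2 * n - 2) * |Cc| ≤ 1 * |Cc| :=
      mul_le_mul_of_nonneg_right h8 (abs_nonneg _)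
    have h10 : ε₁ * d * L ≤ ε / 2 * L := mul_le_mul_of_nonneg_right hε₁d hL0
    linarith
  have h11 : ((n + 1) * d + ε) * L = (n + 1) * d * L + ε / 2 * L + ε / 2 * L := by ring
  rw [h11]
  linarith

end Pool.Agent.RefG
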