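import Pool.Agent.RefW.Defs2
import Pool.Agent.SST.KDefs
import Mathlib

/-! Definitions for the inequality outside finitely many hypersurfaces, all degrees (MP_6f1c57). -/

open MvPolynomial NumberField
open scoped Classical

namespace Pool.Agent.RefG

/-- Exponents of the monomials of degree `N` in `n + 1` variables. -/
abbrev Idx (n N : ℕ) : Type := {μ : Fin (n + 1) → Fin (N + 1) // ∑ i, (μ i : ℕ) = N}

/-- The exponent of an index. -/
noncomputable def expo {n N : ℕ} (i : Idx n N) : Fin (n + 1) →₀ ℕ :=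
  Finsupp.equivFunOnFinite.symm fun j => (i.1 j : ℕ)

/-- The monomials of degree `N` of a vector. -/
def vero {R : Type} [CommSemiring R] {n : ℕ} (N : ℕ) (F : Fin (n + 1) → R) (i : Idx n N) : R :=
  ∏ j, F j ^ (i.1 j : ℕ)

/-- The largest `b` with `b μ ≤ i`. -/
noncomputable def mult {n N : ℕ} (μ : Fin (n + 1) →₀ ℕ) (i : Idx n N) : ℕ :=
  Nat.findGreatest (fun b => b • μ ≤ expo i) N

/-- The weight of an exponent. -/
noncomputable def wt {n : ℕ} (w : Fin (n + 1) → ℝ) (ν : Fin (n + 1) →₀ ℕ) : ℝ :=
  ∑ j, w j * (ν j : ℝ)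

section

variable {A : Type}

/-- The adapted forms: the largest power of `z ^ μ` in the monomial is replaced by that of `Φ`. -/
noncomputable def rowP [CommRing A] {n N : ℕ} (Φ : MvPolynomial (Fin (n + 1)) A)
    (μ : Fin (n + 1) →₀ ℕ) (i : Idx n N) : MvPolynomial (Fin (n + 1)) A :=
  Φ ^ mult μ i * monomial (expo i - mult μ i • μ) 1

/-- Substitution of the linear forms given by the rows of `S`. -/
noncomputable def lin [CommRing A] {n : ℕ} (S : Matrix (Fin (n + 1)) (Fin (n + 1)) A) :
    MvPolynomial (Fin (n + 1)) A →ₐ[A] MvPolynomial (Fin (n + 1)) A :=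
  bind₁ fun j => ∑ l, C (S j l) * X l

/-- The coefficients of the adapted forms, in the coordinates given by the rows of `T`. -/
noncomputable def rowM [CommRing A] {n : ℕ} (Φ : MvPolynomial (Fin (n + 1)) A)
    (μ : Fin (n + 1) →₀ ℕ) (T : Matrix (Fin (n + 1)) (Fin (n + 1)) A) (N : ℕ) :
    Matrix (Idx n N) (Idx n N) A :=
  Matrix.of fun i i' => (lin T (rowP Φ μ i)).coeff (expo i')

/-- Coefficients of the `j`-th Taylor coefficient of a form of degree `n` at the point `θ`. -/
def rowT [Field A] {n : ℕ} (θ : OnePoint A) (j : ℕ) (i : Fin (n + 1)) : A :=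
  match θ with
  | OnePoint.infty => if (i : ℕ) + j = n then 1 else 0
  | OnePoint.some z => ((i : ℕ).choose j : A) * z ^ ((i : ℕ) - j)

/-- The number of smaller indices with the same value. -/
noncomputable def rk {n : ℕ} (τ : Fin n → OnePoint A) (m : Fin n) : ℕ :=
  (Finset.univ.filter fun l => l < m ∧ τ l = τ m).card

/-- The coordinates attached to `τ`. -/
noncomputable def matT [Field A] {n : ℕ} (τ : Fin n → OnePoint A) :
    Matrix (Fin (n + 1)) (Fin (n + 1)) A :=
  Matrix.of (Fin.snoc (α := fun _ => Fin (n + 1) → A) (fun m => rowT (τ m) (rk τ m))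
    (rowT OnePoint.infty (Finset.univ.filter fun l => τ l = OnePoint.infty).card))

/-- The weights of the coordinates attached to `τ`. -/
noncomputable def wS {n : ℕ} (τ : Fin n → OnePoint A) (lam : Fin n → ℝ) : Fin (n + 1) → ℝ :=
  Fin.snoc (α := fun _ => ℝ)
    (fun m => ∑ l ∈ Finset.univ.filter (fun l => m ≤ l ∧ τ l = τ m), lam l) 0

/-- The sum over the pairs of indices with the same value. -/
noncomputable def offT {n : ℕ} (τ : Fin n → OnePoint A) (lam : Fin n → ℝ) : ℝ :=
  ∑ l, ∑ l' ∈ Finset.univ.erase l, if τ l = τ l' then min (lam l) (lam l') else 0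

/-- Value of the linear form `a X + b Y` at `θ`. -/
def vl [Field A] (θ : OnePoint A) (a b : A) : A :=
  match θ with
  | OnePoint.infty => a
  | OnePoint.some z => a * z + b

/-- Derivative of the linear form `a X + b Y` at `θ`. -/
def dv [Field A] (θ : OnePoint A) (a b : A) : A :=
  match θ with
  | OnePoint.infty => b
  | OnePoint.some _ => a

/-- The polynomial `Σ F i X ^ i` is `a ∏ (X - x l)`. -/
def Fac [Field A] {n : ℕ} (F : Fin (n + 1) → A) (a : A) (x : Fin n → A) : Prop :=
  ∑ i, Polynomial.C (F i) * Polynomial.X ^ (i : ℕ) =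
    Polynomial.C a * ∏ l, (Polynomial.X - Polynomial.C (x l))

/-- Sum of the closeness of the points `x l` to the points of `D`. -/
noncomputable def diagLoc [NormedField A] (δ : A → OnePoint A → ℝ) (D : Finset (OnePoint A))
    {n : ℕ} (x : Fin n → A) : ℝ :=
  ∑ l, ∑ θ ∈ D, -Real.log (δ (x l) θ)

/-- Sum over pairs of different indices of the closeness to the points of `D`. -/
noncomputable def offLoc [NormedField A] (δ : A → OnePoint A → ℝ) (D : Finset (OnePoint A))
    {n : ℕ} (x : Fin n → A) : ℝ :=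
  ∑ l, ∑ l' ∈ Finset.univ.erase l,
    ∑ θ ∈ D, min (-Real.log (δ (x l) θ)) (-Real.log (δ (x l') θ))

/-- Sum over pairs of different indices of the closeness of the points. -/
noncomputable def conjLoc [NormedField A] (δ : A → OnePoint A → ℝ) {n : ℕ} (x : Fin n → A) : ℝ :=
  ∑ l, ∑ l' ∈ Finset.univ.erase l, -Real.log (δ (x l) ((x l' : A) : OnePoint A))

end

/-- `Φ` is a discriminant form of degree `2 n - 2` in the coefficients, up to sign. -/
structure IsDisc (n : ℕ) (Φ : MvPolynomial (Fin (n + 1)) ℤ) : Prop where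
  hom : Φ.IsHomogeneous (2 * n - 2)
  eval : ∀ (L : Type) [Field L] [CharZero L] (F : Fin (n + 1) → L) (a : L) (x : Fin n → L), a ≠ 0 → Fac F a x →
    (aeval F Φ) ^ 2 =
      (a ^ (2 * n - 2) * ∏ l, ∏ l' ∈ Finset.univ.erase l, (x l - x l')) ^ 2

end Pool.Agent.RefG
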