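import Pool.Agent.RefG.Defs
import Pool.Agent.RefW.Final

/-!
RG18. The discriminant of the field and the index, in terms of the closeness of the conjugates
(extracted from the proof of `RefW.final`).
-/

open Polynomial NumberField
open scoped Classical

namespace Pool.Agent.RefG

open Pool.Agent.RefW

theorem disc_part (k : Type) [Field k] [NumberField k] {r : ℕ}
    (p : Fin r → ℕ) [∀ t, Fact (p t).Prime] (n : ℕ) (hn0 : 0 < n) :
    ∃ C : ℝ, ∀ (K : Type) [Field K] [NumberField K] [Algebra k K] (x : K) (F : (𝓞 k)[X]),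
      IntermediateField.adjoin k {x} = ⊤ → Module.finrank k K = n →
      aeval x F = 0 → F.natDegree = n →
      ∃ I : ℕ, 0 < I ∧
        |Algebra.norm ℤ F.discr| * |NumberField.discr k| ^ n =
          (I : ℤ) ^ 2 * |NumberField.discr K| *
            (Ideal.absNorm F.contentIdeal : ℤ) ^ (2 * n - 2) ∧
        ∀ G : Fin (n + 1) → 𝓞 k, SupMin G → RootOf G K x →
          (∃ c : k, c ≠ 0 ∧ ∀ i : Fin (n + 1), (G i : k) = c * (F.coeff i : k)) ∧
          (2 * n - 2) * Module.finrank ℚ k * Real.log (hs G) ≤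
            2 * Real.log (I * ∏ t, ‖((I : ℕ) : ℚ_[p t])‖) +
              (Module.finrank ℚ k * n) * SST.logDisc K +
              (conjSum k SST.chord K x + ∑ t, conjSum k (SST.chordM (A := ℂ_[p t])) K x) + C := by
  obtain ⟨C₃, h₃⟩ := discr_logK k p n hn0
  obtain ⟨C₄, hC₄, h₄⟩ := supMin_balanced k n
  set d : ℕ := Module.finrank ℚ k with hd
  have hd0 : 0 < d := Module.finrank_pos
  have hdR : (1 : ℝ) ≤ d := by exact_mod_cast hd0
  set B : ℝ := |(NumberField.discr k : ℝ)| with hB
  have hdk : NumberField.discr k ≠ 0 := NumberField.discr_ne_zero k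
  have hB1 : 1 ≤ B := by
    rw [hB, ← Int.cast_abs]
    exact_mod_cast Int.one_le_abs hdk
  refine ⟨C₃ + (2 * n - 2 : ℕ) * Real.log C₄ + (r * n : ℕ) * Real.log B,
    fun K _ _ _ x F hx hn hF hdeg => ?_⟩
  have hnR : (1 : ℝ) ≤ n := by exact_mod_cast hn0
  have hdeg' : F.natDegree = Module.finrank k K := by rw [hdeg, hn]
  obtain ⟨I, hI, hdisc⟩ := exists_index x hx F hF hdeg'
  rw [hn] at hdisc
  refine ⟨I, hI, hdisc, fun G hG hroot => ?_⟩
  have hdl := h₃ K x G hroot hG
  have hbal := (h₄ G hG).1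
  have hfin : (Module.finrank ℚ K : ℝ) = d * n := by
    rw [hd, ← hn, ← Module.finrank_mul_finrank ℚ k K]
    push_cast
    rfl
  -- the discriminant of `G`
  obtain ⟨a, ha⟩ := final_coeff hroot
  obtain ⟨b, hb0, hb⟩ := final_coeff_poly hx F hF hdeg'
  have hGP : polyOf G ≠ 0 := by
    intro h
    apply hG.1
    funext j
    have h1 : (polyOf G).coeff (j : ℕ) = G j := by
      rw [polyOf]
      simp only [finsetSum_coeff, Polynomial.coeff_C_mul, Polynomial.coeff_X_pow]
      rw [Finset.sum_eq_single j (fun b _ hb => by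
        rw [if_neg (fun h => hb (Fin.ext h.symm)), mul_zero]) (by simp)]
      simp
    rw [← h1, h, Polynomial.coeff_zero]
    rfl
  have ha0 : a ≠ 0 := by
    rintro rfl
    apply hGP
    ext i
    have h1 := ha i
    rw [zero_mul] at h1
    rw [Polynomial.coeff_zero]
    exact h1
  have hpar : ∃ c : k, ∀ i, ((polyOf G).coeff i : k) = c * (F.coeff i : k) := by
    refine ⟨a / b, fun i => ?_⟩
    rw [ha, hb]
    field_simp
  have hGdeg : (polyOf G).natDegree = n := by
    have hsupp : (polyOf G).support = F.support := by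
      ext i
      rw [Polynomial.mem_support_iff, Polynomial.mem_support_iff, not_iff_not]
      have h1 := ha i
      have h2 := hb i
      constructor
      · intro h
        have h1' : a * (minpoly k x).coeff i = 0 := by
          rw [← h1, h]
          rfl
        have h3 : (minpoly k x).coeff i = 0 := by
          rcases mul_eq_zero.1 h1' with h4 | h4
          · exact absurd h4 ha0
          · exact h4
        rw [h3, mul_zero] at h2
        exact_mod_cast h2
      · intro h
        have h2' : b * (minpoly k x).coeff i = 0 := by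
          rw [← h2, h]
          rfl
        have h3 : (minpoly k x).coeff i = 0 := by
          rcases mul_eq_zero.1 h2' with h4 | h4
          · exact absurd h4 hb0
          · exact h4
        rw [h3, mul_zero] at h1
        exact_mod_cast h1
    have hFP : F ≠ 0 := by rintro rfl; simp at hdeg; omega
    have h1 : (polyOf G).natDegree = F.natDegree := by
      rw [Polynomial.natDegree_eq_support_max' hGP, Polynomial.natDegree_eq_support_max' hFP]
      simp only [hsupp]
    rw [h1, hdeg]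
  have hscale := discr_content_scale F (polyOf G) n hn0 hdeg hGdeg hpar
  have hF0 : F ≠ 0 := by rintro rfl; simp at hdeg; omega
  have hcF : (Ideal.absNorm F.contentIdeal : ℤ) ≠ 0 := by
    have h1 : F.contentIdeal ≠ ⊥ := by
      intro h
      apply hF0
      ext i
      have h2 : F.coeff i ∈ F.contentIdeal := Polynomial.coeff_mem_contentIdeal F i
      rw [h, Ideal.mem_bot] at h2
      rw [h2, Polynomial.coeff_zero]
    have h2 : Ideal.absNorm F.contentIdeal ≠ 0 := by
      rw [Ne, Ideal.absNorm_eq_zero_iff]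
      exact h1
    exact_mod_cast h2
  set N : ℤ := Algebra.norm ℤ (polyOf G).discr with hN
  set c' : ℤ := (Ideal.absNorm (polyOf G).contentIdeal : ℤ) with hc'
  have hdiscG : |N| * |NumberField.discr k| ^ n =
      (I : ℤ) ^ 2 * |NumberField.discr K| * c' ^ (2 * n - 2) := by
    have h1 : (Ideal.absNorm F.contentIdeal : ℤ) ^ (2 * n - 2) ≠ 0 := pow_ne_zero _ hcF
    apply mul_right_cancel₀ h1
    calc |N| * |NumberField.discr k| ^ n * (Ideal.absNorm F.contentIdeal : ℤ) ^ (2 * n - 2)
        = (|N| * (Ideal.absNorm F.contentIdeal : ℤ) ^ (2 * n - 2)) *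
            |NumberField.discr k| ^ n := by ring
      _ = (|Algebra.norm ℤ F.discr| * |NumberField.discr k| ^ n) * c' ^ (2 * n - 2) := by
          rw [hscale]; ring
      _ = _ := by rw [hdisc]; ring
  have hdK : NumberField.discr K ≠ 0 := NumberField.discr_ne_zero K
  have hc'0 : c' ≠ 0 := by
    have h1 : (polyOf G).contentIdeal ≠ ⊥ := by
      intro h
      apply hGP
      ext i
      have h2 : (polyOf G).coeff i ∈ (polyOf G).contentIdeal :=
        Polynomial.coeff_mem_contentIdeal _ i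
      rw [h, Ideal.mem_bot] at h2
      rw [h2, Polynomial.coeff_zero]
    have h2 : Ideal.absNorm (polyOf G).contentIdeal ≠ 0 := by
      rw [Ne, Ideal.absNorm_eq_zero_iff]
      exact h1
    rw [hc']
    exact_mod_cast h2
  have hc'C : (c' : ℝ) ≤ C₄ := by
    rw [hc', contentIdeal_polyOf]
    exact_mod_cast hbal
  have hc'1 : (1 : ℝ) ≤ c' := by
    have : (1 : ℤ) ≤ c' := by
      have h1 : 0 ≤ c' := Int.natCast_nonneg _
      omega
    exact_mod_cast this
  have hIR : (1 : ℝ) ≤ I := by exact_mod_cast hI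
  have hIZ : (I : ℤ) ≠ 0 := by exact_mod_cast hI.ne'
  have hN0 : N ≠ 0 := by
    intro h
    rw [h, abs_zero, zero_mul] at hdiscG
    have h1 : (I : ℤ) ^ 2 * |NumberField.discr K| * c' ^ (2 * n - 2) ≠ 0 :=
      mul_ne_zero (mul_ne_zero (pow_ne_zero _ hIZ) (abs_ne_zero.2 hdK)) (pow_ne_zero _ hc'0)
    exact h1 hdiscG.symm
  -- real absolute value
  have hNreal : |(N : ℝ)| ≤ (I : ℝ) ^ 2 * |(NumberField.discr K : ℝ)| * C₄ ^ (2 * n - 2) := by
    have h1 : |(N : ℝ)| * B ^ n =
        (I : ℝ) ^ 2 * |(NumberField.discr K : ℝ)| * (c' : ℝ) ^ (2 * n - 2) := by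
      rw [hB]
      exact_mod_cast hdiscG
    calc |(N : ℝ)| ≤ |(N : ℝ)| * B ^ n :=
          le_mul_of_one_le_right (abs_nonneg _) (one_le_pow₀ hB1)
      _ = _ := h1
      _ ≤ _ := mul_le_mul_of_nonneg_left (pow_le_pow_left₀ (by linarith) hc'C _) (by positivity)
  -- `p`-adic absolute values
  have hNpad : ∀ t, ‖((N : ℤ) : ℚ_[p t])‖ ≤ ‖((I : ℕ) : ℚ_[p t])‖ ^ 2 * B ^ n := by
    intro t
    have h1 : ‖((N : ℤ) : ℚ_[p t])‖ * ‖((NumberField.discr k : ℤ) : ℚ_[p t])‖ ^ n =
        ‖((I : ℕ) : ℚ_[p t])‖ ^ 2 * ‖((NumberField.discr K : ℤ) : ℚ_[p t])‖ *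
          ‖((c' : ℤ) : ℚ_[p t])‖ ^ (2 * n - 2) := by
      have habs : ∀ z : ℤ, ‖((|z| : ℤ) : ℚ_[p t])‖ = ‖((z : ℤ) : ℚ_[p t])‖ := by
        intro z
        rcases abs_choice z with h | h
        · rw [h]
        · rw [h, Int.cast_neg, norm_neg]
      have h2 := congrArg (fun z : ℤ => ‖((z : ℤ) : ℚ_[p t])‖) hdiscG
      simp only [Int.cast_mul, Int.cast_pow, norm_mul, norm_pow, habs, Int.cast_natCast] at h2
      exact h2
    have h2 : B⁻¹ ≤ ‖((NumberField.discr k : ℤ) : ℚ_[p t])‖ := by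
      have h3 : (1 : ℝ) ≤ |(NumberField.discr k : ℝ)| *
          ‖((NumberField.discr k : ℤ) : ℚ_[p t])‖ := by
        have h4 : NumberField.discr k ≠ 0 := hdk
        set z := NumberField.discr k
        have h5 : ((p t : ℕ) ^ padicValInt (p t) z : ℤ) ∣ z := padicValInt_dvd z
        have h6 : ‖((z : ℤ) : ℚ_[p t])‖ = ((p t : ℝ) ^ padicValInt (p t) z)⁻¹ := by
          rw [Padic.norm_eq_zpow_neg_valuation (by exact_mod_cast h4), Padic.valuation_intCast,
            zpow_neg, zpow_natCast]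
        rw [h6]
        have h7 : ((p t : ℝ) ^ padicValInt (p t) z) ≤ |(z : ℝ)| := by
          have h8 := Int.le_of_dvd (abs_pos.2 h4) ((dvd_abs _ _).2 h5)
          rw [← Int.cast_abs]
          exact_mod_cast h8
        have h9 : (0 : ℝ) < (p t : ℝ) ^ padicValInt (p t) z :=
          pow_pos (by exact_mod_cast (Fact.out : (p t).Prime).pos) _
        rw [← div_eq_mul_inv, le_div_iff₀ h9, one_mul]
        exact h7
      rw [inv_le_iff_one_le_mul₀ (by linarith), mul_comm]
      exact h3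
    have h3 : ‖((NumberField.discr K : ℤ) : ℚ_[p t])‖ ≤ 1 := Padic.norm_int_le_one _
    have h4 : ‖((c' : ℤ) : ℚ_[p t])‖ ≤ 1 := Padic.norm_int_le_one _
    have h5 : ‖((N : ℤ) : ℚ_[p t])‖ * (B⁻¹) ^ n ≤ ‖((I : ℕ) : ℚ_[p t])‖ ^ 2 := by
      calc ‖((N : ℤ) : ℚ_[p t])‖ * (B⁻¹) ^ n
          ≤ ‖((N : ℤ) : ℚ_[p t])‖ * ‖((NumberField.discr k : ℤ) : ℚ_[p t])‖ ^ n :=
            mul_le_mul_of_nonneg_left (pow_le_pow_left₀ (by positivity) h2 _) (norm_nonneg _)
        _ = _ := h1
        _ ≤ ‖((I : ℕ) : ℚ_[p t])‖ ^ 2 * 1 * 1 := by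
            refine mul_le_mul (mul_le_mul_of_nonneg_left h3 (by positivity))
              (pow_le_one₀ (norm_nonneg _) h4) (by positivity) (by positivity)
        _ = _ := by ring
    rw [inv_pow, ← div_eq_mul_inv, div_le_iff₀ (by positivity)] at h5
    exact h5
  have hW0 : ∀ t, 0 < ‖((I : ℕ) : ℚ_[p t])‖ := fun t =>
    norm_pos_iff.2 (by exact_mod_cast hI.ne')
  set W : ℝ := Real.log (I * ∏ t, ‖((I : ℕ) : ℚ_[p t])‖) with hW
  have hprodI : 0 < ∏ t, ‖((I : ℕ) : ℚ_[p t])‖ := Finset.prod_pos fun t _ => hW0 t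
  have hDKR : 0 < |(NumberField.discr K : ℝ)| := abs_pos.2 (by exact_mod_cast hdK)
  have hlogdisc : Real.log ((∏ ρ : k →+* ℂ, ‖ρ ((polyOf G).discr : k)‖) *
      ∏ t, ∏ ρ : k →+* ℂ_[p t], ‖ρ ((polyOf G).discr : k)‖) ≤
      2 * W + (d * n) * SST.logDisc K + (2 * n - 2 : ℕ) * Real.log C₄ +
        (r * n : ℕ) * Real.log B := by
    rw [final_norm, Finset.prod_congr rfl fun t _ => final_norm (A := ℂ_[p t]) (polyOf G).discr]
    have e1 : ‖((N : ℤ) : ℂ)‖ = |(N : ℝ)| := by
      rw [Complex.norm_intCast]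
    have e2 : ∀ t, ‖((N : ℤ) : ℂ_[p t])‖ = ‖((N : ℤ) : ℚ_[p t])‖ := by
      intro t
      rw [← map_intCast (algebraMap ℚ_[p t] ℂ_[p t]), norm_algebraMap']
    rw [← hN, e1, Finset.prod_congr rfl fun t _ => e2 t]
    have hpos : 0 < |(N : ℝ)| * ∏ t, ‖((N : ℤ) : ℚ_[p t])‖ :=
      mul_pos (abs_pos.2 (by exact_mod_cast hN0)) (Finset.prod_pos fun t _ =>
        norm_pos_iff.2 (by exact_mod_cast hN0))
    have h1 : |(N : ℝ)| * ∏ t, ‖((N : ℤ) : ℚ_[p t])‖ ≤
        (I * ∏ t, ‖((I : ℕ) : ℚ_[p t])‖) ^ 2 * |(NumberField.discr K : ℝ)| *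
          C₄ ^ (2 * n - 2) * B ^ (r * n) := by
      calc |(N : ℝ)| * ∏ t, ‖((N : ℤ) : ℚ_[p t])‖
          ≤ ((I : ℝ) ^ 2 * |(NumberField.discr K : ℝ)| * C₄ ^ (2 * n - 2)) *
            ∏ t, (‖((I : ℕ) : ℚ_[p t])‖ ^ 2 * B ^ n) :=
            mul_le_mul hNreal (Finset.prod_le_prod (fun t _ => norm_nonneg _) fun t _ => hNpad t)
              (Finset.prod_nonneg fun t _ => norm_nonneg _) (by
                have := hC₄
                positivity)
        _ = _ := by
            rw [Finset.prod_mul_distrib, Finset.prod_pow, Finset.prod_const, Finset.card_univ,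
              Fintype.card_fin, ← pow_mul, mul_comm n r]
            ring
    refine (Real.log_le_log hpos h1).trans (le_of_eq ?_)
    have h5 := hC₄
    rw [Real.log_mul (by positivity) (by positivity), Real.log_mul (by positivity)
      (by positivity), Real.log_mul (by positivity) hDKR.ne', Real.log_pow, Real.log_pow,
      Real.log_pow]
    have h6 : Real.log |(NumberField.discr K : ℝ)| = (d * n) * SST.logDisc K := by
      unfold SST.logDisc
      rw [hfin]
      have : (d * n : ℝ) ≠ 0 := by positivity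
      field_simp
    rw [h6]
    push_cast
    ring
  refine ⟨?_, by linarith⟩
  refine ⟨a / b, div_ne_zero ha0 hb0, fun i => ?_⟩
  have h1 : (polyOf G).coeff (i : ℕ) = G i := by
    rw [polyOf]
    simp only [finsetSum_coeff, Polynomial.coeff_C_mul, Polynomial.coeff_X_pow]
    rw [Finset.sum_eq_single i (fun b _ hb => by
      rw [if_neg (fun h => hb (Fin.ext h.symm)), mul_zero]) (by simp)]
    simp
  have h2 := ha i
  rw [h1] at h2
  rw [h2, hb]
  field_simp

end Pool.Agent.RefG
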