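import Pool.Agent.RefG.Core
import Pool.Agent.RefG.DiscPart
import Pool.Agent.RefW.Height

/-!
RG19. The inequality outside finitely many hypersurfaces, all degrees, all number fields.
-/

open Polynomial NumberField
open scoped Classical

namespace Pool.Agent.RefG

open Pool.Agent.RefW

theorem final_diag_mono {k A : Type} [Field k] [NumberField k] [NormedField A] [IsAlgClosed A]
    [CharZero A] {δ : A → OnePoint A → ℝ} (hδ : DistOK δ) (D : (k →+* A) → Finset (OnePoint A))
    (K : Type) [Field K] [NumberField K] [Algebra k K] (x : K) :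
    diagSum δ D K x ≤ diagSum δ (fun ρ => insert OnePoint.infty (D ρ)) K x := by
  refine Finset.sum_le_sum fun σ _ => ?_
  refine Finset.sum_le_sum_of_subset_of_nonneg (Finset.subset_insert _ _) fun θ _ _ => ?_
  exact core_nonneg hδ _ _

theorem final_off_mono {k A : Type} [Field k] [NumberField k] [NormedField A] [IsAlgClosed A]
    [CharZero A] {δ : A → OnePoint A → ℝ} (hδ : DistOK δ) (D : (k →+* A) → Finset (OnePoint A))
    (K : Type) [Field K] [NumberField K] [Algebra k K] (x : K) :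
    offSum δ D K x ≤ offSum δ (fun ρ => insert OnePoint.infty (D ρ)) K x := by
  refine Finset.sum_le_sum fun σ _ => Finset.sum_le_sum fun τ _ => ?_
  split_ifs with h
  · refine Finset.sum_le_sum_of_subset_of_nonneg (Finset.subset_insert _ _) fun θ _ _ => ?_
    exact le_min (core_nonneg hδ _ _) (core_nonneg hδ _ _)
  · exact le_rfl

theorem final_algP_insert {A : Type} [Field A] [CharZero A] (D : Finset (OnePoint A))
    (hD : ∀ θ ∈ D, AlgP θ) : ∀ θ ∈ insert OnePoint.infty D, AlgP θ := by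
  intro θ hθ
  rcases Finset.mem_insert.1 hθ with rfl | h
  · intro z hz
    exact absurd hz (OnePoint.infty_ne_coe z)
  · exact hD θ h

theorem final_eval_smul {k : Type} [Field k] {m N : ℕ} {Γ : MvPolynomial (Fin m) k}
    (h : Γ.IsHomogeneous N) (c : k) (v : Fin m → k) :
    MvPolynomial.eval (c • v) Γ = c ^ N * MvPolynomial.eval v Γ := by
  rw [MvPolynomial.eval_eq', MvPolynomial.eval_eq', Finset.mul_sum]
  refine Finset.sum_congr rfl fun ν hν => ?_
  have h1 : ν.degree = N := by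
    by_contra hne
    exact (MvPolynomial.mem_support_iff.1 hν) (h.coeff_eq_zero hne)
  have h2 : ∏ i, (c • v) i ^ ν i = c ^ N * ∏ i, v i ^ ν i := by
    simp only [Pi.smul_apply, smul_eq_mul, mul_pow]
    rw [Finset.prod_mul_distrib, Finset.prod_pow_eq_pow_sum, ← Finsupp.degree_eq_sum, h1]
  rw [h2]
  ring

theorem gen_final (k : Type) [Field k] [NumberField k] {r : ℕ}
    (p : Fin r → ℕ) [∀ t, Fact (p t).Prime] (hp : Function.Injective p) (n : ℕ) (hn : 2 ≤ n)
    (D : (k →+* ℂ) → Finset (OnePoint ℂ)) (D' : ∀ t, (k →+* ℂ_[p t]) → Finset (OnePoint ℂ_[p t]))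
    (hD : ∀ ρ, ∀ θ ∈ D ρ, AlgP θ) (hD' : ∀ t ρ, ∀ θ ∈ D' t ρ, AlgP θ) (ε : ℝ) (hε : 0 < ε) :
    ∃ (C : ℝ) (𝒢 : Finset (MvPolynomial (Fin (n + 1)) k)),
      (∀ G ∈ 𝒢, G ≠ 0 ∧ ∃ N : ℕ, G.IsHomogeneous N) ∧
      ∀ (K : Type) [Field K] [NumberField K] [Algebra k K] (x : K) (F : (𝓞 k)[X]),
      IntermediateField.adjoin k {x} = ⊤ → Module.finrank k K = n →
      aeval x F = 0 → F.natDegree = n →
      (∀ G ∈ 𝒢, MvPolynomial.eval (fun i : Fin (n + 1) => (F.coeff i : k)) G ≠ 0) →
      (∀ σ : K →+* ℂ, ((σ x : ℂ) : OnePoint ℂ) ∉ D (σ.comp (algebraMap k K))) →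
      (∀ t (σ : K →+* ℂ_[p t]),
        ((σ x : ℂ_[p t]) : OnePoint ℂ_[p t]) ∉ D' t (σ.comp (algebraMap k K))) →
      ∃ I : ℕ, 0 < I ∧
        |Algebra.norm ℤ F.discr| * |NumberField.discr k| ^ n =
          (I : ℤ) ^ 2 * |NumberField.discr K| *
            (Ideal.absNorm F.contentIdeal : ℤ) ^ (2 * n - 2) ∧
        (diagSum SST.chord D K x + ∑ t, diagSum SST.chordM (D' t) K x) / Module.finrank ℚ K -
            2 * SST.ht K x ≤
          (SST.logDisc K + 2 * Real.log (I * ∏ t, ‖((I : ℕ) : ℚ_[p t])‖) /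
            Module.finrank ℚ K) / 2 +
            (n - 2) / (2 * n - 2) *
              ((excess SST.chord D K x + ∑ t, excess SST.chordM (D' t) K x) /
                Module.finrank ℚ K) +
            ε * SST.ht K x + C := by
  obtain ⟨C₁, hC₁, h₁⟩ := exists_supMin k n
  obtain ⟨C₂, 𝒢, h𝒢, h₂⟩ := gen_core k p hp n hn (fun ρ => insert OnePoint.infty (D ρ))
    (fun t ρ => insert OnePoint.infty (D' t ρ)) (fun ρ => final_algP_insert (D ρ) (hD ρ))
    (fun t ρ => final_algP_insert (D' t ρ) (hD' t ρ)) (fun ρ => Finset.mem_insert_self _ _)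
    (fun t ρ => Finset.mem_insert_self _ _) ε hε
  obtain ⟨C₃, h₃⟩ := disc_part k p n (by omega)
  set d : ℕ := Module.finrank ℚ k with hd
  have hd0 : 0 < d := Module.finrank_pos
  have hdR : (1 : ℝ) ≤ d := by exact_mod_cast hd0
  have hnR : (2 : ℝ) ≤ n := by exact_mod_cast hn
  have hDg : (0 : ℝ) < 2 * n - 2 := by linarith
  have hn1 : (n : ℝ) - 1 ≠ 0 := by
    have : (0 : ℝ) < n - 1 := by linarith
    exact this.ne'
  refine ⟨(2 * d + ε) * |Real.log C₁| + |C₂| + |C₃|, 𝒢, h𝒢,
    fun K _ _ _ x F hx hKn hF hdeg hG hσ hσ' => ?_⟩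
  obtain ⟨I, hI, hdisc, h₃⟩ := h₃ K x F hx hKn hF hdeg
  refine ⟨I, hI, hdisc, ?_⟩
  obtain ⟨G, hGm, hroot, hGle⟩ := h₁ K x hx hKn
  obtain ⟨⟨c, hc0, hc⟩, hdl⟩ := h₃ G hGm hroot
  have hmain := h₂ K x G hroot hGm.1 (fun Γ hΓ => by
    obtain ⟨N, hN⟩ := (h𝒢 Γ hΓ).2
    have h1 : (fun i => (G i : k)) = c • (fun i : Fin (n + 1) => (F.coeff i : k)) := by
      funext i
      exact hc i
    rw [h1, final_eval_smul hN]
    exact mul_ne_zero (pow_ne_zero _ hc0) (hG Γ hΓ)) (fun σ h => by
      rcases Finset.mem_insert.1 h with h | h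
      · exact OnePoint.coe_ne_infty _ h
      · exact hσ σ h) (fun t σ h => by
      rcases Finset.mem_insert.1 h with h | h
      · exact OnePoint.coe_ne_infty _ h
      · exact hσ' t σ h)
  have hfin : (Module.finrank ℚ K : ℝ) = d * n := by
    rw [hd, ← hKn, ← Module.finrank_mul_finrank ℚ k K]
    push_cast
    rfl
  have hht := general_ht_nonneg K x
  have hhs : 1 ≤ hs G := one_le_hs G hGm.1
  set L : ℝ := Real.log (hs G) with hL
  have hL0 : 0 ≤ L := Real.log_nonneg hhs
  have hlog : L ≤ |Real.log C₁| + n * SST.ht K x := by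
    have h3 := Real.log_le_log (by linarith) hGle
    rw [Real.log_mul hC₁.ne' (Real.exp_pos _).ne', Real.log_exp] at h3
    linarith [le_abs_self (Real.log C₁)]
  -- monotonicity in `D`
  have hm1 := final_diag_mono distOK_chord D K x
  have hm2 : ∑ t, diagSum SST.chordM (D' t) K x ≤
      ∑ t, diagSum SST.chordM (fun ρ => insert OnePoint.infty (D' t ρ)) K x :=
    Finset.sum_le_sum fun t _ => final_diag_mono distOK_chordM (D' t) K x
  have ho1 := final_off_mono distOK_chord D K x
  have ho2 : ∑ t, offSum SST.chordM (D' t) K x ≤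
      ∑ t, offSum SST.chordM (fun ρ => insert OnePoint.infty (D' t ρ)) K x :=
    Finset.sum_le_sum fun t _ => final_off_mono distOK_chordM (D' t) K x
  have hconj : conjSum k SST.chord K x + ∑ t, conjSum k (SST.chordM (A := ℂ_[p t])) K x =
      (excess SST.chord D K x + ∑ t, excess SST.chordM (D' t) K x) +
        (offSum SST.chord D K x + ∑ t, offSum SST.chordM (D' t) K x) := by
    rw [final_conj SST.chord D K x, Finset.sum_congr rfl fun t _ =>
      final_conj SST.chordM (D' t) K x, Finset.sum_add_distrib]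
    ring
  rw [hconj] at hmain hdl
  set W : ℝ := Real.log (I * ∏ t, ‖((I : ℕ) : ℚ_[p t])‖) with hW
  set Sd : ℝ := diagSum SST.chord D K x + ∑ t, diagSum SST.chordM (D' t) K x with hSd
  set So : ℝ := offSum SST.chord D K x + ∑ t, offSum SST.chordM (D' t) K x with hSo
  set Se : ℝ := excess SST.chord D K x + ∑ t, excess SST.chordM (D' t) K x with hSe
  set h : ℝ := SST.ht K x with hh
  have hcoef : 0 ≤ (n - 2 : ℝ) / (2 * n - 2) := div_nonneg (by linarith) hDg.le
  have hmain' : Sd + (n - 2) / (2 * n - 2) * So + (Se + So) / (2 * n - 2) ≤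
      ((n + 1) * d + ε) * L + C₂ := by
    refine le_trans ?_ hmain
    have e1 : (n - 2 : ℝ) / (2 * n - 2) * So ≤ (n - 2) / (2 * n - 2) *
        (offSum SST.chord (fun ρ => insert OnePoint.infty (D ρ)) K x +
          ∑ t, offSum SST.chordM (fun ρ => insert OnePoint.infty (D' t ρ)) K x) :=
      mul_le_mul_of_nonneg_left (by rw [hSo]; linarith) hcoef
    have e2 : Sd ≤ diagSum SST.chord (fun ρ => insert OnePoint.infty (D ρ)) K x +
          ∑ t, diagSum SST.chordM (fun ρ => insert OnePoint.infty (D' t ρ)) K x := by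
      rw [hSd]; linarith
    linarith
  have key : Sd ≤ 2 * d * L + W + (d * n) * SST.logDisc K / 2 +
      (n - 2) / (2 * n - 2) * Se + ε * L + |C₂| + |C₃| := by
    have e1 : Sd + (n - 2) / (2 * n - 2) * So + (Se + So) / (2 * n - 2) =
        Sd + (Se + So) / 2 - (n - 2) / (2 * n - 2) * Se := by
      field_simp
      ring
    rw [e1] at hmain'
    have e2 : (2 * n - 2) * d * L ≤ 2 * W + (d * n) * SST.logDisc K + (Se + So) + |C₃| := by
      linarith [le_abs_self C₃]
    have e3 : ((n + 1) * d + ε) * L = 2 * d * L + ε * L + ((2 * n - 2) * d * L) / 2 := by ring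
    rw [e3] at hmain'
    linarith [le_abs_self C₂, abs_nonneg C₃]
  have h4 : (2 * d + ε) * L ≤ (2 * d + ε) * (|Real.log C₁| + n * h) :=
    mul_le_mul_of_nonneg_left hlog (by positivity)
  have h5 : Sd - 2 * (d * n) * h ≤ W + (d * n) * SST.logDisc K / 2 +
      (n - 2) / (2 * n - 2) * Se + ε * (d * n) * h +
      (d * n) * ((2 * d + ε) * |Real.log C₁| + |C₂| + |C₃|) := by
    have e2 : (2 * d + ε) * (|Real.log C₁| + n * h) =
        (2 * d + ε) * |Real.log C₁| + 2 * (d * n) * h + ε * n * h := by ring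
    have e3 : ε * n * h ≤ ε * (d * n) * h := by
      have h8 : ε * n * h * 1 ≤ ε * n * h * d :=
        mul_le_mul_of_nonneg_left hdR (by positivity)
      linarith
    have e4 : (2 * d + ε) * |Real.log C₁| + |C₂| + |C₃| ≤
        (d * n) * ((2 * d + ε) * |Real.log C₁| + |C₂| + |C₃|) := by
      have h9 : (1 : ℝ) ≤ d * n := by nlinarith
      have h10 : 0 ≤ (2 * d + ε) * |Real.log C₁| + |C₂| + |C₃| := by positivity
      have := mul_le_mul_of_nonneg_right h9 h10
      linarith
    linarith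
  rw [hfin]
  have hdn : (0 : ℝ) < d * n := by positivity
  have h6 : Sd / (d * n) - 2 * h = (Sd - 2 * (d * n) * h) / (d * n) := by
    field_simp
  have h7 : (SST.logDisc K + 2 * W / (d * n)) / 2 + (n - 2) / (2 * n - 2) * (Se / (d * n)) +
      ε * h + ((2 * d + ε) * |Real.log C₁| + |C₂| + |C₃|) =
      (W + (d * n) * SST.logDisc K / 2 + (n - 2) / (2 * n - 2) * Se + ε * (d * n) * h +
      (d * n) * ((2 * d + ε) * |Real.log C₁| + |C₂| + |C₃|)) / (d * n) := by
    field_simp
    ring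
  rw [h6, h7]
  exact div_le_div_of_nonneg_right h5 hdn.le

end Pool.Agent.RefG
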